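import Pool.Agent.Work.MP_b17785_an.SG.Stmts

/-! Bundle of small proof modules (one section per former module). -/

section

/-!
# The estimate BigQ
-/

set_option autoImplicit false

open Complex Metric Set Filter Topology MeasureTheory
open scoped ENNReal ComplexConjugate

namespace Pool.Agent.MultS.SG

namespace BigQAux

theorem conj_mul_self_one {z : ℂ} (hz : ‖z‖ = 1) : conj z * z = 1 := by
  rw [mul_comm, Complex.mul_conj, Complex.normSq_eq_norm_sq, hz]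
  norm_num

theorem real_ineq {X Y F D A r ρ d u Q : ℝ} (hX : 0 ≤ X) (hY : 0 < Y) (hD : 0 ≤ D)
    (hr : 0 < r) (hr1 : r < 1) (hρ : 0 ≤ ρ) (hρr : ρ ≤ r) (hA : A = 1 - ρ ^ 2) (hQ0 : 0 ≤ Q)
    (hd : 1 - ρ ≤ d) (hQ : Q ≤ (1 - r * ρ) + r * ρ * d)
    (h1 : X * Y * (A * (r * d) * (1 - r ^ 2)) ≤ D * F * ((r - ρ) * u * (1 - r * ρ) * Q))
    (h2 : A * F * u ≤ 4 * Y * Q) : X * (r * (1 - r)) ≤ 36 * d * D := by
  have hA0 : 0 < A := by rw [hA]; nlinarith
  have hd0 : 0 < d := by linarith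
  have hrρ : r * ρ ≤ 1 := by nlinarith
  have hrρ1 : 0 ≤ 1 - r * ρ := by linarith
  have hrρ0 : 0 ≤ r - ρ := by linarith
  -- multiply and divide by `Y`
  have h3 : X * (A ^ 2 * (r * d) * (1 - r ^ 2)) ≤ 4 * D * ((r - ρ) * (1 - r * ρ) * Q ^ 2) := by
    have e1 : Y * (X * (A ^ 2 * (r * d) * (1 - r ^ 2))) ≤
        Y * (4 * D * ((r - ρ) * (1 - r * ρ) * Q ^ 2)) := by
      calc Y * (X * (A ^ 2 * (r * d) * (1 - r ^ 2)))
          = A * (X * Y * (A * (r * d) * (1 - r ^ 2))) := by ring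
        _ ≤ A * (D * F * ((r - ρ) * u * (1 - r * ρ) * Q)) :=
          mul_le_mul_of_nonneg_left h1 hA0.le
        _ = (D * ((r - ρ) * (1 - r * ρ) * Q)) * (A * F * u) := by ring
        _ ≤ (D * ((r - ρ) * (1 - r * ρ) * Q)) * (4 * Y * Q) :=
          mul_le_mul_of_nonneg_left h2 (by positivity)
        _ = Y * (4 * D * ((r - ρ) * (1 - r * ρ) * Q ^ 2)) := by ring
    exact le_of_mul_le_mul_left e1 hY
  have hQ3 : Q ≤ 3 * d := by
    have e1 : r * ρ * d ≤ 1 * d := mul_le_mul_of_nonneg_right hrρ hd0.le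
    have e2 : 1 - r * ρ ≤ 2 * (1 - ρ) := by nlinarith
    linarith
  have hQ2 : Q ^ 2 ≤ 9 * d ^ 2 := by nlinarith
  have e1 : r - ρ ≤ A := by rw [hA]; nlinarith
  have e2 : 1 - r * ρ ≤ A := by rw [hA]; nlinarith
  have e3 : (r - ρ) * (1 - r * ρ) ≤ A ^ 2 := by
    rw [pow_two]
    exact mul_le_mul e1 e2 hrρ1 hA0.le
  have e4 : (r - ρ) * (1 - r * ρ) * Q ^ 2 ≤ A ^ 2 * (9 * d ^ 2) :=
    mul_le_mul e3 hQ2 (sq_nonneg Q) (by positivity)
  have e5 : (A ^ 2 * d) * (X * (r * (1 - r ^ 2))) ≤ (A ^ 2 * d) * (36 * d * D) := by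
    calc (A ^ 2 * d) * (X * (r * (1 - r ^ 2))) = X * (A ^ 2 * (r * d) * (1 - r ^ 2)) := by ring
      _ ≤ 4 * D * ((r - ρ) * (1 - r * ρ) * Q ^ 2) := h3
      _ ≤ 4 * D * (A ^ 2 * (9 * d ^ 2)) := mul_le_mul_of_nonneg_left e4 (by positivity)
      _ = (A ^ 2 * d) * (36 * d * D) := by ring
  have e6 : X * (r * (1 - r ^ 2)) ≤ 36 * d * D := le_of_mul_le_mul_left e5 (by positivity)
  have e7 : X * (r * (1 - r)) ≤ X * (r * (1 - r ^ 2)) := by
    apply mul_le_mul_of_nonneg_left _ hX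
    apply mul_le_mul_of_nonneg_left _ hr.le
    nlinarith
  exact e7.trans e6

end BigQAux

open BigQAux in
theorem prf_BigQ (h1 : TwoB) (h2 : Gro) : BigQ := by
  intro f hf r ρ z w hr hr1 hρ hρr hz hw hd
  rcases hρr.eq_or_lt with rfl | hlt
  · rw [sub_self, norm_zero, zero_mul]
    positivity
  have nb : ‖(ρ : ℂ) * z‖ = ρ := by
    rw [norm_mul, hz, mul_one, Complex.norm_real, Real.norm_of_nonneg hρ]
  have nx : ‖(r : ℂ) * z‖ = r := by
    rw [norm_mul, hz, mul_one, Complex.norm_real, Real.norm_of_nonneg hr.le]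
  have ny : ‖(r : ℂ) * w‖ = r := by
    rw [norm_mul, hw, mul_one, Complex.norm_real, Real.norm_of_nonneg hr.le]
  have bb : (ρ : ℂ) * z ∈ ball (0 : ℂ) 1 := by
    rw [mem_ball_zero_iff, nb]
    linarith
  have bx : (r : ℂ) * z ∈ ball (0 : ℂ) 1 := by
    rw [mem_ball_zero_iff, nx]
    exact hr1
  have bY : (r : ℂ) * w ∈ ball (0 : ℂ) 1 := by
    rw [mem_ball_zero_iff, ny]
    exact hr1
  have hzz := conj_mul_self_one hz
  have nxy : ‖(r : ℂ) * z - r * w‖ = r * ‖z - w‖ := by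
    rw [← mul_sub, norm_mul, Complex.norm_real, Real.norm_of_nonneg hr.le]
  have nxb : ‖(r : ℂ) * z - ρ * z‖ = r - ρ := by
    rw [← sub_mul, norm_mul, hz, mul_one, ← Complex.ofReal_sub, Complex.norm_real,
      Real.norm_of_nonneg (by linarith)]
  have cbx : conj ((ρ : ℂ) * z) * (r * z) = ((r * ρ : ℝ) : ℂ) := by
    rw [map_mul, Complex.conj_ofReal]
    push_cast
    linear_combination (r * ρ : ℂ) * hzz
  have n1x : ‖1 - conj ((ρ : ℂ) * z) * (r * z)‖ = 1 - r * ρ := by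
    rw [cbx, ← Complex.ofReal_one, ← Complex.ofReal_sub, Complex.norm_real,
      Real.norm_of_nonneg (by nlinarith)]
  have n1y : ‖1 - conj ((ρ : ℂ) * z) * (r * w)‖ ≤ (1 - r * ρ) + r * ρ * ‖z - w‖ := by
    have e1 : 1 - conj ((ρ : ℂ) * z) * (r * w) =
        ((1 - r * ρ : ℝ) : ℂ) + ((r * ρ : ℝ) : ℂ) * (conj z * (z - w)) := by
      rw [map_mul, Complex.conj_ofReal]
      push_cast
      linear_combination (-(r * ρ) : ℂ) * hzz
    rw [e1]
    refine (norm_add_le _ _).trans ?_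
    have h1' : 0 ≤ 1 - r * ρ := by nlinarith
    have h2' : 0 ≤ r * ρ := by positivity
    rw [norm_mul, norm_mul, Complex.norm_real, Complex.norm_real, Real.norm_of_nonneg h1',
      Real.norm_of_nonneg h2', Complex.norm_conj, hz, one_mul]
  have t1 := h1 f hf _ bb _ bx _ bY
  have t2 := (h2 f hf _ bb _ bY).1
  rw [nb, nx, ny, nxy, nxb, n1x] at t1
  rw [nb] at t2
  have hsq : √((1 - r ^ 2) * (1 - r ^ 2)) = 1 - r ^ 2 := Real.sqrt_mul_self (by nlinarith)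
  rw [hsq] at t1
  have hne : (r : ℂ) * w ≠ ρ * z := by
    intro h
    have := congrArg norm h
    rw [nb, ny] at this
    linarith
  have hY : 0 < ‖f (r * w) - f (ρ * z)‖ := by
    rw [norm_pos_iff, sub_ne_zero]
    intro h
    exact hne (hf.2.1 bY bb h)
  rw [norm_sub_rev (f (ρ * z)) (f (r * z))]
  exact real_ineq (norm_nonneg _) hY (norm_nonneg _) hr hr1 hρ hρr rfl (norm_nonneg _) hd n1y
    t1 t2

end Pool.Agent.MultS.SG

end

section

/-!
# MP_b17785_an, block SG: the four point inequality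
-/

set_option autoImplicit false

open Complex Metric Set Filter Topology MeasureTheory
open scoped ENNReal ComplexConjugate

namespace Pool.Agent.MultS.SG

namespace FourAux

theorem ne {a x : ℂ} (ha : ‖a‖ < 1) (hx : ‖x‖ < 1) : 1 - conj a * x ≠ 0 := by
  intro h
  have h1 : conj a * x = 1 := (sub_eq_zero.1 h).symm
  have h2 : ‖conj a * x‖ = 1 := by rw [h1, norm_one]
  rw [norm_mul, RCLike.norm_conj] at h2
  have h3 : ‖a‖ * ‖x‖ < 1 := by
    have := mul_le_mul ha.le hx.le (norm_nonneg x) zero_le_one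
    rcases (norm_nonneg a).eq_or_lt with h0 | h0
    · rw [← h0]; norm_num
    · nlinarith [norm_nonneg x]
  linarith

theorem sq (a : ℂ) : ((‖a‖ : ℂ)) ^ 2 = a * conj a := by
  rw [Complex.mul_conj, Complex.normSq_eq_norm_sq]
  push_cast
  rfl

theorem m1 {a x y : ℂ} (ha : ‖a‖ < 1) (hx : ‖x‖ < 1) (hy : ‖y‖ < 1) :
    ‖(y - a) / (1 - conj a * y) - (x - a) / (1 - conj a * x)‖ =
      (1 - ‖a‖ ^ 2) * ‖y - x‖ / (‖1 - conj a * y‖ * ‖1 - conj a * x‖) := by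
  have e : (y - a) / (1 - conj a * y) - (x - a) / (1 - conj a * x) =
      ((1 - ‖a‖ ^ 2 : ℝ) : ℂ) * (y - x) / ((1 - conj a * y) * (1 - conj a * x)) := by
    rw [div_sub_div _ _ (ne ha hy) (ne ha hx)]
    congr 1
    push_cast
    rw [sq]
    ring
  have hA : 0 ≤ 1 - ‖a‖ ^ 2 := by nlinarith [norm_nonneg a]
  rw [e, norm_div, norm_mul, norm_mul, Complex.norm_real, Real.norm_eq_abs, abs_of_nonneg hA]

theorem m3 {a y b : ℂ} (ha : ‖a‖ < 1) (hy : ‖y‖ < 1) (hb : ‖b‖ < 1) :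
    ‖1 - conj ((y - a) / (1 - conj a * y)) * ((b - a) / (1 - conj a * b))‖ =
      (1 - ‖a‖ ^ 2) * ‖1 - conj y * b‖ / (‖1 - conj a * y‖ * ‖1 - conj a * b‖) := by
  have hne : 1 - a * conj y ≠ 0 := by
    intro h
    apply ne ha hy
    have := congrArg conj h
    simpa using this
  have e : 1 - conj ((y - a) / (1 - conj a * y)) * ((b - a) / (1 - conj a * b)) =
      ((1 - ‖a‖ ^ 2 : ℝ) : ℂ) * (1 - conj y * b) / (conj (1 - conj a * y) * (1 - conj a * b)) := by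
    have h1 := ne ha hb
    simp only [map_div₀, map_sub, map_mul, map_one, Complex.conj_conj]
    rw [div_mul_div_comm, eq_div_iff (mul_ne_zero hne h1), sub_mul,
      div_mul_cancel₀ _ (mul_ne_zero hne h1)]
    push_cast
    rw [sq]
    ring
  have hA : 0 ≤ 1 - ‖a‖ ^ 2 := by nlinarith [norm_nonneg a]
  rw [e, norm_div, norm_mul, norm_mul, Complex.norm_real, Real.norm_eq_abs, abs_of_nonneg hA,
    RCLike.norm_conj]

theorem m2 {a x : ℂ} (ha : ‖a‖ < 1) (hx : ‖x‖ < 1) :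
    1 - ‖(x - a) / (1 - conj a * x)‖ ^ 2 =
      (1 - ‖a‖ ^ 2) * (1 - ‖x‖ ^ 2) / ‖1 - conj a * x‖ ^ 2 := by
  have hne : ‖1 - conj a * x‖ ^ 2 ≠ 0 := pow_ne_zero 2 (norm_ne_zero_iff.2 (ne ha hx))
  rw [norm_div, div_pow, eq_div_iff hne, sub_mul, div_mul_cancel₀ _ hne]
  simp only [← Complex.normSq_eq_norm_sq, Complex.normSq_apply, Complex.sub_re, Complex.sub_im,
    Complex.one_re, Complex.one_im, Complex.mul_re, Complex.mul_im, Complex.conj_re,
    Complex.conj_im]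
  ring

theorem fin (s A px py pb u d1 d2 d3 d4 e1 e2 e3 e4 e5 : ℝ) (hs : 0 < s) (hA : 0 < A)
    (hpx : 0 < px) (hpy : 0 < py) (hpb : 0 < pb)
    (h : d1 / s * (d2 / s) * (A * e1 / (py * px)) * (e2 / pb) * (A * u / (px * py * pb)) ≤
      d3 / s * (d4 / s) * (A * e3 / (pb * px)) * (e4 / py) * (A * e5 / (py * pb))) :
    d1 * d2 * (e2 * e1 * u) ≤ d4 * d3 * (e3 * e4 * e5 * px) := by
  have h1 : d1 / s * (d2 / s) * (A * e1 / (py * px)) * (e2 / pb) * (A * u / (px * py * pb)) =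
      (d1 * d2 * (e2 * e1 * u)) * (A ^ 2 / (s ^ 2 * px ^ 2 * py ^ 2 * pb ^ 2)) := by
    field_simp
  have h2 : d3 / s * (d4 / s) * (A * e3 / (pb * px)) * (e4 / py) * (A * e5 / (py * pb)) =
      (d4 * d3 * (e3 * e4 * e5 * px)) * (A ^ 2 / (s ^ 2 * px ^ 2 * py ^ 2 * pb ^ 2)) := by
    field_simp
  rw [h1, h2] at h
  exact le_of_mul_le_mul_right h (by positivity)

end FourAux

open FourAux in
theorem prf_Four (h1 : Tri) (h2 : KT) : Four := by
  intro f hf a ha b hb x hx y hy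
  obtain ⟨hda, F, hF, hFv⟩ := h2 f hf a ha
  obtain ⟨hX, hFX⟩ := hFv x hx
  obtain ⟨hY, hFY⟩ := hFv y hy
  obtain ⟨hZ, hFZ⟩ := hFv b hb
  have h := h1 F hF _ hX _ hY _ hZ
  rw [hFX, hFY, hFZ] at h
  rw [mem_ball_zero_iff] at ha hb hx hy
  set s : ℂ := (1 - (‖a‖ : ℂ) ^ 2) * deriv f a with hs
  have hA : 0 < 1 - ‖a‖ ^ 2 := by nlinarith [norm_nonneg a]
  have hs0 : s ≠ 0 := by
    apply mul_ne_zero _ hda
    have : (1 - (‖a‖ : ℂ) ^ 2) = ((1 - ‖a‖ ^ 2 : ℝ) : ℂ) := by push_cast; rfl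
    rw [this]
    exact_mod_cast hA.ne'
  have d1 : ‖(f b - f a) / s - (f x - f a) / s‖ = ‖f b - f x‖ / ‖s‖ := by
    rw [← sub_div, norm_div]; congr 2; ring
  have d3 : ‖(f y - f a) / s - (f x - f a) / s‖ = ‖f x - f y‖ / ‖s‖ := by
    rw [← sub_div, norm_div, norm_sub_rev (f x) (f y)]; congr 2; ring
  rw [d1, d3, norm_div (f y - f a), norm_div (f b - f a), m1 ha hx hy, m1 ha hx hb, m3 ha hy hb,
    m2 ha hx, m2 ha hy, m2 ha hb, norm_div (b - a), norm_div (y - a)] at h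
  have hpx : 0 < ‖1 - conj a * x‖ := norm_pos_iff.2 (ne ha hx)
  have hpy : 0 < ‖1 - conj a * y‖ := norm_pos_iff.2 (ne ha hy)
  have hpb : 0 < ‖1 - conj a * b‖ := norm_pos_iff.2 (ne ha hb)
  set px := ‖1 - conj a * x‖
  set py := ‖1 - conj a * y‖
  set pb := ‖1 - conj a * b‖
  set A := 1 - ‖a‖ ^ 2
  have hsq : √(A * (1 - ‖x‖ ^ 2) / px ^ 2 * (A * (1 - ‖y‖ ^ 2) / py ^ 2) *
      (A * (1 - ‖b‖ ^ 2) / pb ^ 2)) =
      A * √(A * (1 - ‖b‖ ^ 2) * (1 - ‖x‖ ^ 2) * (1 - ‖y‖ ^ 2)) / (px * py * pb) := by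
    have e : A * (1 - ‖x‖ ^ 2) / px ^ 2 * (A * (1 - ‖y‖ ^ 2) / py ^ 2) *
      (A * (1 - ‖b‖ ^ 2) / pb ^ 2) = (A / (px * py * pb)) ^ 2 *
        (A * (1 - ‖b‖ ^ 2) * (1 - ‖x‖ ^ 2) * (1 - ‖y‖ ^ 2)) := by
      field_simp
    rw [e, Real.sqrt_mul (by positivity), Real.sqrt_sq (by positivity)]
    ring
  rw [hsq] at h
  have h3 := fin ‖s‖ A px py pb _ ‖f b - f x‖ ‖f y - f a‖ ‖f x - f y‖ ‖f b - f a‖ ‖y - x‖ ‖b - a‖
    ‖b - x‖ ‖y - a‖ ‖1 - conj y * b‖ (norm_pos_iff.2 hs0) hA hpx hpy hpb h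
  rw [norm_sub_rev x y]
  exact h3

end Pool.Agent.MultS.SG

end

section

/-!
# From small steps to a semigroup
-/

set_option autoImplicit false

open Complex Metric Set Filter Topology MeasureTheory
open scoped ENNReal ComplexConjugate

namespace Pool.Agent.MultS.SG

namespace GenAux

theorem pow_lit (h1 : Mul) {lam : ℕ → ℂ} (h : Lit Sc lam) :
    ∀ k : ℕ, Lit Sc (fun n => lam n ^ (k + 1)) := by
  intro k
  induction k with
  | zero => simpa using h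
  | succ k ih =>
    have h2 := h1 _ _ ih h
    have e : (fun n => lam n ^ (k + 1 + 1)) = fun n => lam n ^ (k + 1) * lam n := by
      funext n
      rw [pow_succ]
    rw [e]
    exact h2

end GenAux

open GenAux in
theorem prf_Gen (h1 : Mul) (h2 : Lim) : Gen' := by
  intro γ hγ t ht
  obtain ⟨κ, hκ, hlim⟩ := hγ t ht
  obtain ⟨N0, hN0⟩ := eventually_atTop.1 hκ
  refine h2 (fun N n => κ (N + (N0 + 1)) n ^ (N + (N0 + 1))) _ ?_ ?_
  · intro N
    exact pow_lit h1 (hN0 (N + (N0 + 1)) (by omega)) (N + N0)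
  · intro n hn
    have h3 := Complex.tendsto_one_add_pow_exp_of_tendsto (hlim n hn)
    have h4 : Tendsto (fun N : ℕ => κ N n ^ N) atTop (𝓝 (Complex.exp (-(t * γ n)))) := by
      refine h3.congr fun N => ?_
      rw [add_sub_cancel]
    exact h4.comp (tendsto_add_atTop_nat (N0 + 1))

end Pool.Agent.MultS.SG

end

section

set_option autoImplicit false

open Complex Metric Set Filter Topology MeasureTheory
open scoped ENNReal ComplexConjugate

namespace Pool.Agent.MultS.SG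

namespace GroAux

theorem lower {D N p q : ℝ} (hD : 0 < D) (hp : 0 ≤ p) (hq : 0 < q) (hpq : p < q)
    (h : p / q / (1 + p / q) ^ 2 ≤ N / D) : D * p ≤ 4 * N * q := by
  have h1 : p / q / (1 + p / q) ^ 2 = p * q / (q + p) ^ 2 := by
    have : q + p ≠ 0 := by positivity
    field_simp
  rw [h1, div_le_div_iff₀ (by positivity) hD] at h
  have hN : 0 ≤ N := by
    by_contra hc
    push Not at hc
    have h2 : N * (q + p) ^ 2 < 0 := mul_neg_of_neg_of_pos hc (by positivity)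
    have h3 : 0 ≤ p * q * D := by positivity
    linarith
  have h4 : N * (q + p) ^ 2 ≤ N * (4 * q ^ 2) := by
    apply mul_le_mul_of_nonneg_left _ hN
    nlinarith
  have h5 : D * p * q ≤ 4 * N * q * q := by nlinarith
  exact le_of_mul_le_mul_right h5 hq

theorem upper {D N p q : ℝ} (hD : 0 < D) (hq : 0 < q) (hpq : p < q)
    (h : N / D ≤ p / q / (1 - p / q) ^ 2) : N * (q - p) ^ 2 ≤ D * p * q := by
  have h0 : 0 < q - p := sub_pos.2 hpq
  have h1 : p / q / (1 - p / q) ^ 2 = p * q / (q - p) ^ 2 := by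
    have h2 : 1 - p / q = (q - p) / q := by field_simp
    rw [h2]
    field_simp
  rw [h1, div_le_div_iff₀ hD (by positivity)] at h
  nlinarith

end GroAux

theorem prf_Gro (h1 : KT) (h2 : Gol.GrowL) (h3 : Growth) : Gro := by
  intro f hf b hb x hx
  obtain ⟨hd, F, hF, hFx⟩ := h1 f hf b hb
  obtain ⟨hz, hval⟩ := hFx x hx
  have hb1 : ‖b‖ < 1 := by simpa using hb
  have hD0 : 0 < 1 - ‖b‖ ^ 2 := by nlinarith [norm_nonneg b]
  have hD : 0 < (1 - ‖b‖ ^ 2) * ‖deriv f b‖ := mul_pos hD0 (norm_pos_iff.2 hd)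
  have hq : 0 < ‖1 - conj b * x‖ := by
    rw [norm_pos_iff, sub_ne_zero]
    intro h
    have h4 : ‖conj b * x‖ = 1 := by rw [← h]; simp
    rw [norm_mul, RCLike.norm_conj] at h4
    have hx1 : ‖x‖ < 1 := by simpa using hx
    nlinarith [norm_nonneg b, norm_nonneg x]
  have hz1 : ‖x - b‖ / ‖1 - conj b * x‖ < 1 := by
    rw [← norm_div]; simpa using hz
  have hpq : ‖x - b‖ < ‖1 - conj b * x‖ := by rwa [div_lt_one hq] at hz1
  have hn : ‖F ((x - b) / (1 - conj b * x))‖ =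
      ‖f x - f b‖ / ((1 - ‖b‖ ^ 2) * ‖deriv f b‖) := by
    rw [hval, norm_div, norm_mul]
    congr 2
    have : (1 - (‖b‖ : ℂ) ^ 2) = ((1 - ‖b‖ ^ 2 : ℝ) : ℂ) := by push_cast; ring
    rw [this, Complex.norm_real, Real.norm_of_nonneg hD0.le]
  have e2 := h2 F hF _ hz
  have e3 := h3 F hF _ hz
  rw [hn, norm_div] at e2 e3
  refine ⟨GroAux.lower hD (norm_nonneg _) hq hpq e2, ?_⟩
  exact GroAux.upper hD hq hpq e3

end Pool.Agent.MultS.SG

end

section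

set_option autoImplicit false

/-! Item `Lim`: the set of multipliers of `S` is closed under pointwise limits. -/

open Complex Metric Set Filter Topology MeasureTheory
open scoped ENNReal ComplexConjugate

namespace Pool.Agent.MultS.SG

namespace LimAux

lemma tc_one (G : ℂ → ℂ) : tc G 1 = deriv G 0 := by
  simp [tc, iteratedDeriv_one]

lemma bsum (z : ℂ) (hz : ‖z‖ < 1) :
    Summable (fun n : ℕ => 3 * ((n : ℝ) + 1) * ‖z‖ ^ (n + 1)) := by
  have h := summable_pow_mul_geometric_of_norm_lt_one (R := ℝ) 1 (r := ‖z‖) (by simpa using hz)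
  have h2 := ((summable_nat_add_iff 1).2 h).mul_left 3
  refine h2.congr fun n => ?_
  push_cast
  ring

lemma psum (h1 : PS) (b : ℕ → ℂ) (hb : ∀ n, ‖b n‖ ≤ 3 * ((n : ℝ) + 1)) :
    (∀ z ∈ ball (0 : ℂ) 1, Summable (fun n : ℕ => b n * z ^ (n + 1))) ∧
    DifferentiableOn ℂ (fun z => ∑' n : ℕ, b n * z ^ (n + 1)) (ball 0 1) ∧
    (∀ n, tc (fun z => ∑' n : ℕ, b n * z ^ (n + 1)) (n + 1) = b n) := by
  have hs : ∀ z ∈ ball (0 : ℂ) 1, Summable (fun n : ℕ => b n * z ^ (n + 1)) := by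
    intro z hz
    have hz' : ‖z‖ < 1 := by simpa using hz
    refine Summable.of_norm_bounded (bsum z hz') fun n => ?_
    rw [norm_mul, norm_pow]
    exact mul_le_mul_of_nonneg_right (hb n) (by positivity)
  have h2 := h1.2 (fun n => Nat.casesOn n 0 b) (fun z => ∑' n : ℕ, b n * z ^ (n + 1)) (by
    intro z hz
    have h3 := (hs z hz).hasSum
    have h4 := (hasSum_nat_add_iff (f := fun n : ℕ => (Nat.casesOn n 0 b : ℂ) * z ^ n) 1).1 h3
    simpa using h4)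
  exact ⟨hs, h2.1, fun n => h2.2 (n + 1)⟩

/-- coefficients of the transformed function, from summability only -/
lemma pcoef (h1 : PS) (b : ℕ → ℂ)
    (hs : ∀ z ∈ ball (0 : ℂ) 1, Summable (fun n : ℕ => b n * z ^ (n + 1))) :
    ∀ n, tc (fun z => ∑' n : ℕ, b n * z ^ (n + 1)) (n + 1) = b n := by
  have h2 := h1.2 (fun n => Nat.casesOn n 0 b) (fun z => ∑' n : ℕ, b n * z ^ (n + 1)) (by
    intro z hz
    have h3 := (hs z hz).hasSum
    have h4 := (hasSum_nat_add_iff (f := fun n : ℕ => (Nat.casesOn n 0 b : ℂ) * z ^ n) 1).1 h3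
    simpa using h4)
  exact fun n => h2.2 (n + 1)

end LimAux

open LimAux in
theorem prf_Lim (h1 : PS) (h2 : Litt) (h3 : Gol.GolS) : Lim := by
  intro lam mu hl hlim f hf
  have hc : ∀ N n, tc (fun z => ∑' n : ℕ, lam N (n + 1) * tc f (n + 1) * z ^ (n + 1)) (n + 1) =
      lam N (n + 1) * tc f (n + 1) := fun N n =>
    pcoef h1 (fun n => lam N (n + 1) * tc f (n + 1)) (hl N f hf).1 n
  have hbN : ∀ N n, ‖lam N (n + 1) * tc f (n + 1)‖ ≤ 3 * ((n : ℝ) + 1) := by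
    intro N n
    rw [← hc N n]
    have := h2 _ (hl N f hf).2 (n + 1) (by omega)
    simpa using this
  have htend : ∀ n, Tendsto (fun N => lam N (n + 1) * tc f (n + 1)) atTop
      (𝓝 (mu (n + 1) * tc f (n + 1))) := fun n => (hlim (n + 1) (by omega)).mul_const _
  have hb : ∀ n, ‖mu (n + 1) * tc f (n + 1)‖ ≤ 3 * ((n : ℝ) + 1) := fun n =>
    le_of_tendsto' (htend n).norm fun N => hbN N n
  obtain ⟨hs, hd, hcg⟩ := psum h1 (fun n => mu (n + 1) * tc f (n + 1)) hb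
  have hpt : ∀ z ∈ ball (0 : ℂ) 1, Tendsto
      (fun N => ∑' n : ℕ, lam N (n + 1) * tc f (n + 1) * z ^ (n + 1)) atTop
      (𝓝 (∑' n : ℕ, mu (n + 1) * tc f (n + 1) * z ^ (n + 1))) := by
    intro z hz
    have hz' : ‖z‖ < 1 := by simpa using hz
    refine tendsto_tsum_of_dominated_convergence (bsum z hz')
      (fun n => (htend n).mul_const _) (Eventually.of_forall fun N n => ?_)
    rw [norm_mul, norm_pow]
    exact mul_le_mul_of_nonneg_right (hbN N n) (by positivity)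
  refine ⟨hs, hd, ?_, ?_, ?_⟩
  · intro a ha b hb' hab
    have ha' : ‖a‖ < 1 := by simpa using ha
    have hb'' : ‖b‖ < 1 := by simpa using hb'
    have hr : max ‖a‖ ‖b‖ < 1 := max_lt ha' hb''
    have hr0 : 0 ≤ max ‖a‖ ‖b‖ := le_max_of_le_left (norm_nonneg _)
    have hle : (1 - max ‖a‖ ‖b‖) / (1 + max ‖a‖ ‖b‖) ^ 3 * ‖a - b‖ ≤
        ‖(∑' n : ℕ, mu (n + 1) * tc f (n + 1) * a ^ (n + 1)) -
          ∑' n : ℕ, mu (n + 1) * tc f (n + 1) * b ^ (n + 1)‖ :=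
      ge_of_tendsto' ((hpt a ha).sub (hpt b hb')).norm fun N =>
        h3 _ (hl N f hf).2 _ hr0 hr a b (le_max_left _ _) (le_max_right _ _)
    have hab' : (∑' n : ℕ, mu (n + 1) * tc f (n + 1) * a ^ (n + 1)) =
          ∑' n : ℕ, mu (n + 1) * tc f (n + 1) * b ^ (n + 1) := hab
    rw [hab', sub_self, norm_zero] at hle
    have hpos : 0 < (1 - max ‖a‖ ‖b‖) / (1 + max ‖a‖ ‖b‖) ^ 3 := by
      have : 0 < 1 - max ‖a‖ ‖b‖ := by linarith
      positivity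
    have h0 : ‖a - b‖ ≤ 0 := by
      by_contra hcon
      push Not at hcon
      exact absurd hle (not_le.mpr (mul_pos hpos hcon))
    exact sub_eq_zero.1 (norm_le_zero_iff.1 h0)
  · simp
  · rw [← tc_one, show (1 : ℕ) = 0 + 1 from rfl, hcg 0]
    have h4 : ∀ N, lam N (0 + 1) * tc f (0 + 1) = 1 := by
      intro N
      rw [← hc N 0, show (0 + 1 : ℕ) = 1 from rfl, tc_one]
      exact (hl N f hf).2.2.2.2
    have h5 : Tendsto (fun N : ℕ => lam N (0 + 1) * tc f (0 + 1)) atTop (𝓝 1) := by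
      simp only [h4]
      exact tendsto_const_nhds
    exact tendsto_nhds_unique (htend 0) h5

end Pool.Agent.MultS.SG

end

section

/-!
# MP_b17785_an, block SG, item Mul: products of multipliers
-/

set_option autoImplicit false

open Complex Metric Set Filter Topology MeasureTheory
open scoped ENNReal ComplexConjugate

namespace Pool.Agent.MultS.SG

namespace MulAux

theorem shift (F : ℕ → ℂ) (G : ℕ → ℂ) (s : ℂ) (h0 : F 0 = 0) (h : ∀ n, F (n + 1) = G n)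
    (hG : HasSum G s) : HasSum F s := by
  have h1 : HasSum (fun n => F (n + 1)) s := by
    have : (fun n => F (n + 1)) = G := funext h
    rw [this]
    exact hG
  have h2 := (hasSum_nat_add_iff (f := F) 1).1 h1
  rw [Finset.sum_range_one, h0, add_zero] at h2
  exact h2

end MulAux

theorem prf_Mul (h1 : PS) : Mul := by
  intro lam mu hlam hmu f hf
  obtain ⟨hs, hg⟩ := hmu f hf
  have htc : ∀ n : ℕ, tc (fun z => ∑' n : ℕ, mu (n + 1) * tc f (n + 1) * z ^ (n + 1)) (n + 1) =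
      mu (n + 1) * tc f (n + 1) := by
    intro n
    have h2 := (h1.2 (fun n => if n = 0 then 0 else mu n * tc f n)
      (fun z => ∑' n : ℕ, mu (n + 1) * tc f (n + 1) * z ^ (n + 1)) (fun z hz => ?_)).2 (n + 1)
    · rw [h2, if_neg (Nat.succ_ne_zero n)]
    · refine MulAux.shift _ _ _ ?_ (fun n => ?_) (hs z hz).hasSum
      · rw [if_pos rfl, zero_mul]
      · rw [if_neg (Nat.succ_ne_zero n)]
  obtain ⟨hs2, hg2⟩ := hlam _ hg
  have he : ∀ (z : ℂ) (n : ℕ), lam (n + 1) *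
      tc (fun z => ∑' n : ℕ, mu (n + 1) * tc f (n + 1) * z ^ (n + 1)) (n + 1) * z ^ (n + 1) =
      (lam (n + 1) * mu (n + 1)) * tc f (n + 1) * z ^ (n + 1) := fun z n => by
    rw [htc]; ring
  have e1 : (fun z : ℂ => ∑' n : ℕ, lam (n + 1) *
      tc (fun z => ∑' n : ℕ, mu (n + 1) * tc f (n + 1) * z ^ (n + 1)) (n + 1) * z ^ (n + 1)) =
      fun z : ℂ => ∑' n : ℕ, (lam (n + 1) * mu (n + 1)) * tc f (n + 1) * z ^ (n + 1) :=
    funext fun z => tsum_congr (he z)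
  rw [e1] at hg2
  refine ⟨fun z hz => ?_, hg2⟩
  exact (summable_congr (he z)).1 (hs2 z hz)

end Pool.Agent.MultS.SG

end

section

set_option autoImplicit false

/-! Item `Near`. -/

open Complex Metric Set Filter Topology MeasureTheory
open scoped ENNReal ComplexConjugate

namespace Pool.Agent.MultS.SG

namespace NearAux

lemma core (A P X Y u v F G D S : ℝ) (hA : 0 < A) (hP : 0 ≤ P) (hX : 0 ≤ X) (hY : 0 ≤ Y)
    (hu : 0 < u) (hv : 0 < v) (hF : 0 ≤ F) (_hG : 0 ≤ G) (hD : 0 ≤ D) (hS : 0 ≤ S)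
    (hXA : X ≤ A) (hYA : Y ≤ 5 * A) (h1 : A * P * u ≤ 4 * F * X) (h2 : A * P * v ≤ 4 * G * Y)
    (h3 : F * G * (A * S) ≤ D * P * (u * v * X * Y)) : P * S ≤ 400 * D * A := by
  rcases hP.eq_or_lt with h0 | hP'
  · rw [← h0]; simp only [zero_mul]; positivity
  have h4 : (A * P * u) * (A * P * v) ≤ (4 * F * X) * (4 * G * Y) :=
    mul_le_mul h1 h2 (by positivity) (by positivity)
  have h5 : (A * P * u) * (A * P * v) * (A * S) ≤ (4 * F * X) * (4 * G * Y) * (A * S) :=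
    mul_le_mul_of_nonneg_right h4 (by positivity)
  have h6 : (16 * X * Y) * (F * G * (A * S)) ≤ (16 * X * Y) * (D * P * (u * v * X * Y)) :=
    mul_le_mul_of_nonneg_left h3 (by positivity)
  have h7 : (P * u * v) * (A ^ 3 * (P * S)) ≤ (P * u * v) * (16 * D * (X * Y) ^ 2) := by
    calc (P * u * v) * (A ^ 3 * (P * S)) = (A * P * u) * (A * P * v) * (A * S) := by ring
      _ ≤ (4 * F * X) * (4 * G * Y) * (A * S) := h5
      _ = (16 * X * Y) * (F * G * (A * S)) := by ring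
      _ ≤ (16 * X * Y) * (D * P * (u * v * X * Y)) := h6
      _ = (P * u * v) * (16 * D * (X * Y) ^ 2) := by ring
  have h8 : A ^ 3 * (P * S) ≤ 16 * D * (X * Y) ^ 2 :=
    le_of_mul_le_mul_left h7 (by positivity)
  have h9 : X * Y ≤ A * (5 * A) := mul_le_mul hXA hYA hY hA.le
  have h10 : (X * Y) ^ 2 ≤ (A * (5 * A)) ^ 2 := pow_le_pow_left₀ (by positivity) h9 2
  have h11 : 16 * D * (X * Y) ^ 2 ≤ 16 * D * (A * (5 * A)) ^ 2 :=
    mul_le_mul_of_nonneg_left h10 (by positivity)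
  have h12 : A ^ 3 * (P * S) ≤ A ^ 3 * (400 * D * A) := by
    refine (h8.trans h11).trans (le_of_eq ?_)
    ring
  exact le_of_mul_le_mul_left h12 (by positivity)

lemma norm_one_sub (z w : ℂ) (hz : ‖z‖ = 1) : ‖1 - conj z * w‖ = ‖z - w‖ := by
  have h1 : conj z * z = 1 := by
    rw [mul_comm, Complex.mul_conj, Complex.normSq_eq_norm_sq, hz]
    simp
  have h2 : 1 - conj z * w = conj z * (z - w) := by rw [mul_sub, h1]
  rw [h2, norm_mul, RCLike.norm_conj, hz, one_mul]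

lemma E_le (s t : ℝ) (z w : ℂ) (hz : ‖z‖ = 1) (hs : 0 ≤ s) (ht : 0 ≤ t) (hst : s * t ≤ 1) :
    ‖1 - conj ((s : ℂ) * z) * ((t : ℂ) * w)‖ ≤ (1 - s * t) + s * t * ‖z - w‖ := by
  have h1 : 1 - conj ((s : ℂ) * z) * ((t : ℂ) * w) =
      ((1 - s * t : ℝ) : ℂ) + ((s * t : ℝ) : ℂ) * (1 - conj z * w) := by
    rw [map_mul, Complex.conj_ofReal]
    push_cast
    ring
  rw [h1]
  refine (norm_add_le _ _).trans ?_
  rw [norm_mul, Complex.norm_real, Complex.norm_real, norm_one_sub z w hz,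
    Real.norm_of_nonneg (by linarith), Real.norm_of_nonneg (by positivity)]

lemma E_sq (b q : ℂ) : ‖1 - conj b * q‖ ^ 2 - ‖q - b‖ ^ 2 = (1 - ‖b‖ ^ 2) * (1 - ‖q‖ ^ 2) := by
  simp only [← Complex.normSq_eq_norm_sq, Complex.normSq_apply, Complex.sub_re, Complex.sub_im,
    Complex.mul_re, Complex.mul_im, Complex.conj_re, Complex.conj_im, Complex.one_re,
    Complex.one_im]
  ring

lemma firstpart (A P d ρ E δ N : ℝ) (hA : 0 < A) (hP : 0 ≤ P) (hN : 0 ≤ N)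
    (hδ : δ = ρ * d) (hδ0 : 0 ≤ δ) (hE0 : 0 ≤ E) (hE : E ≤ 5 * A) (hsq : E ^ 2 - δ ^ 2 = A ^ 2)
    (hG : N * (E - δ) ^ 2 ≤ A * P * δ * E) : N ≤ 500 * P * (ρ * d) := by
  have h1 : δ ≤ E := by
    by_contra hcon
    push Not at hcon
    nlinarith [sq_nonneg A]
  have h2 : A / 10 ≤ E - δ := by
    have h3 : (E - δ) * (E + δ) = A ^ 2 := by rw [← hsq]; ring
    have h4 : E + δ ≤ 10 * A := by linarith
    have h5 : A ^ 2 ≤ (E - δ) * (10 * A) := by
      rw [← h3]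
      exact mul_le_mul_of_nonneg_left h4 (by linarith)
    have h6 : A * A ≤ (10 * (E - δ)) * A := by nlinarith
    have h7 := le_of_mul_le_mul_right h6 hA
    linarith
  have h3 : (A / 10) ^ 2 ≤ (E - δ) ^ 2 := pow_le_pow_left₀ (by positivity) h2 2
  have h4 : N * (A / 10) ^ 2 ≤ A * P * δ * (5 * A) :=
    (mul_le_mul_of_nonneg_left h3 hN).trans (hG.trans (mul_le_mul_of_nonneg_left hE (by positivity)))
  have h5 : A ^ 2 * N ≤ A ^ 2 * (500 * P * δ) := by nlinarith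
  have h6 := le_of_mul_le_mul_left h5 (by positivity)
  rwa [hδ] at h6

lemma e5 (ρ r d E : ℝ) (hρ : 0 ≤ ρ) (hρ1 : ρ < 1) (hρr : ρ ≤ r) (hr1 : r < 1) (hd0 : 0 ≤ d)
    (hd : d ≤ 4 * (1 - ρ)) (hE : E ≤ (1 - ρ * r) + ρ * r * d) : E ≤ 5 * (1 - ρ ^ 2) := by
  have h1 : ρ * r ≤ 1 := mul_le_one₀ hρ1.le (hρ.trans hρr) hr1.le
  have h2 : ρ * r * d ≤ 1 * d := mul_le_mul_of_nonneg_right h1 hd0
  have h3 : ρ * ρ ≤ ρ * r := mul_le_mul_of_nonneg_left hρr hρ
  have h4 : ρ * ρ ≤ ρ * 1 := mul_le_mul_of_nonneg_left hρ1.le hρ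
  have h5 : ρ ^ 2 = ρ * ρ := sq ρ
  linarith

lemma basicA (ρ : ℝ) (hρ : 0 ≤ ρ) (hρ1 : ρ < 1) :
    0 < 1 - ρ ^ 2 ∧ 1 - ρ ≤ 1 - ρ ^ 2 ∧ 1 - ρ ^ 2 ≤ 2 * (1 - ρ) := by
  refine ⟨by nlinarith, by nlinarith, by nlinarith⟩

end NearAux

open NearAux in
theorem prf_Near (h1 : TwoB) (h2 : Gro) : Near := by
  intro f hf r ρ z w hr hr1 hρ hρr hz hw hd
  rcases hρ.eq_or_lt with h0 | hρ0
  · subst h0
    simp
  rcases hρr.eq_or_lt with h0 | hρr'
  · subst h0
    have hD : 0 ≤ ‖f (ρ * z) - f (ρ * w)‖ := norm_nonneg _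
    have h3 : 0 ≤ ρ * (1 - ρ) := mul_nonneg hρ (by linarith)
    nlinarith [mul_nonneg hD h3]
  have hb1 : ‖(ρ : ℂ) * z‖ = ρ := by
    rw [norm_mul, Complex.norm_real, Real.norm_of_nonneg hρ, hz, mul_one]
  have hq1 : ‖(ρ : ℂ) * w‖ = ρ := by
    rw [norm_mul, Complex.norm_real, Real.norm_of_nonneg hρ, hw, mul_one]
  have hx1 : ‖(r : ℂ) * z‖ = r := by
    rw [norm_mul, Complex.norm_real, Real.norm_of_nonneg hr.le, hz, mul_one]
  have hy1 : ‖(r : ℂ) * w‖ = r := by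
    rw [norm_mul, Complex.norm_real, Real.norm_of_nonneg hr.le, hw, mul_one]
  have hρ1 : ρ < 1 := lt_trans hρr' hr1
  have hb : (ρ : ℂ) * z ∈ ball (0 : ℂ) 1 := by rw [mem_ball_zero_iff, hb1]; exact hρ1
  have hq : (ρ : ℂ) * w ∈ ball (0 : ℂ) 1 := by rw [mem_ball_zero_iff, hq1]; exact hρ1
  have hx : (r : ℂ) * z ∈ ball (0 : ℂ) 1 := by rw [mem_ball_zero_iff, hx1]; exact hr1
  have hy : (r : ℂ) * w ∈ ball (0 : ℂ) 1 := by rw [mem_ball_zero_iff, hy1]; exact hr1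
  set A : ℝ := 1 - ρ ^ 2 with hAdef
  have hA : 0 < A := (basicA ρ hρ hρ1).1
  have hA1 : 1 - ρ ≤ A := (basicA ρ hρ hρ1).2.1
  have hA2 : A ≤ 2 * (1 - ρ) := (basicA ρ hρ hρ1).2.2
  have hR := basicA r hr.le hr1
  have hρρ1 : ρ * ρ ≤ 1 := mul_le_one₀ hρ1.le hρ hρ1.le
  have hρr1 : ρ * r ≤ 1 := mul_le_one₀ hρ1.le hr.le hr1.le
  set d : ℝ := ‖z - w‖ with hddef
  have hd0 : 0 ≤ d := norm_nonneg _
  -- first part
  have hG := (h2 f hf _ hb _ hq).2
  have hδ : ‖(ρ : ℂ) * w - (ρ : ℂ) * z‖ = ρ * d := by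
    rw [← mul_sub, norm_mul, Complex.norm_real, Real.norm_of_nonneg hρ, norm_sub_rev]
  have hE := E_le ρ ρ z w hz hρ hρ hρρ1
  have hEsq := E_sq ((ρ : ℂ) * z) ((ρ : ℂ) * w)
  rw [hb1, hq1] at hEsq
  rw [hb1] at hG
  have hN : ‖f (ρ * w) - f (ρ * z)‖ ≤ 500 * ‖deriv f (ρ * z)‖ * (ρ * d) := by
    refine firstpart A ‖deriv f (ρ * z)‖ d ρ ‖1 - conj ((ρ : ℂ) * z) * ((ρ : ℂ) * w)‖
      ‖(ρ : ℂ) * w - (ρ : ℂ) * z‖ _ hA (norm_nonneg _) (norm_nonneg _) hδ (norm_nonneg _)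
      (norm_nonneg _) ?_ ?_ hG
    · exact e5 ρ ρ d _ hρ hρ1 le_rfl hρ1 hd0 hd hE
    · rw [hEsq, hAdef]; ring
  -- second part
  have hGx := (h2 f hf _ hb _ hx).1
  have hGy := (h2 f hf _ hb _ hy).1
  have hT := h1 f hf _ hb _ hx _ hy
  rw [hb1] at hGx hGy hT
  rw [hx1, hy1] at hT
  have hsq : √((1 - r ^ 2) * (1 - r ^ 2)) = 1 - r ^ 2 :=
    Real.sqrt_mul_self hR.1.le
  have hxy : ‖(r : ℂ) * z - (r : ℂ) * w‖ = r * d := by
    rw [← mul_sub, norm_mul, Complex.norm_real, Real.norm_of_nonneg hr.le]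
  rw [hsq, hxy] at hT
  have hX := E_le ρ r z z hz hρ hr.le hρr1
  have hY := E_le ρ r z w hz hρ hr.le hρr1
  rw [sub_self, norm_zero, mul_zero, add_zero] at hX
  have hu : ‖(r : ℂ) * z - (ρ : ℂ) * z‖ = r - ρ := by
    rw [← sub_mul, norm_mul, hz, mul_one, ← Complex.ofReal_sub, Complex.norm_real,
      Real.norm_of_nonneg (by linarith)]
  have hv : 0 < ‖(r : ℂ) * w - (ρ : ℂ) * z‖ := by
    have h5 := norm_sub_norm_le ((r : ℂ) * w) ((ρ : ℂ) * z)
    rw [hy1, hb1] at h5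
    linarith
  have hρρ : ρ * ρ ≤ ρ * r := mul_le_mul_of_nonneg_left hρr hρ
  have hC := core A ‖deriv f (ρ * z)‖ ‖1 - conj ((ρ : ℂ) * z) * ((r : ℂ) * z)‖
    ‖1 - conj ((ρ : ℂ) * z) * ((r : ℂ) * w)‖ ‖(r : ℂ) * z - (ρ : ℂ) * z‖
    ‖(r : ℂ) * w - (ρ : ℂ) * z‖ ‖f (r * z) - f (ρ * z)‖ ‖f (r * w) - f (ρ * z)‖
    ‖f (r * z) - f (r * w)‖ (r * d * (1 - r ^ 2)) hA (norm_nonneg _) (norm_nonneg _)
    (norm_nonneg _) (by rw [hu]; linarith) hv (norm_nonneg _) (norm_nonneg _) (norm_nonneg _)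
    (mul_nonneg (mul_nonneg hr.le hd0) hR.1.le)
    (by rw [hAdef, sq]; linarith) (e5 ρ r d _ hρ hρ1 hρr hr1 hd0 hd hY) hGx hGy (by
      refine le_trans (le_of_eq ?_) hT
      rw [hAdef]; ring)
  rw [norm_sub_rev (f (ρ * z))]
  set N := ‖f (ρ * w) - f (ρ * z)‖
  set P := ‖deriv f (ρ * z)‖
  set D := ‖f (r * z) - f (r * w)‖
  have hP0 : 0 ≤ P := norm_nonneg _
  have hD0 : 0 ≤ D := norm_nonneg _
  have h7 : N * (r * (1 - r)) ≤ 500 * P * (ρ * d) * (r * (1 - r)) :=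
    mul_le_mul_of_nonneg_right hN (mul_nonneg hr.le (by linarith))
  have h8 : P * (r * d * (1 - r)) ≤ P * (r * d * (1 - r ^ 2)) := by
    refine mul_le_mul_of_nonneg_left ?_ hP0
    exact mul_le_mul_of_nonneg_left hR.2.1 (mul_nonneg hr.le hd0)
  have h9 : 500 * ρ * (P * (r * d * (1 - r))) ≤ 500 * ρ * (400 * D * A) :=
    mul_le_mul_of_nonneg_left (h8.trans hC) (by positivity)
  have h10 : ρ * D * A ≤ ρ * D * (2 * (1 - ρ)) := mul_le_mul_of_nonneg_left hA2 (by positivity)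
  calc N * (r * (1 - r)) ≤ 500 * P * (ρ * d) * (r * (1 - r)) := h7
    _ = 500 * ρ * (P * (r * d * (1 - r))) := by ring
    _ ≤ 500 * ρ * (400 * D * A) := h9
    _ = 200000 * (ρ * D * A) := by ring
    _ ≤ 200000 * (ρ * D * (2 * (1 - ρ))) := mul_le_mul_of_nonneg_left h10 (by norm_num)
    _ = 400000 * ρ * (1 - ρ) * D := by ring

end Pool.Agent.MultS.SG

end

section

/-!
# The profile of a univalent function on a radius
-/

set_option autoImplicit false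

open Complex Metric Set Filter Topology MeasureTheory
open scoped ENNReal ComplexConjugate

namespace Pool.Agent.MultS.SG

namespace ProfAux

theorem conj_mul_self_one {z : ℂ} (hz : ‖z‖ = 1) : conj z * z = 1 := by
  rw [mul_comm, Complex.mul_conj, Complex.normSq_eq_norm_sq, hz]
  norm_num

/-- the function `pp` -/
theorem pp_nonneg (s : ℝ) : 0 ≤ pp s := Real.sqrt_nonneg _

theorem max_mul_pp {v u : ℝ} (hv : 0 < v) (hu : 0 < u) : max v u * pp (v / u) = √(v * u) := by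
  unfold pp
  rw [one_div_div]
  rcases le_total v u with h | h
  · have h1 : v / u ≤ 1 := (div_le_one hu).2 h
    have h2 : 1 ≤ u / v := (one_le_div hv).2 h
    rw [max_eq_right h, min_eq_left (h1.trans h2)]
    have h3 : v * u = u ^ 2 * (v / u) := by
      field_simp
    rw [h3, Real.sqrt_mul (sq_nonneg u), Real.sqrt_sq hu.le]
  · have h1 : u / v ≤ 1 := (div_le_one hv).2 h
    have h2 : 1 ≤ v / u := (one_le_div hu).2 h
    rw [max_eq_left h, min_eq_right (h1.trans h2)]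
    have h3 : v * u = v ^ 2 * (u / v) := by
      field_simp
    rw [h3, Real.sqrt_mul (sq_nonneg v), Real.sqrt_sq hv.le]

theorem pp_half {v u : ℝ} (hv : 0 < v) (hu : 0 < u) (h1 : u / 2 ≤ v) (h2 : v ≤ 2 * u) :
    1 / 2 ≤ pp (v / u) := by
  unfold pp
  rw [one_div_div]
  apply Real.le_sqrt_of_sq_le
  apply le_min
  · rw [le_div_iff₀ hu]
    linarith
  · rw [le_div_iff₀ hv]
    linarith

theorem real_ineq {Q Q0 D v u r d FY FBA S A1 A2 A3 A4 : ℝ} (hQ : 0 ≤ Q) (hQ0 : 0 < Q0)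
    (hD : 0 ≤ D) (hv : 0 < v) (hu : 0 < u) (hr : 0 < r) (hr1 : r < 1) (hd0 : 0 < d) (hd2 : d ≤ 2)
    (hFY : Q0 / 2 ≤ FY) (hFB0 : 0 ≤ FBA) (hFB : FBA ≤ 2 * Q0) (hS : (1 - r) * √(v * u) ≤ S)
    (h10 : 0 ≤ A1) (h20 : 0 ≤ A2) (h30 : 0 ≤ A3) (h40 : 0 ≤ A4) (h1 : A1 ≤ v) (h2 : A2 ≤ 2 * d)
    (h3 : A3 ≤ 3 * d) (h4 : A4 ≤ 2 * u) (hfar : max v u / 2 ≤ |v - u|)
    (hmain : Q * FY * (|v - u| * (r * d) * S) ≤ FBA * D * (A1 * A2 * A3 * A4)) :
    Q * (r * (1 - r)) ≤ 192 * D * pp (v / u) := by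
  have hs0 : 0 < √(v * u) := Real.sqrt_pos.2 (mul_pos hv hu)
  have hss : √(v * u) * √(v * u) = v * u := Real.mul_self_sqrt (mul_pos hv hu).le
  have hm := max_mul_pp hv hu
  have hp0 := pp_nonneg (v / u)
  have hm0 : 0 < max v u := lt_max_of_lt_left hv
  set s := √(v * u) with hs
  set m := max v u with hmd
  set p := pp (v / u) with hp
  have hr1' : 0 < 1 - r := by linarith
  -- lower bound of the left side
  have e1 : Q * (Q0 / 2) * (m / 2 * (r * d) * ((1 - r) * s)) ≤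
      Q * FY * (|v - u| * (r * d) * S) := by
    have f1 : Q * (Q0 / 2) ≤ Q * FY := mul_le_mul_of_nonneg_left hFY hQ
    have f2 : m / 2 * (r * d) ≤ |v - u| * (r * d) :=
      mul_le_mul_of_nonneg_right hfar (by positivity)
    have f3 : m / 2 * (r * d) * ((1 - r) * s) ≤ |v - u| * (r * d) * S :=
      mul_le_mul f2 hS (by positivity) (by positivity)
    exact mul_le_mul f1 f3 (by positivity) (mul_nonneg hQ (by linarith))
  have e2 : FBA * D * (A1 * A2 * A3 * A4) ≤ 2 * Q0 * D * (v * (2 * d) * (3 * d) * (2 * u)) := by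
    have f1 : A1 * A2 ≤ v * (2 * d) := mul_le_mul h1 h2 h20 hv.le
    have f2 : A1 * A2 * A3 ≤ v * (2 * d) * (3 * d) := mul_le_mul f1 h3 h30 (by positivity)
    have f3 : A1 * A2 * A3 * A4 ≤ v * (2 * d) * (3 * d) * (2 * u) :=
      mul_le_mul f2 h4 h40 (by positivity)
    have f4 : FBA * D ≤ 2 * Q0 * D := mul_le_mul_of_nonneg_right hFB hD
    exact mul_le_mul f4 f3 (by positivity) (by positivity)
  have e3 := (e1.trans hmain).trans e2
  have e4 : (Q0 * d * s / 4 * m) * (Q * (r * (1 - r))) ≤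
      (Q0 * d * s / 4 * m) * (96 * D * d * p) := by
    calc (Q0 * d * s / 4 * m) * (Q * (r * (1 - r)))
        = Q * (Q0 / 2) * (m / 2 * (r * d) * ((1 - r) * s)) := by ring
      _ ≤ 2 * Q0 * D * (v * (2 * d) * (3 * d) * (2 * u)) := e3
      _ = 24 * Q0 * D * d ^ 2 * (s * s) := by rw [hss]; ring
      _ = 24 * Q0 * D * d ^ 2 * (s * (m * p)) := by rw [← hm]
      _ = (Q0 * d * s / 4 * m) * (96 * D * d * p) := by ring
  have e5 : Q * (r * (1 - r)) ≤ 96 * D * d * p :=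
    le_of_mul_le_mul_left e4 (by positivity)
  have e6 : 96 * D * d * p ≤ 96 * D * 2 * p := by
    have : 96 * D * d ≤ 96 * D * 2 := mul_le_mul_of_nonneg_left hd2 (by positivity)
    exact mul_le_mul_of_nonneg_right this hp0
  linarith

end ProfAux

open ProfAux in
theorem prf_Prof (h1 : Four) (h2 : BigQ) : Prof := by
  intro f hf r z w hr hr1 hz hw
  have nr : ∀ (ρ : ℝ) (u : ℂ), 0 ≤ ρ → ‖u‖ = 1 → ‖(ρ : ℂ) * u‖ = ρ := by
    intro ρ u hρ hu
    rw [norm_mul, hu, mul_one, Complex.norm_real, Real.norm_of_nonneg hρ]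
  have br : ∀ (ρ : ℝ) (u : ℂ), 0 ≤ ρ → ρ ≤ r → ‖u‖ = 1 → (ρ : ℂ) * u ∈ ball (0 : ℂ) 1 := by
    intro ρ u hρ hρr hu
    rw [mem_ball_zero_iff, nr ρ u hρ hu]
    linarith
  have hzz := conj_mul_self_one hz
  have hww := conj_mul_self_one hw
  set d := ‖z - w‖ with hd
  have hd2 : d ≤ 2 := by
    have := norm_sub_le z w
    rw [hz, hw] at this
    linarith
  set D := ‖f (r * z) - f (r * w)‖ with hD
  have hD0 : 0 ≤ D := norm_nonneg _
  -- the compact set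
  set K : Set ℝ := Icc 0 r ∩ Ici (1 - d) with hK
  have hKc : IsCompact K := isCompact_Icc.inter_right isClosed_Ici
  rcases K.eq_empty_or_nonempty with hKe | hKn
  · refine ⟨1, one_pos, ?_⟩
    intro ρ hρ hρr hρd
    have : ρ ∈ K := ⟨⟨hρ, hρr⟩, by rw [mem_Ici]; linarith⟩
    rw [hKe] at this
    exact absurd this (notMem_empty _)
  have hQc : ContinuousOn (fun ρ : ℝ => ‖f (ρ * z) - f (r * z)‖) K := by
    apply ContinuousOn.norm
    apply ContinuousOn.sub _ continuousOn_const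
    have hc : ContinuousOn (fun ρ : ℝ => (ρ : ℂ) * z) K :=
      (Complex.continuous_ofReal.mul continuous_const).continuousOn
    exact hf.1.continuousOn.comp hc fun ρ hρ => br ρ z hρ.1.1 hρ.1.2 hz
  obtain ⟨ρ₀, hρ₀, hmax⟩ := hKc.exists_isMaxOn hKn hQc
  obtain ⟨⟨hρ₀0, hρ₀r⟩, hρ₀d⟩ := hρ₀
  rw [mem_Ici] at hρ₀d
  have hv₀ : 0 < 1 - ρ₀ := by linarith
  have hd0 : 0 < d := by linarith
  refine ⟨1 - ρ₀, hv₀, ?_⟩
  intro ρ hρ hρr hρd
  have hv : 0 < 1 - ρ := by linarith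
  have hρK : ρ ∈ K := ⟨⟨hρ, hρr⟩, by rw [mem_Ici]; linarith⟩
  have hQQ : ‖f (ρ * z) - f (r * z)‖ ≤ ‖f (ρ₀ * z) - f (r * z)‖ := hmax hρK
  set Q := ‖f (ρ * z) - f (r * z)‖ with hQ
  set Q0 := ‖f (ρ₀ * z) - f (r * z)‖ with hQ0
  have hQ0' : 0 ≤ Q := norm_nonneg _
  have hpp := pp_nonneg ((1 - ρ) / (1 - ρ₀))
  have hr1' : 0 < 1 - r := by linarith
  rcases le_or_gt Q0 (2 * D) with hcase | hcase
  · have e1 : Q * (r * (1 - r)) ≤ 2 * D * (1 - ρ) := by
      have f1 : r * (1 - r) ≤ 1 * (1 - ρ) :=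
        mul_le_mul hr1.le (by linarith) hr1'.le (by norm_num)
      rw [one_mul] at f1
      exact mul_le_mul (hQQ.trans hcase) f1 (by positivity) (by positivity)
    have e2 : 0 ≤ D * pp ((1 - ρ) / (1 - ρ₀)) := mul_nonneg hD0 hpp
    have e3 : 0 ≤ D * (1 - ρ) := mul_nonneg hD0 hv.le
    nlinarith
  have hQ0p : 0 < Q0 := by linarith
  have hfin : Q * (r * (1 - r)) ≤ 192 * D * pp ((1 - ρ) / (1 - ρ₀)) → Q * (r * (1 - r)) ≤
      192 * D * (pp ((1 - ρ) / (1 - ρ₀)) + (1 - ρ)) := by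
    intro h
    have e3 : 0 ≤ D * (1 - ρ) := mul_nonneg hD0 hv.le
    nlinarith
  apply hfin
  by_cases hnear : (1 - ρ₀) / 2 ≤ 1 - ρ ∧ 1 - ρ ≤ 2 * (1 - ρ₀)
  · have e1 := h2 f hf r ρ z w hr hr1 hρ hρr hz hw hρd
    have e2 := pp_half hv hv₀ hnear.1 hnear.2
    have e3 : 36 * d * D ≤ 36 * 2 * D :=
      mul_le_mul_of_nonneg_right (by linarith) hD0
    have e4 : D * (1 / 2) ≤ D * pp ((1 - ρ) / (1 - ρ₀)) := mul_le_mul_of_nonneg_left e2 hD0
    nlinarith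
  have hfar : max (1 - ρ) (1 - ρ₀) / 2 ≤ |(1 - ρ) - (1 - ρ₀)| := by
    rw [not_and_or, not_le, not_le] at hnear
    rcases hnear with h | h
    · rw [max_eq_right (by linarith), abs_sub_comm]
      refine le_trans ?_ (le_abs_self _)
      linarith
    · rw [max_eq_left (by linarith)]
      refine le_trans ?_ (le_abs_self _)
      linarith
  -- the four point inequality
  have t := h1 f hf ((ρ₀ : ℂ) * z) (br ρ₀ z hρ₀0 hρ₀r hz) ((ρ : ℂ) * z) (br ρ z hρ hρr hz)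
    ((r : ℂ) * z) (br r z hr.le le_rfl hz) ((r : ℂ) * w) (br r w hr.le le_rfl hw)
  have nba : ‖(ρ : ℂ) * z - ρ₀ * z‖ = |(1 - ρ) - (1 - ρ₀)| := by
    rw [← sub_mul, norm_mul, hz, mul_one, ← Complex.ofReal_sub, Complex.norm_real,
      Real.norm_eq_abs, ← abs_neg]
    congr 1
    ring
  have nxy : ‖(r : ℂ) * z - r * w‖ = r * d := by
    rw [← mul_sub, norm_mul, Complex.norm_real, Real.norm_of_nonneg hr.le]
  have nbx : ‖(ρ : ℂ) * z - r * z‖ = r - ρ := by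
    rw [norm_sub_rev, ← sub_mul, norm_mul, hz, mul_one, ← Complex.ofReal_sub, Complex.norm_real,
      Real.norm_of_nonneg (by linarith)]
  have nya : ‖(r : ℂ) * w - ρ₀ * z‖ ≤ 2 * d := by
    have e1 : (r : ℂ) * w - ρ₀ * z = (r : ℂ) * (w - z) + ((r - ρ₀ : ℝ) : ℂ) * z := by
      push_cast
      ring
    rw [e1]
    refine (norm_add_le _ _).trans ?_
    rw [norm_mul, norm_mul, Complex.norm_real, Complex.norm_real, Real.norm_of_nonneg hr.le,
      Real.norm_of_nonneg (by linarith : 0 ≤ r - ρ₀), hz, mul_one, norm_sub_rev, ← hd]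
    have : r * d ≤ 1 * d := mul_le_mul_of_nonneg_right hr1.le hd0.le
    linarith
  have nyb : ‖1 - conj ((r : ℂ) * w) * (ρ * z)‖ ≤ 3 * d := by
    have e1 : 1 - conj ((r : ℂ) * w) * (ρ * z) =
        ((1 - r * ρ : ℝ) : ℂ) + ((r * ρ : ℝ) : ℂ) * (conj w * (w - z)) := by
      rw [map_mul, Complex.conj_ofReal]
      push_cast
      linear_combination (-(r * ρ) : ℂ) * hww
    rw [e1]
    refine (norm_add_le _ _).trans ?_
    have h1' : 0 ≤ 1 - r * ρ := by nlinarith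
    have h2' : 0 ≤ r * ρ := by positivity
    have h3' : r * ρ ≤ 1 := by linarith
    rw [norm_mul, norm_mul, Complex.norm_real, Complex.norm_real, Real.norm_of_nonneg h1',
      Real.norm_of_nonneg h2', Complex.norm_conj, hw, one_mul, norm_sub_rev, ← hd]
    have e2 : r * ρ * d ≤ 1 * d := mul_le_mul_of_nonneg_right h3' hd0.le
    have e3 : 1 - r * ρ ≤ 2 * (1 - ρ) := by nlinarith
    linarith
  have nax : ‖1 - conj ((ρ₀ : ℂ) * z) * (r * z)‖ = 1 - r * ρ₀ := by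
    have e1 : conj ((ρ₀ : ℂ) * z) * (r * z) = ((r * ρ₀ : ℝ) : ℂ) := by
      rw [map_mul, Complex.conj_ofReal]
      push_cast
      linear_combination (r * ρ₀ : ℂ) * hzz
    rw [e1, ← Complex.ofReal_one, ← Complex.ofReal_sub, Complex.norm_real,
      Real.norm_of_nonneg (by nlinarith)]
  have hax : 1 - r * ρ₀ ≤ 2 * (1 - ρ₀) := by nlinarith
  have hax0 : 0 ≤ 1 - r * ρ₀ := by nlinarith
  rw [nr ρ z hρ hz, nr ρ₀ z hρ₀0 hz, nr r z hr.le hz, nr r w hr.le hw, nba, nxy, nbx, nax] at t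
  have hFY : Q0 / 2 ≤ ‖f (r * w) - f (ρ₀ * z)‖ := by
    have e1 : Q0 ≤ ‖f (ρ₀ * z) - f (r * w)‖ + ‖f (r * w) - f (r * z)‖ := by
      rw [hQ0]
      exact norm_sub_le_norm_sub_add_norm_sub _ _ _
    rw [norm_sub_rev (f (ρ₀ * z)) (f (r * w)), norm_sub_rev (f (r * w)) (f (r * z)), ← hD] at e1
    linarith
  have hFB : ‖f (ρ * z) - f (ρ₀ * z)‖ ≤ 2 * Q0 := by
    have e1 : ‖f (ρ * z) - f (ρ₀ * z)‖ ≤ ‖f (ρ * z) - f (r * z)‖ + ‖f (r * z) - f (ρ₀ * z)‖ :=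
      norm_sub_le_norm_sub_add_norm_sub _ _ _
    rw [norm_sub_rev (f (r * z)) (f (ρ₀ * z)), ← hQ, ← hQ0] at e1
    linarith
  have hS : (1 - r) * √((1 - ρ) * (1 - ρ₀)) ≤
      √((1 - ρ₀ ^ 2) * (1 - ρ ^ 2) * (1 - r ^ 2) * (1 - r ^ 2)) := by
    have e1 : (1 - r) * √((1 - ρ) * (1 - ρ₀)) =
        √((1 - ρ₀) * (1 - ρ) * (1 - r) * (1 - r)) := by
      have e2 : (1 - ρ₀) * (1 - ρ) * (1 - r) * (1 - r) = (1 - r) ^ 2 * ((1 - ρ) * (1 - ρ₀)) := by
        ring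
      rw [e2, Real.sqrt_mul (sq_nonneg _), Real.sqrt_sq hr1'.le]
    rw [e1]
    apply Real.sqrt_le_sqrt
    have g1 : 1 - ρ₀ ≤ 1 - ρ₀ ^ 2 := by nlinarith
    have g2 : 1 - ρ ≤ 1 - ρ ^ 2 := by nlinarith
    have g3 : 1 - r ≤ 1 - r ^ 2 := by nlinarith
    have g4 : (1 - ρ₀) * (1 - ρ) ≤ (1 - ρ₀ ^ 2) * (1 - ρ ^ 2) :=
      mul_le_mul g1 g2 hv.le (by linarith)
    have g5 : (1 - ρ₀) * (1 - ρ) * (1 - r) ≤ (1 - ρ₀ ^ 2) * (1 - ρ ^ 2) * (1 - r ^ 2) :=
      mul_le_mul g4 g3 hr1'.le (by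
        have := mul_pos hv₀ hv
        linarith)
    refine mul_le_mul g5 g3 hr1'.le ?_
    have := mul_pos (mul_pos hv₀ hv) hr1'
    linarith
  exact real_ineq hQ0' hQ0p hD0 hv hv₀ hr hr1 hd0 hd2 hFY (norm_nonneg _) hFB hS (by linarith)
    (norm_nonneg _) (norm_nonneg _) hax0 (by linarith) nya nyb hax hfar t

end Pool.Agent.MultS.SG

end

section

/-!
# MP_b17785_an, block SG: item Pt
-/

set_option autoImplicit false

open Complex Metric Set Filter Topology MeasureTheory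
open scoped ENNReal ComplexConjugate

namespace Pool.Agent.MultS.SG

namespace PtAux

theorem pp_nonneg (s : ℝ) : 0 ≤ pp s := Real.sqrt_nonneg _

theorem arith {D A B E a b r ρ : ℝ} (hD : 0 ≤ D) (ha : 0 ≤ a) (hb : 0 ≤ b) (hr0 : 0 < r)
    (hr1 : r < 1) (hρr : ρ ≤ r) (hρ : 1 / 2 ≤ ρ)
    (h1 : A * (r * (1 - r)) ≤ 192 * D * (a + (1 - ρ)))
    (h2 : B * (r * (1 - r)) ≤ 192 * D * (b + (1 - ρ)))
    (hE : E ≤ A + D + B) :
    E * (r * (1 - r)) ≤ 400000 * ρ * D * ((1 - ρ) + a + b) := by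
  have hrr : 0 ≤ r * (1 - r) := mul_nonneg hr0.le (by linarith)
  have hrr2 : r * (1 - r) ≤ 1 - ρ := by nlinarith
  have h3 : E * (r * (1 - r)) ≤ (A + D + B) * (r * (1 - r)) := mul_le_mul_of_nonneg_right hE hrr
  have h4 : D * (r * (1 - r)) ≤ D * (1 - ρ) := mul_le_mul_of_nonneg_left hrr2 hD
  have h5 : E * (r * (1 - r)) ≤ D * (385 * (1 - ρ) + 192 * a + 192 * b) := by
    nlinarith
  have h6 : D * (385 * (1 - ρ) + 192 * a + 192 * b) ≤ 385 * (D * ((1 - ρ) + a + b)) := by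
    nlinarith [mul_nonneg hD ha, mul_nonneg hD hb]
  have h7 : 0 ≤ D * ((1 - ρ) + a + b) := mul_nonneg hD (by linarith)
  have h8 : 385 * (D * ((1 - ρ) + a + b)) ≤ 400000 * ρ * (D * ((1 - ρ) + a + b)) := by
    apply mul_le_mul_of_nonneg_right _ h7
    linarith
  calc E * (r * (1 - r)) ≤ _ := h5
    _ ≤ _ := h6
    _ ≤ _ := h8
    _ = _ := by ring

end PtAux

theorem prf_Pt (h1 : Near) (h2 : Prof) : Pt := by
  intro f hf r z w hr0 hr1 hz hw
  obtain ⟨v₁, hv₁, H1⟩ := h2 f hf r z w hr0 hr1 hz hw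
  obtain ⟨v₂, hv₂, H2⟩ := h2 f hf r w z hr0 hr1 hw hz
  refine ⟨v₁, v₂, hv₁, hv₂, ?_⟩
  intro ρ hρ0 hρr
  have hD : 0 ≤ ‖f (r * z) - f (r * w)‖ := norm_nonneg _
  rcases le_or_gt ‖z - w‖ (4 * (1 - ρ)) with hc | hc
  · refine (h1 f hf r ρ z w hr0 hr1 hρ0 hρr hz hw hc).trans ?_
    have e1 : 0 ≤ pp ((1 - ρ) / v₁) := PtAux.pp_nonneg _
    have e2 : 0 ≤ pp ((1 - ρ) / v₂) := PtAux.pp_nonneg _
    have e3 : 0 ≤ 400000 * ρ * ‖f (r * z) - f (r * w)‖ := by positivity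
    calc 400000 * ρ * (1 - ρ) * ‖f (r * z) - f (r * w)‖
        = 400000 * ρ * ‖f (r * z) - f (r * w)‖ * (1 - ρ) := by ring
      _ ≤ _ := mul_le_mul_of_nonneg_left (by linarith) e3
  · have h3 : ‖z - w‖ ≤ 2 := by
      calc ‖z - w‖ ≤ ‖z‖ + ‖w‖ := norm_sub_le _ _
        _ = 2 := by rw [hz, hw]; norm_num
    have h4 : 1 - ρ ≤ ‖z - w‖ := by linarith
    have h5 : 1 - ρ ≤ ‖w - z‖ := by rw [norm_sub_rev]; exact h4
    have K1 := H1 ρ hρ0 hρr h4
    have K2 := H2 ρ hρ0 hρr h5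
    rw [norm_sub_rev (f (r * w)) (f (r * z))] at K2
    refine PtAux.arith hD (PtAux.pp_nonneg _) (PtAux.pp_nonneg _) hr0 hr1 hρr (by linarith)
      K1 K2 ?_
    have e : f (ρ * z) - f (ρ * w) = (f (ρ * z) - f (r * z)) + (f (r * z) - f (r * w)) +
        -(f (ρ * w) - f (r * w)) := by ring
    rw [e]
    refine (norm_add₃_le).trans ?_
    rw [norm_neg]

end Pool.Agent.MultS.SG

end

section

set_option autoImplicit false

/-! Item `Rad`: semigroups from averages of dilations. -/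

open Complex Metric Set Filter Topology MeasureTheory
open scoped ENNReal ComplexConjugate

namespace Pool.Agent.MultS.SG

namespace RadAux

lemma exp_le (x : ℝ) (h0 : 0 ≤ x) (h1 : x ≤ 1) : x / 2 ≤ 1 - Real.exp (-x) := by
  have h2 : 1 + x ≤ Real.exp x := by linarith [Real.add_one_le_exp x]
  have h3 : Real.exp (-x) ≤ 1 / (1 + x) := by
    rw [Real.exp_neg, ← one_div]
    exact one_div_le_one_div_of_le (by linarith) h2
  have h4 : 1 / (1 + x) ≤ 1 - x / 2 := by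
    rw [div_le_iff₀ (by linarith)]
    nlinarith
  linarith

lemma Dat.mono {m : Measure ℝ} {g : ℝ → ℂ} {r M M' : ℝ} (h : Dat m g r M) (hM : M ≤ M') :
    Dat m g r M' :=
  ⟨h.meas, h.supp, fun v hv => (h.shell v hv).trans (ENNReal.ofReal_le_ofReal hM)⟩

lemma expslope (a : ℝ) (k : ℕ) :
    Tendsto (fun h : ℝ => (((Real.exp (-(a * h)) : ℝ) : ℂ) ^ k - 1) / (h : ℂ)) (𝓝[>] 0)
      (𝓝 (-(a * (k : ℂ)))) := by
  have h1 : HasDerivAt (fun h : ℝ => Real.exp (-(a * h))) (-a) 0 := by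
    have h2 : HasDerivAt (fun h : ℝ => -(a * h)) (-a) 0 := by
      have h5 := (hasDerivAt_id (0 : ℝ)).const_mul (-a)
      simp only [mul_one] at h5
      exact h5.congr_of_eventuallyEq (Eventually.of_forall fun x => by simp)
    simpa using h2.exp
  have h3 := (h1.ofReal_comp).pow k
  have h4 := (hasDerivAt_iff_tendsto_slope_zero.1 h3).mono_left
    (nhdsWithin_mono (0 : ℝ) (fun x (hx : 0 < x) => (ne_of_gt hx : x ≠ 0)))
  refine Tendsto.congr' ?_ (h4.trans (le_of_eq ?_))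
  · filter_upwards [self_mem_nhdsWithin] with h _
    simp only [Pi.pow_apply, zero_add, mul_zero, neg_zero, Real.exp_zero, Complex.ofReal_one,
      one_pow, real_smul, Complex.ofReal_inv]
    rw [div_eq_inv_mul]
  · congr 1
    simp
    ring

end RadAux

open RadAux in
theorem prf_Rad (h1 : Step) (h2 : Trun) (h3 : Gen') : Rad := by
  obtain ⟨c, hc, hstep⟩ := h1
  refine ⟨c / 2, by positivity, fun m g a ha hD => ?_⟩
  refine h3 (fun n => a * ((n - 1 : ℕ) : ℂ) + ∫ ρ, (1 - (ρ : ℂ) ^ (n - 1)) * g ρ ∂m)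
    fun t ht => ?_
  obtain ⟨hT1, hT2⟩ := h2 m g (c / 2 * a) a (by positivity) ha hD
  set G : ℝ → ℝ → ℂ := fun h ρ => if ρ ≤ Real.exp (-(a * h)) then (h : ℂ) * g ρ else 0 with hG
  let K : ℝ → ℕ → ℂ := fun h n =>
    (((Real.exp (-(a * h)) : ℝ) : ℂ) ^ (n - 1) + mom m (G h) (n - 1)) / (1 + mom m (G h) 0)
  have hh : Tendsto (fun N : ℕ => t / (N : ℝ)) atTop (𝓝[>] 0) := by
    refine tendsto_nhdsWithin_iff.2 ⟨tendsto_const_div_atTop_nhds_zero_nat t, ?_⟩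
    filter_upwards [eventually_gt_atTop 0] with N hN
    have : (0 : ℝ) < N := by exact_mod_cast hN
    exact mem_Ioi.2 (by positivity)
  refine ⟨fun N => K (t / N), ?_, fun n hn => ?_⟩
  · have hsmall : ∀ᶠ h : ℝ in 𝓝[>] 0, 0 < h ∧ a * h ≤ 1 := by
      have : Iio (1 / a) ∈ 𝓝 (0 : ℝ) := Iio_mem_nhds (by positivity)
      filter_upwards [self_mem_nhdsWithin, mem_nhdsWithin_of_mem_nhds this] with h hp hl
      refine ⟨hp, ?_⟩
      have : h < 1 / a := hl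
      rw [lt_div_iff₀ ha] at this
      linarith
    filter_upwards [hh.eventually hsmall] with N hN
    obtain ⟨hp, hl⟩ := hN
    have hr1 : Real.exp (-(a * (t / N))) < 1 := by
      rw [Real.exp_lt_one_iff]
      nlinarith [mul_pos ha hp]
    have hd := hT1 (Real.exp (-(a * (t / N)))) (Real.exp_pos _) hr1 (t / N) hp.le
    refine (hstep m _ _ (Real.exp_pos _) hr1 (Dat.mono hd ?_)).2
    have := exp_le (a * (t / N)) (mul_pos ha hp).le hl
    nlinarith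
  · obtain ⟨_, _, hlim⟩ := hT2 (n - 1)
    have hlim0 := (hT2 0).2.1
    have hA : Tendsto (fun h : ℝ => (t : ℂ) *
        ((((Real.exp (-(a * h)) : ℝ) : ℂ) ^ (n - 1) - 1) / (h : ℂ) -
          (mom m (G h) 0 - mom m (G h) (n - 1)) / (h : ℂ)) / (1 + mom m (G h) 0)) (𝓝[>] 0)
        (𝓝 ((t : ℂ) * (-(a * ((n - 1 : ℕ) : ℂ)) - ∫ ρ, (1 - (ρ : ℂ) ^ (n - 1)) * g ρ ∂m) /
          (1 + 0))) := by
      refine Tendsto.div (((expslope a (n - 1)).sub hlim).const_mul _)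
        (tendsto_const_nhds.add hlim0) (by simp)
    have hB := hA.comp hh
    have hev : ∀ᶠ h : ℝ in 𝓝[>] 0, 1 + mom m (G h) 0 ≠ 0 := by
      have : Tendsto (fun h : ℝ => 1 + mom m (G h) 0) (𝓝[>] 0) (𝓝 (1 + 0)) :=
        tendsto_const_nhds.add hlim0
      exact this.eventually_ne (by simp)
    refine Tendsto.congr' ?_ (hB.trans (le_of_eq ?_))
    · filter_upwards [hh.eventually hev, hh.eventually self_mem_nhdsWithin,
        eventually_gt_atTop 0] with N hN hp hN0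
      have hN1 : (N : ℂ) ≠ 0 := by exact_mod_cast hN0.ne'
      have ht1 : (t : ℂ) ≠ 0 := by exact_mod_cast ht.ne'
      simp only [Function.comp_apply, K]
      push_cast
      field_simp
      ring
    · congr 1
      ring

end Pool.Agent.MultS.SG

end

section

set_option autoImplicit false

open Complex Metric Set Filter Topology MeasureTheory
open scoped ENNReal ComplexConjugate

namespace Pool.Agent.MultS.SG

namespace ShellAux

/-- integration over a countable family of sets with geometric bounds -/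
theorem cover (μ : Measure ℝ) (M : ℝ) (E : ℕ → Set ℝ) (hE : ∀ j, MeasurableSet (E j))
    (hμ : ∀ j, μ (E j) ≤ ENNReal.ofReal M) (h : ℝ → ℝ)
    (hb : ∀ j, ∀ ρ ∈ E j, h ρ ≤ (3 / 4 : ℝ) ^ j) :
    ∫⁻ ρ in ⋃ j, E j, ENNReal.ofReal (h ρ) ∂μ ≤ ENNReal.ofReal (4 * M) := by
  have hsum : HasSum (fun j : ℕ => (3 / 4 : ℝ) ^ j) 4 := by
    have := hasSum_geometric_of_lt_one (r := (3 / 4 : ℝ)) (by norm_num) (by norm_num)
    norm_num at this
    exact this
  calc ∫⁻ ρ in ⋃ j, E j, ENNReal.ofReal (h ρ) ∂μ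
      ≤ ∑' j, ∫⁻ ρ in E j, ENNReal.ofReal (h ρ) ∂μ := lintegral_iUnion_le _ _
    _ ≤ ∑' j : ℕ, ENNReal.ofReal ((3 / 4 : ℝ) ^ j) * ENNReal.ofReal M := by
        refine ENNReal.tsum_le_tsum fun j => ?_
        calc ∫⁻ ρ in E j, ENNReal.ofReal (h ρ) ∂μ
            ≤ ∫⁻ _ρ in E j, ENNReal.ofReal ((3 / 4 : ℝ) ^ j) ∂μ :=
              setLIntegral_mono' (hE j) fun ρ hρ => ENNReal.ofReal_le_ofReal (hb j ρ hρ)
          _ = ENNReal.ofReal ((3 / 4 : ℝ) ^ j) * μ (E j) := by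
              rw [lintegral_const, Measure.restrict_apply_univ]
          _ ≤ _ := by gcongr; exact hμ j
    _ = (∑' j : ℕ, ENNReal.ofReal ((3 / 4 : ℝ) ^ j)) * ENNReal.ofReal M := ENNReal.tsum_mul_right
    _ = ENNReal.ofReal 4 * ENNReal.ofReal M := by
        rw [← ENNReal.ofReal_tsum_of_nonneg (fun j => by positivity) hsum.summable, hsum.tsum_eq]
    _ = ENNReal.ofReal (4 * M) := by rw [← ENNReal.ofReal_mul (by norm_num)]

theorem half_le (j : ℕ) : (1 / 2 : ℝ) ^ j ≤ ((3 / 4 : ℝ) ^ j) ^ 2 := by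
  rw [← pow_mul, mul_comm, pow_mul]
  gcongr
  norm_num

theorem sqrt_le {s : ℝ} {j : ℕ} (h : s ≤ (1 / 2 : ℝ) ^ j) : √s ≤ (3 / 4 : ℝ) ^ j := by
  rw [← Real.sqrt_sq (show (0 : ℝ) ≤ (3 / 4 : ℝ) ^ j by positivity)]
  exact Real.sqrt_le_sqrt (h.trans (half_le j))

end ShellAux

open ShellAux in
theorem prf_Shell : Shell := by
  intro μ M hM hμ
  constructor
  · intro v₀ hv
    have h1 := cover μ M
      (fun j => Icc (1 - 2 * (v₀ * (1 / 2) ^ (j + 1))) (1 - v₀ * (1 / 2) ^ (j + 1)))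
      (fun j => measurableSet_Icc) (fun j => hμ _ (by positivity))
      (fun ρ => pp ((1 - ρ) / v₀)) (by
        intro j ρ hρ
        have h2 : (1 - ρ) / v₀ ≤ (1 / 2 : ℝ) ^ j := by
          rw [div_le_iff₀ hv]
          have := hρ.1
          rw [pow_succ] at this
          nlinarith
        exact sqrt_le ((min_le_left _ _).trans h2))
    have h2 := cover μ M
      (fun j => Icc (1 - 2 * (v₀ * 2 ^ j)) (1 - v₀ * 2 ^ j))
      (fun j => measurableSet_Icc) (fun j => hμ _ (by positivity))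
      (fun ρ => pp ((1 - ρ) / v₀)) (by
        intro j ρ hρ
        have h3 : 1 / ((1 - ρ) / v₀) ≤ (1 / 2 : ℝ) ^ j := by
          have h4 : (2 : ℝ) ^ j ≤ (1 - ρ) / v₀ := by
            rw [le_div_iff₀ hv]
            have := hρ.2
            nlinarith
          rw [one_div_pow]
          exact one_div_le_one_div_of_le (by positivity) h4
        exact sqrt_le ((min_le_right _ _).trans h3))
    calc ∫⁻ ρ in Ico (0 : ℝ) 1, ENNReal.ofReal (pp ((1 - ρ) / v₀)) ∂μ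
        ≤ ∫⁻ ρ in (⋃ j : ℕ, Icc (1 - 2 * (v₀ * (1 / 2) ^ (j + 1))) (1 - v₀ * (1 / 2) ^ (j + 1))) ∪
            ⋃ j : ℕ, Icc (1 - 2 * (v₀ * 2 ^ j)) (1 - v₀ * 2 ^ j),
            ENNReal.ofReal (pp ((1 - ρ) / v₀)) ∂μ := by
          refine lintegral_mono_set ?_
          intro ρ hρ
          have hs : 0 < (1 - ρ) / v₀ := div_pos (by linarith [hρ.2]) hv
          rcases le_total ((1 - ρ) / v₀) 1 with hle | hge
          · left
            obtain ⟨n, hn1, hn2⟩ := exists_nat_pow_near_of_lt_one hs hle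
              (show (0 : ℝ) < 1 / 2 by norm_num) (by norm_num)
            rw [lt_div_iff₀ hv] at hn1
            rw [div_le_iff₀ hv] at hn2
            refine mem_iUnion.2 ⟨n, ?_, ?_⟩
            · rw [pow_succ]
              nlinarith
            · nlinarith
          · right
            obtain ⟨n, hn1, hn2⟩ := exists_nat_pow_near hge (show (1 : ℝ) < 2 by norm_num)
            rw [le_div_iff₀ hv] at hn1
            rw [div_lt_iff₀ hv, pow_succ] at hn2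
            refine mem_iUnion.2 ⟨n, ?_, ?_⟩
            · nlinarith
            · nlinarith
      _ ≤ _ := lintegral_union_le _ _ _
      _ ≤ ENNReal.ofReal (4 * M) + ENNReal.ofReal (4 * M) := add_le_add h1 h2
      _ = ENNReal.ofReal (8 * M) := by
          rw [← ENNReal.ofReal_add (by positivity) (by positivity)]
          ring_nf
  · have h1 := cover μ M
      (fun j => Icc (1 - 2 * ((1 / 2) ^ (j + 1))) (1 - (1 / 2) ^ (j + 1)))
      (fun j => measurableSet_Icc) (fun j => hμ _ (by positivity))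
      (fun ρ => 1 - ρ) (by
        intro j ρ hρ
        have h2 : 1 - ρ ≤ (1 / 2 : ℝ) ^ j := by
          have := hρ.1
          rw [pow_succ] at this
          linarith
        have h3 : (1 / 2 : ℝ) ^ j ≤ (3 / 4 : ℝ) ^ j :=
          pow_le_pow_left₀ (by norm_num) (by norm_num) j
        exact h2.trans h3)
    calc ∫⁻ ρ in Ico (0 : ℝ) 1, ENNReal.ofReal (1 - ρ) ∂μ
        ≤ ∫⁻ ρ in (⋃ j : ℕ, Icc (1 - 2 * ((1 / 2) ^ (j + 1))) (1 - (1 / 2) ^ (j + 1))),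
            ENNReal.ofReal (1 - ρ) ∂μ := by
          refine lintegral_mono_set ?_
          intro ρ hρ
          obtain ⟨n, hn1, hn2⟩ := exists_nat_pow_near_of_lt_one
            (show (0 : ℝ) < 1 - ρ by linarith [hρ.2]) (show 1 - ρ ≤ 1 by linarith [hρ.1])
            (show (0 : ℝ) < 1 / 2 by norm_num) (by norm_num)
          refine mem_iUnion.2 ⟨n, ?_, ?_⟩
          · rw [pow_succ]
            linarith
          · linarith
      _ ≤ ENNReal.ofReal (4 * M) := h1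
      _ ≤ ENNReal.ofReal (8 * M) := ENNReal.ofReal_le_ofReal (by linarith)

end Pool.Agent.MultS.SG

end

section

/-!
# MP_b17785_an, block SG, item Step
-/

set_option autoImplicit false

open Complex Metric Set Filter Topology MeasureTheory
open scoped ENNReal ComplexConjugate

namespace Pool.Agent.MultS.SG

namespace StepAux

theorem tc_zero (f : ℂ → ℂ) : tc f 0 = f 0 := by simp [tc]

theorem tc_one (f : ℂ → ℂ) : tc f 1 = deriv f 0 := by simp [tc, iteratedDeriv_one]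

theorem sc_id : Sc (fun z : ℂ => z) :=
  ⟨differentiableOn_id, fun _ _ _ _ h => h, rfl, by simp⟩

theorem tc_id (h3 : PS) (n : ℕ) : tc (fun z : ℂ => z) n = if n = 1 then 1 else 0 := by
  refine (h3.2 (fun n => if n = 1 then 1 else 0) (fun z => z) ?_).2 n
  intro z _
  have h := hasSum_single (f := fun n : ℕ => (if n = 1 then (1 : ℂ) else 0) * z ^ n) 1 (by
    intro n hn
    simp [hn])
  simpa using h

theorem mom_bound (h1 : VBd) (h3 : PS) (m : Measure ℝ) (g : ℝ → ℂ) (r M : ℝ) (hr : 0 < r)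
    (hr1 : r < 1) (hM : 0 ≤ M) (hD : Dat m g r M) : ‖mom m g 0‖ * (1 - r) ≤ 10000000 * M := by
  obtain ⟨_, h2⟩ := h1 (fun z => z) sc_id m g r M hr hr1 hM hD
  obtain ⟨_, h4⟩ := h2 (1 / 2) (-(1 / 2)) (by norm_num) (by rw [norm_neg])
  have h5 : ∑' n : ℕ, mom m g n * tc (fun z : ℂ => z) (n + 1) *
      ((1 / 2 : ℂ) ^ (n + 1) - (-(1 / 2)) ^ (n + 1)) = mom m g 0 := by
    rw [tsum_eq_single 0]
    · rw [tc_id h3]
      norm_num
    · intro n hn
      rw [tc_id h3]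
      simp [hn]
  rw [h5] at h4
  have h6 : ‖(r : ℂ) * (1 / 2) - (r : ℂ) * (-(1 / 2))‖ = r := by
    have : (r : ℂ) * (1 / 2) - (r : ℂ) * (-(1 / 2)) = (r : ℂ) := by ring
    rw [this, Complex.norm_real, Real.norm_eq_abs, abs_of_pos hr]
  rw [h6] at h4
  have h7 : (‖mom m g 0‖ * (1 - r)) * r ≤ (10000000 * M) * r := by linarith
  exact le_of_mul_le_mul_right h7 hr

/-- shift of a power series without constant term -/
theorem shift {c : ℕ → ℂ} {z s : ℂ} (h0 : c 0 = 0)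
    (h : HasSum (fun n : ℕ => c n * z ^ n) s) : HasSum (fun n : ℕ => c (n + 1) * z ^ (n + 1)) s := by
  have h1 := (hasSum_nat_add_iff' (f := fun n : ℕ => c n * z ^ n) 1).2 h
  simpa [h0] using h1

theorem unshift {c : ℕ → ℂ} {z s : ℂ} (h0 : c 0 = 0)
    (h : HasSum (fun n : ℕ => c (n + 1) * z ^ (n + 1)) s) :
    HasSum (fun n : ℕ => c n * z ^ n) s := by
  refine (hasSum_nat_add_iff' (f := fun n : ℕ => c n * z ^ n) 1).1 ?_
  simpa [h0] using h

end StepAux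

open StepAux in
theorem prf_Step (h1 : VBd) (h2 : MaxP) (h3 : PS) : Step := by
  refine ⟨1 / 20000000, by norm_num, ?_⟩
  intro m g r hr hr1 hD
  have hM : (0 : ℝ) ≤ 1 / 20000000 * (1 - r) := by
    have : 0 < 1 - r := by linarith
    positivity
  have hm0 : ‖mom m g 0‖ ≤ 1 / 2 := by
    have h := mom_bound h1 h3 m g r _ hr hr1 hM hD
    have h' : ‖mom m g 0‖ * (1 - r) ≤ (1 / 2) * (1 - r) := by linarith
    exact le_of_mul_le_mul_right h' (by linarith)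
  have hq : 1 + mom m g 0 ≠ 0 := by
    intro h
    have h4 : mom m g 0 = -1 := by linear_combination h
    rw [h4, norm_neg, norm_one] at hm0
    norm_num at hm0
  refine ⟨hq, ?_⟩
  intro f hf
  have hr0 : (r : ℂ) ≠ 0 := by exact_mod_cast hr.ne'
  have hball : ∀ z : ℂ, z ∈ ball (0 : ℂ) 1 → (r : ℂ) * z ∈ ball (0 : ℂ) 1 := by
    intro z hz
    rw [mem_ball_zero_iff] at hz ⊢
    rw [norm_mul, Complex.norm_real, Real.norm_eq_abs, abs_of_pos hr]
    nlinarith [norm_nonneg z]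
  obtain ⟨hfd, hfi, hf0, hf1⟩ := hf
  have hf : Sc f := ⟨hfd, hfi, hf0, hf1⟩
  obtain ⟨_, hV⟩ := h1 f hf m g r _ hr hr1 hM hD
  set V : ℂ → ℂ := fun z => ∑' n : ℕ, mom m g n * tc f (n + 1) * z ^ (n + 1) with hVdef
  set A : ℂ → ℂ := fun z => f (r * z) / r with hAdef
  have hVs : ∀ z ∈ ball (0 : ℂ) 1,
      HasSum (fun n : ℕ => mom m g n * tc f (n + 1) * z ^ (n + 1)) (V z) := by
    intro z hz
    rw [mem_ball_zero_iff] at hz
    exact (hV z z hz rfl).1.hasSum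
  have hAs : ∀ z ∈ ball (0 : ℂ) 1,
      HasSum (fun n : ℕ => (r : ℂ) ^ n * tc f (n + 1) * z ^ (n + 1)) (A z) := by
    intro z hz
    have h := (h3.1 f hfd (r * z) (hball z hz)).2
    have h' := shift (by rw [tc_zero, hf0]) h
    have h'' := h'.div_const (r : ℂ)
    have e : (fun n : ℕ => (r : ℂ) ^ n * tc f (n + 1) * z ^ (n + 1)) =
        fun n : ℕ => tc f (n + 1) * (r * z) ^ (n + 1) / r := by
      ext n
      rw [mul_pow, pow_succ (r : ℂ) n]
      field_simp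
    rw [e]
    exact h''
  have hVd : DifferentiableOn ℂ V (ball 0 1) := by
    refine (h3.2 (fun n => if n = 0 then 0 else mom m g (n - 1) * tc f n) V ?_).1
    intro z hz
    refine unshift (by simp) ?_
    simpa using hVs z hz
  have hAd : DifferentiableOn ℂ A (ball 0 1) := by
    refine DifferentiableOn.div_const ?_ _
    exact hfd.comp (g := f) (f := fun z : ℂ => (r : ℂ) * z)
      ((differentiable_id.const_mul (r : ℂ)).differentiableOn) (fun z hz => hball z hz)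
  have hAi : InjOn A (ball 0 1) := by
    intro z hz w hw hzw
    have h4 : f (r * z) = f (r * w) := by
      have h5 : f (r * z) / r = f (r * w) / r := hzw
      field_simp at h5
      exact h5
    have h6 := hfi (hball z hz) (hball w hw) h4
    exact mul_left_cancel₀ hr0 h6
  have hVA := h2 A V (1 / 2) (by norm_num) hAd hVd hAi (by
    intro z w hz hw
    have h4 := (hV z w hz hw).2
    have h5 : ∑' n : ℕ, mom m g n * tc f (n + 1) * (z ^ (n + 1) - w ^ (n + 1)) = V z - V w := by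
      have hz' : z ∈ ball (0 : ℂ) 1 := by rwa [mem_ball_zero_iff]
      have hw' : w ∈ ball (0 : ℂ) 1 := by rwa [mem_ball_zero_iff, hw]
      have h6 := (hVs z hz').sub (hVs w hw')
      rw [← h6.tsum_eq]
      congr 1
      ext n
      ring
    rw [h5] at h4
    have h7 : ‖A z - A w‖ * r = ‖f (r * z) - f (r * w)‖ := by
      have h8 : f (r * z) - f (r * w) = (A z - A w) * r := by
        simp only [hAdef]
        field_simp
      rw [h8, norm_mul, Complex.norm_real, Real.norm_eq_abs, abs_of_pos hr]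
    rw [← h7] at h4
    have hpos : 0 < r * (1 - r) := mul_pos hr (by linarith)
    refine le_of_mul_le_mul_right ?_ hpos
    linarith)
  have hGs : ∀ z ∈ ball (0 : ℂ) 1, HasSum (fun n : ℕ =>
      (fun n => ((r : ℂ) ^ (n - 1) + mom m g (n - 1)) / (1 + mom m g 0)) (n + 1) *
        tc f (n + 1) * z ^ (n + 1)) ((A z + V z) / (1 + mom m g 0)) := by
    intro z hz
    have h := ((hAs z hz).add (hVs z hz)).div_const (1 + mom m g 0)
    have e : (fun n : ℕ => (fun n => ((r : ℂ) ^ (n - 1) + mom m g (n - 1)) / (1 + mom m g 0)) (n + 1) *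
        tc f (n + 1) * z ^ (n + 1)) = fun n : ℕ => ((r : ℂ) ^ n * tc f (n + 1) * z ^ (n + 1) +
          mom m g n * tc f (n + 1) * z ^ (n + 1)) / (1 + mom m g 0) := by
      ext n
      simp only [Nat.add_sub_cancel]
      ring
    rw [e]
    exact h
  have hG : ∀ z ∈ ball (0 : ℂ) 1, (∑' n : ℕ,
      (fun n => ((r : ℂ) ^ (n - 1) + mom m g (n - 1)) / (1 + mom m g 0)) (n + 1) *
        tc f (n + 1) * z ^ (n + 1)) = (A z + V z) / (1 + mom m g 0) :=
    fun z hz => (hGs z hz).tsum_eq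
  refine ⟨fun z hz => (hGs z hz).summable, ?_, ?_, ?_, ?_⟩
  · exact ((hAd.add hVd).div_const _).congr hG
  · intro z hz w hw hzw
    simp only at hzw
    have h4 := hG z hz
    have h5 := hG w hw
    simp only at h4 h5
    rw [h4, h5] at hzw
    have h6 : A z + V z = A w + V w := by
      field_simp at hzw
      exact hzw
    have h7 : V z - V w = -(A z - A w) := by linear_combination h6
    have h8 := hVA z hz w hw
    rw [h7, norm_neg] at h8
    have h9 : ‖A z - A w‖ = 0 := by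
      have := norm_nonneg (A z - A w)
      linarith
    exact hAi hz hw (sub_eq_zero.1 (norm_eq_zero.1 h9))
  · simp
  · rw [← tc_one]
    rw [(h3.2 (fun n => ((r : ℂ) ^ (n - 1) + mom m g (n - 1)) / (1 + mom m g 0) * tc f n) _ ?_).2 1]
    · simp only [Nat.sub_self, pow_zero]
      rw [tc_one, hf1, div_self hq, mul_one]
    · intro z hz
      refine unshift (by rw [tc_zero, hf0, mul_zero]) ?_
      have h4 := hGs z hz
      rw [← hG z hz] at h4
      exact h4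

end Pool.Agent.MultS.SG

end

section

/-!
# MP_b17785_an, block SG, item Tri: Goluzin's inequality for three points in the class `S`
-/

set_option autoImplicit false

open Complex Metric Set Filter Topology MeasureTheory
open scoped ENNReal ComplexConjugate

namespace Pool.Agent.MultS.SG

namespace TriAux

lemma dil_nice (f : ℂ → ℂ) (hf : Sc f) (ρ : ℝ) (h0 : 0 < ρ) (h1 : ρ < 1) :
    Gol.Nice (fun z => f (ρ * z) / ρ) (1 / ρ) := by
  obtain ⟨hd, hi, hf0, hf1⟩ := hf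
  have hρ : (ρ : ℂ) ≠ 0 := by exact_mod_cast h0.ne'
  have hmap : ∀ z ∈ ball (0 : ℂ) (1 / ρ), (ρ : ℂ) * z ∈ ball (0 : ℂ) 1 := by
    intro z hz
    rw [mem_ball_zero_iff, norm_mul, Complex.norm_real, Real.norm_of_nonneg h0.le]
    have : ‖z‖ < 1 / ρ := by simpa using hz
    rw [lt_div_iff₀ h0] at this
    linarith
  refine ⟨by rw [one_lt_div h0]; exact h1, ?_, ?_, ?_, ?_⟩
  · apply DifferentiableOn.div_const
    exact hd.comp (by fun_prop) hmap
  · intro z hz w hw h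
    simp only [] at h
    have h2 : f (ρ * z) = f (ρ * w) := by
      field_simp at h
      exact h
    have h3 := hi (hmap z hz) (hmap w hw) h2
    exact mul_left_cancel₀ hρ h3
  · simp [hf0]
  · have hd0 : HasDerivAt f 1 ((ρ : ℂ) * 0) := by
      rw [mul_zero, ← hf1]
      exact (hd.differentiableAt (isOpen_ball.mem_nhds (by simp))).hasDerivAt
    have h2 : HasDerivAt (fun z : ℂ => (ρ : ℂ) * z) ρ 0 := by
      simpa using (hasDerivAt_id (0 : ℂ)).const_mul (ρ : ℂ)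
    have h3 := (hd0.comp (0 : ℂ) h2).div_const (ρ : ℂ)
    have h4 : HasDerivAt (fun z : ℂ => f (ρ * z) / ρ) (1 * ρ / ρ) 0 := h3
    rw [h4.deriv]
    field_simp

/-- the norm of the relation -/
lemma rel_norm {a b c d e : ℂ} (ha : a ≠ 0) (hb : b ≠ 0) (hc : c ≠ 0) (hd : d ≠ 0)
    (h : 1 / a - 1 / b = (1 / c - 1 / d) * e) :
    ‖a - b‖ * (‖c‖ * ‖d‖) = ‖c - d‖ * (‖a‖ * ‖b‖) * ‖e‖ := by
  have h1 : (a - b) * (c * d) = (c - d) * (a * b) * e := by
    field_simp at h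
    linear_combination -h
  have h2 := congrArg norm h1
  simp only [norm_mul] at h2
  exact h2

lemma one_sub_ne {y z : ℂ} (hy : ‖y‖ < 1) (hz : ‖z‖ < 1) : 0 < ‖1 - conj y * z‖ := by
  rw [norm_pos_iff, sub_ne_zero]
  intro h
  have h1 := congrArg norm h
  rw [norm_one, norm_mul, Complex.norm_conj] at h1
  have h2 : ‖y‖ * ‖z‖ < 1 := by
    calc ‖y‖ * ‖z‖ ≤ 1 * ‖z‖ := mul_le_mul_of_nonneg_right hy.le (norm_nonneg _)
      _ < 1 := by rw [one_mul]; exact hz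
  linarith

lemma sq_pos' {x : ℂ} (hx : ‖x‖ < 1) : 0 < 1 - ‖x‖ ^ 2 := by
  have := norm_nonneg x
  nlinarith

/-- the inequality for nice functions -/
lemma nice_tri (h1 : Tri0) (h2 : Gol.PhiEx) (f : ℂ → ℂ) (P : ℝ) (hN : Gol.Nice f P)
    {x y z : ℂ} (hx0 : x ≠ 0) (hy0 : y ≠ 0) (hz0 : z ≠ 0) (hx : ‖x‖ < 1) (hy : ‖y‖ < 1)
    (hz : ‖z‖ < 1) :
    ‖f z - f x‖ * ‖f y‖ * ‖y - x‖ * ‖z‖ *
        √((1 - ‖x‖ ^ 2) * (1 - ‖y‖ ^ 2) * (1 - ‖z‖ ^ 2)) ≤
      ‖f y - f x‖ * ‖f z‖ * ‖z - x‖ * ‖y‖ * ‖1 - conj y * z‖ := by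
  have hN' := hN
  obtain ⟨hP, hd, hi, hf0, -⟩ := hN'
  have px : 0 < ‖x‖ := norm_pos_iff.2 hx0
  obtain ⟨φ, hφ, hφ0, hrel⟩ := h2 f P hN x px hx
  have hcore := h1 f P hN x px hx φ hφ hφ0 hrel y z hy hz
  have hmem : ∀ w : ℂ, ‖w‖ < 1 → w ∈ ball (0 : ℂ) P := fun w hw => by
    rw [mem_ball_zero_iff]; linarith
  have h0P : (0 : ℂ) ∈ ball (0 : ℂ) P := hmem 0 (by simp)
  have hne : ∀ w : ℂ, ‖w‖ < 1 → w ≠ 0 → f w ≠ 0 := fun w hw hw0 h =>
    hw0 (hi (hmem w hw) h0P (by rw [h, hf0]))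
  have ez := rel_norm (hne z hz hz0) (hne x hx hx0) hz0 hx0 (hrel z (hmem z hz) hz0)
  have ey := rel_norm (hne y hy hy0) (hne x hx hx0) hy0 hx0 (hrel y (hmem y hy) hy0)
  rw [Complex.norm_exp] at ez ey
  have qx := sq_pos' hx
  have qy := sq_pos' hy
  have qz := sq_pos' hz
  have pL := one_sub_ne hy hz
  set Q := (1 - ‖x‖ ^ 2) * (1 - ‖y‖ ^ 2) * (1 - ‖z‖ ^ 2) with hQ
  have pQ : 0 < Q := by positivity
  set L := ‖1 - conj y * z‖ with hL
  have key : Real.exp (φ z).re * √Q ≤ Real.exp (φ y).re * L := by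
    have e1 : √Q = Real.exp (Real.log Q / 2) := by
      rw [← Real.log_sqrt pQ.le, Real.exp_log (Real.sqrt_pos.2 pQ)]
    have e2 : L = Real.exp (Real.log L) := (Real.exp_log pL).symm
    have e3 : Real.log Q = Real.log (1 - ‖x‖ ^ 2) + Real.log (1 - ‖y‖ ^ 2) +
        Real.log (1 - ‖z‖ ^ 2) := by
      rw [hQ, Real.log_mul (by positivity) qz.ne', Real.log_mul qx.ne' qy.ne']
    rw [e1, e2, ← Real.exp_add, ← Real.exp_add, Real.exp_le_exp, e3]
    linarith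
  have pfx : 0 < ‖f x‖ := norm_pos_iff.2 (hne x hx hx0)
  have hmul : (‖f z - f x‖ * ‖f y‖ * ‖y - x‖ * ‖z‖ * √Q) * (‖x‖ * ‖f x‖) ≤
      (‖f y - f x‖ * ‖f z‖ * ‖z - x‖ * ‖y‖ * L) * (‖x‖ * ‖f x‖) := by
    have e1 : (‖f z - f x‖ * ‖f y‖ * ‖y - x‖ * ‖z‖ * √Q) * (‖x‖ * ‖f x‖) =
        (‖z - x‖ * ‖f z‖ * ‖f x‖ * ‖f x‖ * ‖f y‖ * ‖y - x‖) *
          (Real.exp (φ z).re * √Q) := by
      linear_combination (‖f y‖ * ‖y - x‖ * ‖f x‖ * √Q) * ez
    have e2 : (‖f y - f x‖ * ‖f z‖ * ‖z - x‖ * ‖y‖ * L) * (‖x‖ * ‖f x‖) =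
        (‖z - x‖ * ‖f z‖ * ‖f x‖ * ‖f x‖ * ‖f y‖ * ‖y - x‖) *
          (Real.exp (φ y).re * L) := by
      linear_combination (‖f z‖ * ‖z - x‖ * ‖f x‖ * L) * ey
    rw [e1, e2]
    exact mul_le_mul_of_nonneg_left key (by positivity)
  exact le_of_mul_le_mul_right hmul (by positivity)

/-- the elementary inequality -/
lemma sqrt_le_one_sub {y z : ℂ} (hy : ‖y‖ < 1) (hz : ‖z‖ < 1) :
    √((1 - ‖(0 : ℂ)‖ ^ 2) * (1 - ‖y‖ ^ 2) * (1 - ‖z‖ ^ 2)) ≤ ‖1 - conj y * z‖ := by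
  apply Real.sqrt_le_iff.2
  refine ⟨norm_nonneg _, ?_⟩
  rw [norm_zero, ← Complex.normSq_eq_norm_sq, ← Complex.normSq_eq_norm_sq,
    ← Complex.normSq_eq_norm_sq, Complex.normSq_apply, Complex.normSq_apply,
    Complex.normSq_apply]
  simp only [Complex.sub_re, Complex.sub_im, Complex.mul_re, Complex.mul_im, Complex.one_re,
    Complex.one_im, Complex.conj_re, Complex.conj_im]
  nlinarith [sq_nonneg (y.re - z.re), sq_nonneg (y.im - z.im)]

lemma tend (f : ℂ → ℂ) (hf : Sc f) {w : ℂ} (hw : w ∈ ball (0 : ℂ) 1) :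
    Tendsto (fun s : ℝ => f (s * w) / s) (𝓝[<] 1) (𝓝 (f w)) := by
  have t0 : Tendsto (fun s : ℝ => (s : ℂ)) (𝓝[<] 1) (𝓝 1) := by
    have : Tendsto (fun s : ℝ => (s : ℂ)) (𝓝 1) (𝓝 ((1 : ℝ) : ℂ)) :=
      Complex.continuous_ofReal.continuousAt
    rw [Complex.ofReal_one] at this
    exact this.mono_left nhdsWithin_le_nhds
  have t1 : Tendsto (fun s : ℝ => (s : ℂ) * w) (𝓝[<] 1) (𝓝 w) := by
    have := t0.mul_const w
    rwa [one_mul] at this
  have hc : ContinuousAt f w :=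
    (hf.1.differentiableAt (isOpen_ball.mem_nhds hw)).continuousAt
  have t2 : Tendsto (fun s : ℝ => f ((s : ℂ) * w)) (𝓝[<] 1) (𝓝 (f w)) := hc.tendsto.comp t1
  have := t2.div t0 one_ne_zero
  rwa [div_one] at this

end TriAux

open TriAux in
theorem prf_Tri (h1 : Tri0) (h2 : Gol.PhiEx) : Tri := by
  intro f hf x hx y hy z hz
  have hx' : ‖x‖ < 1 := mem_ball_zero_iff.1 hx
  have hy' : ‖y‖ < 1 := mem_ball_zero_iff.1 hy
  have hz' : ‖z‖ < 1 := mem_ball_zero_iff.1 hz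
  by_cases hy0 : y = 0
  · subst hy0
    rw [hf.2.2.1, norm_zero]
    simp
  by_cases hz0 : z = 0
  · subst hz0
    rw [hf.2.2.1, norm_zero]
    simp
  by_cases hx0 : x = 0
  · subst hx0
    rw [hf.2.2.1, sub_zero, sub_zero, sub_zero, sub_zero]
    have h3 := mul_le_mul_of_nonneg_left (sqrt_le_one_sub hy' hz')
      (by positivity : 0 ≤ ‖f z‖ * ‖f y‖ * ‖y‖ * ‖z‖)
    refine h3.trans (le_of_eq ?_)
    ring
  -- the limit
  have hz1 := tend f hf hz
  have hx1 := tend f hf hx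
  have hy1 := tend f hf hy
  have tl : Tendsto (fun s : ℝ => ‖f (s * z) / s - f (s * x) / s‖ * ‖f (s * y) / s‖ * ‖y - x‖ *
      ‖z‖ * √((1 - ‖x‖ ^ 2) * (1 - ‖y‖ ^ 2) * (1 - ‖z‖ ^ 2))) (𝓝[<] 1)
      (𝓝 (‖f z - f x‖ * ‖f y‖ * ‖y - x‖ * ‖z‖ *
        √((1 - ‖x‖ ^ 2) * (1 - ‖y‖ ^ 2) * (1 - ‖z‖ ^ 2)))) :=
    ((((hz1.sub hx1).norm.mul hy1.norm).mul_const _).mul_const _).mul_const _
  have tr : Tendsto (fun s : ℝ => ‖f (s * y) / s - f (s * x) / s‖ * ‖f (s * z) / s‖ * ‖z - x‖ *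
      ‖y‖ * ‖1 - conj y * z‖) (𝓝[<] 1)
      (𝓝 (‖f y - f x‖ * ‖f z‖ * ‖z - x‖ * ‖y‖ * ‖1 - conj y * z‖)) :=
    ((((hy1.sub hx1).norm.mul hz1.norm).mul_const _).mul_const _).mul_const _
  refine le_of_tendsto_of_tendsto tl tr ?_
  have t0 : Tendsto (fun ρ : ℝ => ρ) (𝓝[<] 1) (𝓝 1) := nhdsWithin_le_nhds
  filter_upwards [self_mem_nhdsWithin, t0.eventually_const_lt (by norm_num : (0 : ℝ) < 1)]
    with s hs1 hs0
  exact nice_tri h1 h2 _ _ (dil_nice f hf s hs0 hs1) hx0 hy0 hz0 hx' hy' hz'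

end Pool.Agent.MultS.SG

end

section

/-!
# MP_b17785_an, block SG, item Trun
-/

set_option autoImplicit false

open Complex Metric Set Filter Topology MeasureTheory
open scoped ENNReal ComplexConjugate

namespace Pool.Agent.MultS.SG

namespace TrunAux

/-- the truncated density -/
noncomputable def tg (g : ℝ → ℂ) (r h : ℝ) : ℝ → ℂ := fun ρ => if ρ ≤ r then (h : ℂ) * g ρ else 0

theorem tg_meas {m : Measure ℝ} {g : ℝ → ℂ} (hg : AEStronglyMeasurable g m) (r h : ℝ) :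
    AEStronglyMeasurable (tg g r h) m := by
  have h1 : tg g r h = indicator (Iic r) (fun ρ => (h : ℂ) * g ρ) := by
    ext ρ
    simp only [tg, indicator, mem_Iic]
  rw [h1]
  exact (hg.const_mul _).indicator measurableSet_Iic

theorem part1 {m : Measure ℝ} {g : ℝ → ℂ} {M : ℝ} (hD : DatO m g M) (r h : ℝ)
    (hh : 0 ≤ h) : Dat m (tg g r h) r (h * M) := by
  refine ⟨tg_meas hD.meas r h, ?_, ?_⟩
  · filter_upwards [hD.supp] with ρ hρ h1
    simp only [tg] at h1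
    split_ifs at h1 with h2
    · have h3 : g ρ ≠ 0 := right_ne_zero_of_mul h1
      exact ⟨(hρ h3).1, h2⟩
    · exact absurd rfl h1
  · intro v hv
    calc ∫⁻ ρ in Icc (1 - 2 * v) (1 - v), ‖tg g r h ρ‖ₑ ∂m
        ≤ ∫⁻ ρ in Icc (1 - 2 * v) (1 - v), ‖(h : ℂ)‖ₑ * ‖g ρ‖ₑ ∂m := by
          apply lintegral_mono
          intro ρ
          simp only [tg]
          split_ifs
          · rw [enorm_mul]
          · simp
      _ = ‖(h : ℂ)‖ₑ * ∫⁻ ρ in Icc (1 - 2 * v) (1 - v), ‖g ρ‖ₑ ∂m := by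
          rw [lintegral_const_mul' _ _ (by simp)]
      _ ≤ ‖(h : ℂ)‖ₑ * ENNReal.ofReal M := by
          gcongr
          exact hD.shell v hv
      _ = ENNReal.ofReal (h * M) := by
          rw [ENNReal.ofReal_mul hh]
          congr 1
          rw [← ofReal_norm, Complex.norm_real, Real.norm_eq_abs, abs_of_nonneg hh]

/-- `(1 - ρ) g` is integrable -/
theorem int1 (h1 : Shell) {m : Measure ℝ} {g : ℝ → ℂ} {M : ℝ} (hM : 0 ≤ M) (hD : DatO m g M) :
    Integrable (fun ρ : ℝ => ((1 - ρ : ℝ) : ℂ) * g ρ) m := by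
  have hmeas : AEStronglyMeasurable (fun ρ : ℝ => ((1 - ρ : ℝ) : ℂ) * g ρ) m := by
    refine AEStronglyMeasurable.mul ?_ hD.meas
    exact (by fun_prop : Continuous (fun ρ : ℝ => ((1 - ρ : ℝ) : ℂ))).aestronglyMeasurable
  refine ⟨hmeas, ?_⟩
  have hen : AEMeasurable (fun ρ => ‖g ρ‖ₑ) m := hD.meas.enorm
  have h2 := (h1 (m.withDensity (fun ρ => ‖g ρ‖ₑ)) M hM (by
    intro v hv
    rw [withDensity_apply _ measurableSet_Icc]
    exact hD.shell v hv)).2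
  rw [restrict_withDensity measurableSet_Ico,
    lintegral_withDensity_eq_lintegral_mul₀ hen.restrict (by fun_prop)] at h2
  rw [hasFiniteIntegral_iff_enorm]
  refine lt_of_le_of_lt ?_ (lt_of_le_of_lt h2 ENNReal.ofReal_lt_top)
  rw [← lintegral_indicator measurableSet_Ico]
  apply lintegral_mono_ae
  filter_upwards [hD.supp] with ρ hρ
  by_cases h3 : g ρ = 0
  · simp [h3]
  · have h4 := hρ h3
    rw [indicator_of_mem (by exact ⟨h4.1, h4.2⟩ : ρ ∈ Ico (0 : ℝ) 1)]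
    rw [enorm_mul, Pi.mul_apply, mul_comm]
    gcongr
    rw [← ofReal_norm, Complex.norm_real, Real.norm_eq_abs,
      abs_of_nonneg (by linarith [h4.2])]

theorem bern (ρ : ℝ) (h0 : 0 ≤ ρ) (h1 : ρ < 1) (n : ℕ) :
    ‖1 - (ρ : ℂ) ^ n‖ ≤ n * (1 - ρ) := by
  have h2 : (1 - (ρ : ℂ) ^ n) = ((1 - ρ ^ n : ℝ) : ℂ) := by push_cast; ring
  rw [h2, Complex.norm_real, Real.norm_eq_abs, abs_of_nonneg]
  · have h3 := one_add_mul_le_pow (a := ρ - 1) (by linarith) n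
    have h4 : 1 + (ρ - 1) = ρ := by ring
    rw [h4] at h3
    linarith
  · have h3 : ρ ^ n ≤ 1 := pow_le_one₀ h0 h1.le
    linarith

theorem int2 (h1 : Shell) {m : Measure ℝ} {g : ℝ → ℂ} {M : ℝ} (hM : 0 ≤ M) (hD : DatO m g M)
    (n : ℕ) : Integrable (fun ρ : ℝ => (1 - (ρ : ℂ) ^ n) * g ρ) m := by
  have h2 := ((int1 h1 hM hD).norm.const_mul (n : ℝ))
  refine h2.mono' ?_ ?_
  · refine AEStronglyMeasurable.mul ?_ hD.meas
    exact (by fun_prop : Continuous (fun ρ : ℝ => (1 - (ρ : ℂ) ^ n))).aestronglyMeasurable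
  · filter_upwards [hD.supp] with ρ hρ
    by_cases h3 : g ρ = 0
    · simp [h3]
    · have h4 := hρ h3
      rw [norm_mul, norm_mul, Complex.norm_real, Real.norm_eq_abs,
        abs_of_nonneg (by linarith [h4.2] : 0 ≤ 1 - ρ), ← mul_assoc]
      exact mul_le_mul_of_nonneg_right (bern ρ h4.1 h4.2 n) (norm_nonneg _)

/-- the bound for small `h` -/
theorem expb (x : ℝ) (h0 : 0 ≤ x) (h1 : x ≤ 1) : Real.exp (-x) ≤ 1 - x / 2 := by
  have h2 : 1 + x ≤ Real.exp x := by linarith [Real.add_one_le_exp x]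
  rw [Real.exp_neg]
  have h3 : (Real.exp x)⁻¹ ≤ (1 + x)⁻¹ := inv_anti₀ (by linarith) h2
  refine h3.trans ?_
  rw [inv_le_iff_one_le_mul₀ (by linarith)]
  nlinarith

theorem bd {m : Measure ℝ} {g : ℝ → ℂ} {M a : ℝ} (ha : 0 < a) (hD : DatO m g M) (h : ℝ)
    (hh : 0 < h) (hh1 : h ≤ 1 / a) (n : ℕ) :
    ∀ᵐ ρ : ℝ ∂m, ‖(ρ : ℂ) ^ n * tg g (Real.exp (-(a * h))) h ρ‖ ≤
      (2 / a) * ‖((1 - ρ : ℝ) : ℂ) * g ρ‖ := by
  filter_upwards [hD.supp] with ρ hρ
  simp only [tg]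
  split_ifs with h2
  · by_cases h3 : g ρ = 0
    · simp [h3]
    · have h4 := hρ h3
      have h5 : a * h ≤ 1 := by
        have := mul_le_mul_of_nonneg_left hh1 ha.le
        rwa [mul_one_div_cancel ha.ne'] at this
      have h6 := expb (a * h) (by positivity) h5
      have h7 : h ≤ (2 / a) * (1 - ρ) := by
        rw [div_mul_eq_mul_div, le_div_iff₀ ha]
        linarith
      rw [norm_mul, norm_mul, norm_mul, norm_pow, Complex.norm_real, Complex.norm_real,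
        Complex.norm_real, Real.norm_eq_abs, Real.norm_eq_abs, Real.norm_eq_abs,
        abs_of_nonneg h4.1, abs_of_pos hh, abs_of_nonneg (by linarith [h4.2] : 0 ≤ 1 - ρ)]
      have h8 : ρ ^ n ≤ 1 := pow_le_one₀ h4.1 h4.2.le
      calc ρ ^ n * (h * ‖g ρ‖) ≤ 1 * (h * ‖g ρ‖) :=
            mul_le_mul_of_nonneg_right h8 (by positivity)
        _ = h * ‖g ρ‖ := one_mul _
        _ ≤ ((2 / a) * (1 - ρ)) * ‖g ρ‖ := mul_le_mul_of_nonneg_right h7 (norm_nonneg _)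
        _ = (2 / a) * ((1 - ρ) * ‖g ρ‖) := by ring
  · simp only [mul_zero, norm_zero]
    positivity

theorem pm {m : Measure ℝ} {g : ℝ → ℂ} (hg : AEStronglyMeasurable g m) (r h : ℝ) (n : ℕ) :
    AEStronglyMeasurable (fun ρ : ℝ => (ρ : ℂ) ^ n * tg g r h ρ) m := by
  refine AEStronglyMeasurable.mul ?_ (tg_meas hg r h)
  exact (by fun_prop : Continuous (fun ρ : ℝ => (ρ : ℂ) ^ n)).aestronglyMeasurable

theorem ev {a : ℝ} (ha : 0 < a) : ∀ᶠ h : ℝ in 𝓝[>] 0, 0 < h ∧ h ≤ 1 / a := by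
  have h1 : Ioc (0 : ℝ) (1 / a) ∈ 𝓝[>] (0 : ℝ) := Ioc_mem_nhdsGT (by positivity)
  filter_upwards [h1] with h hh
  exact hh

theorem lim1 (h1 : Shell) {m : Measure ℝ} {g : ℝ → ℂ} {M a : ℝ} (hM : 0 ≤ M) (ha : 0 < a)
    (hD : DatO m g M) (n : ℕ) :
    Tendsto (fun h : ℝ => mom m (tg g (Real.exp (-(a * h))) h) n) (𝓝[>] 0) (𝓝 0) := by
  have h2 : Tendsto (fun h : ℝ => ∫ ρ, (ρ : ℂ) ^ n * tg g (Real.exp (-(a * h))) h ρ ∂m)
      (𝓝[>] 0) (𝓝 (∫ ρ, (0 : ℂ) ∂m)) := by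
    refine tendsto_integral_filter_of_dominated_convergence
      (fun ρ => (2 / a) * ‖((1 - ρ : ℝ) : ℂ) * g ρ‖) ?_ ?_ ?_ ?_
    · exact Eventually.of_forall (fun h => pm hD.meas _ _ _)
    · filter_upwards [ev ha] with h hh
      exact bd ha hD h hh.1 hh.2 n
    · exact (int1 h1 hM hD).norm.const_mul _
    · refine Eventually.of_forall (fun ρ => ?_)
      refine squeeze_zero_norm' (a := fun h : ℝ => ‖(ρ : ℂ) ^ n‖ * (|h| * ‖g ρ‖)) ?_ ?_
      · refine Eventually.of_forall (fun h => ?_)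
        rw [norm_mul]
        refine mul_le_mul_of_nonneg_left ?_ (norm_nonneg _)
        simp only [tg]
        split_ifs
        · rw [norm_mul, Complex.norm_real, Real.norm_eq_abs]
        · rw [norm_zero]
          positivity
      · have h3 : Continuous (fun h : ℝ => ‖(ρ : ℂ) ^ n‖ * (|h| * ‖g ρ‖)) := by fun_prop
        have h4 := (h3.tendsto 0).mono_left (nhdsWithin_le_nhds (s := Ioi (0 : ℝ)))
        simpa using h4
  simpa [mom] using h2

theorem lim2 (h1 : Shell) {m : Measure ℝ} {g : ℝ → ℂ} {M a : ℝ} (hM : 0 ≤ M) (ha : 0 < a)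
    (hD : DatO m g M) (n : ℕ) :
    Tendsto (fun h : ℝ => (mom m (tg g (Real.exp (-(a * h))) h) 0 -
      mom m (tg g (Real.exp (-(a * h))) h) n) / (h : ℂ)) (𝓝[>] 0)
        (𝓝 (∫ ρ, (1 - (ρ : ℂ) ^ n) * g ρ ∂m)) := by
  have hint : ∀ h : ℝ, 0 < h ∧ h ≤ 1 / a → ∀ k : ℕ,
      Integrable (fun ρ : ℝ => (ρ : ℂ) ^ k * tg g (Real.exp (-(a * h))) h ρ) m := by
    intro h hh k
    exact ((int1 h1 hM hD).norm.const_mul (2 / a)).mono' (pm hD.meas _ _ _)
      (bd ha hD h hh.1 hh.2 k)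
  have h2 : Tendsto (fun h : ℝ => ∫ ρ, (1 - (ρ : ℂ) ^ n) * tg g (Real.exp (-(a * h))) 1 ρ ∂m)
      (𝓝[>] 0) (𝓝 (∫ ρ, (1 - (ρ : ℂ) ^ n) * g ρ ∂m)) := by
    refine tendsto_integral_filter_of_dominated_convergence
      (fun ρ => ‖(1 - (ρ : ℂ) ^ n) * g ρ‖) ?_ ?_ ?_ ?_
    · refine Eventually.of_forall (fun h => ?_)
      refine AEStronglyMeasurable.mul ?_ (tg_meas hD.meas _ _)
      exact (by fun_prop : Continuous (fun ρ : ℝ => (1 - (ρ : ℂ) ^ n))).aestronglyMeasurable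
    · refine Eventually.of_forall (fun h => Eventually.of_forall (fun ρ => ?_))
      rw [norm_mul, norm_mul]
      refine mul_le_mul_of_nonneg_left ?_ (norm_nonneg _)
      simp only [tg]
      split_ifs
      · simp
      · rw [norm_zero]
        exact norm_nonneg _
    · exact (int2 h1 hM hD n).norm
    · filter_upwards [hD.supp] with ρ hρ
      by_cases h3 : g ρ = 0
      · simp [tg, h3]
      · have h4 := hρ h3
        refine Tendsto.congr' ?_ tendsto_const_nhds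
        have h5 : Continuous (fun h : ℝ => Real.exp (-(a * h))) := by fun_prop
        have h6 := (h5.tendsto 0).mono_left (nhdsWithin_le_nhds (s := Ioi (0 : ℝ)))
        simp only [mul_zero, neg_zero, Real.exp_zero] at h6
        filter_upwards [h6.eventually (lt_mem_nhds h4.2)] with h h7
        simp only [tg, if_pos h7.le, Complex.ofReal_one, one_mul]
  refine h2.congr' ?_
  filter_upwards [ev ha] with h hh
  have hh0 : (h : ℂ) ≠ 0 := by exact_mod_cast hh.1.ne'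
  rw [mom, mom, ← integral_sub (hint h hh 0) (hint h hh n), eq_div_iff hh0,
    ← integral_mul_const]
  congr 1
  ext ρ
  simp only [tg]
  split_ifs
  · push_cast
    ring
  · ring

end TrunAux

open TrunAux in
theorem prf_Trun (h1 : Shell) : Trun := by
  intro m g M a hM ha hD
  refine ⟨fun r _ _ h hh => part1 hD r h hh, fun n => ⟨int2 h1 hM hD n, ?_, ?_⟩⟩
  · exact lim1 h1 hM ha hD n
  · exact lim2 h1 hM ha hD n

end Pool.Agent.MultS.SG

end

section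

/-!
# MP_b17785_an, block SG: the two point inequality from the three point inequality
-/

set_option autoImplicit false

open Complex Metric Set Filter Topology MeasureTheory
open scoped ENNReal ComplexConjugate

namespace Pool.Agent.MultS.SG

theorem prf_Two (h1 : Tri) : Two := by
  intro f hf x hx y hy
  obtain ⟨hd, hinj, hf0, hf1⟩ := hf
  have hball : ball (0 : ℂ) 1 ∈ 𝓝 (0 : ℂ) := ball_mem_nhds 0 one_pos
  have hdiff : DifferentiableAt ℂ f 0 := hd.differentiableAt hball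
  have hder : HasDerivAt f 1 0 := by
    have := hdiff.hasDerivAt
    rwa [hf1] at this
  have hsl := hasDerivAt_iff_tendsto_slope.mp hder
  have hid : Tendsto (fun z : ℂ => z) (𝓝[≠] 0) (𝓝 0) := tendsto_nhdsWithin_of_tendsto_nhds tendsto_id
  have hfc : Tendsto f (𝓝[≠] 0) (𝓝 0) := by
    have := hdiff.continuousAt.tendsto
    rw [hf0] at this
    exact tendsto_nhdsWithin_of_tendsto_nhds this
  have hL : Tendsto (fun z : ℂ => ‖f z - f x‖ * ‖f y‖ * ‖y - x‖ *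
      √((1 - ‖x‖ ^ 2) * (1 - ‖y‖ ^ 2) * (1 - ‖z‖ ^ 2))) (𝓝[≠] 0)
      (𝓝 (‖0 - f x‖ * ‖f y‖ * ‖y - x‖ *
      √((1 - ‖x‖ ^ 2) * (1 - ‖y‖ ^ 2) * (1 - ‖(0 : ℂ)‖ ^ 2)))) := by
    refine Tendsto.mul (Tendsto.mul (Tendsto.mul ?_ tendsto_const_nhds) tendsto_const_nhds) ?_
    · exact (hfc.sub tendsto_const_nhds).norm
    · exact (Real.continuous_sqrt.tendsto _).comp
        (tendsto_const_nhds.mul (tendsto_const_nhds.sub (hid.norm.pow 2)))
  have hR : Tendsto (fun z : ℂ => ‖f y - f x‖ * ‖slope f 0 z‖ * ‖z - x‖ * ‖y‖ *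
      ‖1 - conj y * z‖) (𝓝[≠] 0)
      (𝓝 (‖f y - f x‖ * ‖(1 : ℂ)‖ * ‖0 - x‖ * ‖y‖ * ‖1 - conj y * 0‖)) := by
    refine Tendsto.mul (Tendsto.mul (Tendsto.mul (Tendsto.mul tendsto_const_nhds hsl.norm) ?_)
      tendsto_const_nhds) ?_
    · exact (hid.sub tendsto_const_nhds).norm
    · exact (tendsto_const_nhds.sub (tendsto_const_nhds.mul hid)).norm
  have hle := le_of_tendsto_of_tendsto hL hR (by
    have hb : ∀ᶠ z : ℂ in 𝓝[≠] 0, z ∈ ball (0 : ℂ) 1 := mem_nhdsWithin_of_mem_nhds hball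
    filter_upwards [hb, self_mem_nhdsWithin] with z hz hz0
    have hz0' : z ≠ 0 := hz0
    have hzn : 0 < ‖z‖ := norm_pos_iff.mpr hz0'
    have h2 := h1 f ⟨hd, hinj, hf0, hf1⟩ x hx y hy z hz
    have h3 : ‖slope f 0 z‖ = ‖f z‖ / ‖z‖ := by
      rw [slope_def_field, hf0, sub_zero, sub_zero, norm_div]
    rw [h3]
    have h4 : ‖f y - f x‖ * (‖f z‖ / ‖z‖) * ‖z - x‖ * ‖y‖ * ‖1 - conj y * z‖ =
        (‖f y - f x‖ * ‖f z‖ * ‖z - x‖ * ‖y‖ * ‖1 - conj y * z‖) / ‖z‖ := by ring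
    rw [h4, le_div_iff₀ hzn]
    calc _ = ‖f z - f x‖ * ‖f y‖ * ‖y - x‖ * ‖z‖ *
        √((1 - ‖x‖ ^ 2) * (1 - ‖y‖ ^ 2) * (1 - ‖z‖ ^ 2)) := by ring
      _ ≤ _ := h2)
  simp only [zero_sub, norm_neg, norm_one, mul_one, norm_zero, mul_zero, sub_zero, ne_eq,
    OfNat.ofNat_ne_zero, not_false_eq_true, zero_pow] at hle
  rw [norm_sub_rev x y, norm_sub_rev (f x) (f y)]
  linarith

end Pool.Agent.MultS.SG

end

section

/-! Item TwoB. -/

set_option autoImplicit false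

open Complex Metric Set Filter Topology MeasureTheory
open scoped ENNReal ComplexConjugate

namespace Pool.Agent.MultS.SG

namespace TwoBAux

theorem den_ne {b x : ℂ} (hb : ‖b‖ < 1) (hx : ‖x‖ < 1) : 1 - conj b * x ≠ 0 := by
  intro h
  have h1 : conj b * x = 1 := (sub_eq_zero.mp h).symm
  have h2 : ‖conj b * x‖ = 1 := by rw [h1, norm_one]
  rw [norm_mul, RCLike.norm_conj] at h2
  have h3 : ‖b‖ * ‖x‖ < 1 := mul_lt_one_of_nonneg_of_lt_one_left (norm_nonneg _) hb hx.le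
  linarith

theorem one_sub_sq {b x : ℂ} (hb : ‖b‖ < 1) (hx : ‖x‖ < 1) :
    1 - ‖(x - b) / (1 - conj b * x)‖ ^ 2 =
      (1 - ‖b‖ ^ 2) * (1 - ‖x‖ ^ 2) / ‖1 - conj b * x‖ ^ 2 := by
  have hd := den_ne hb hx
  have hn : ‖1 - conj b * x‖ ^ 2 ≠ 0 := pow_ne_zero _ (norm_ne_zero_iff.mpr hd)
  rw [norm_div, div_pow, eq_div_iff hn, sub_mul, div_mul_cancel₀ _ hn, one_mul]
  have key : ∀ z : ℂ, ‖z‖ ^ 2 = z.re ^ 2 + z.im ^ 2 := fun z => by
    rw [← Complex.normSq_eq_norm_sq, Complex.normSq_apply]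
    ring
  rw [key, key, key b, key x]
  simp only [Complex.sub_re, Complex.sub_im, Complex.mul_re, Complex.mul_im, Complex.conj_re,
    Complex.conj_im, Complex.one_re, Complex.one_im]
  ring

theorem sub_eq {b x y : ℂ} (hb : ‖b‖ < 1) (hx : ‖x‖ < 1) (hy : ‖y‖ < 1) :
    ‖(x - b) / (1 - conj b * x) - (y - b) / (1 - conj b * y)‖ =
      (1 - ‖b‖ ^ 2) * ‖x - y‖ / (‖1 - conj b * x‖ * ‖1 - conj b * y‖) := by
  have h1 := den_ne hb hx
  have h2 := den_ne hb hy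
  have hbb : conj b * b = ((‖b‖ ^ 2 : ℝ) : ℂ) := by
    rw [mul_comm, Complex.mul_conj, Complex.normSq_eq_norm_sq]
  have e : (x - b) / (1 - conj b * x) - (y - b) / (1 - conj b * y) =
      (((1 - ‖b‖ ^ 2 : ℝ) : ℂ) * (x - y)) / ((1 - conj b * x) * (1 - conj b * y)) := by
    rw [div_sub_div _ _ h1 h2]
    congr 1
    rw [Complex.ofReal_sub, Complex.ofReal_one, ← hbb]
    ring
  have hpos : 0 ≤ 1 - ‖b‖ ^ 2 := by
    have := pow_le_one₀ (norm_nonneg b) hb.le (n := 2)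
    linarith
  rw [e, norm_div, norm_mul, norm_mul, Complex.norm_real, Real.norm_of_nonneg hpos]

end TwoBAux

open TwoBAux in
theorem prf_TwoB (h1 : Two) (h2 : KT) : TwoB := by
  intro f hf b hb x hx y hy
  obtain ⟨hD, F, hF, hX⟩ := h2 f hf b hb
  obtain ⟨hx1, hx2⟩ := hX x hx
  obtain ⟨hy1, hy2⟩ := hX y hy
  have key := h1 F hF _ hx1 _ hy1
  rw [mem_ball_zero_iff] at hb hx hy
  rw [hx2, hy2, one_sub_sq hb hx, one_sub_sq hb hy, sub_eq hb hx hy] at key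
  have hp : 0 < ‖1 - conj b * x‖ := norm_pos_iff.mpr (den_ne hb hx)
  have hq : 0 < ‖1 - conj b * y‖ := norm_pos_iff.mpr (den_ne hb hy)
  have hB : 0 < 1 - ‖b‖ ^ 2 := by
    have := pow_lt_one₀ (norm_nonneg b) hb (n := 2) (by norm_num)
    linarith
  have hDp : 0 < ‖deriv f b‖ := norm_pos_iff.mpr hD
  have hBc : ‖(1 - (‖b‖ : ℂ) ^ 2)‖ = 1 - ‖b‖ ^ 2 := by
    have e : (1 - (‖b‖ : ℂ) ^ 2) = ((1 - ‖b‖ ^ 2 : ℝ) : ℂ) := by push_cast; ring
    rw [e, Complex.norm_real, Real.norm_of_nonneg hB.le]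
  have hsub : (f x - f b) / ((1 - (‖b‖ : ℂ) ^ 2) * deriv f b) -
      (f y - f b) / ((1 - (‖b‖ : ℂ) ^ 2) * deriv f b) =
      (f x - f y) / ((1 - (‖b‖ : ℂ) ^ 2) * deriv f b) := by
    rw [← sub_div]
    congr 1
    ring
  have hsq : √((1 - ‖b‖ ^ 2) * (1 - ‖x‖ ^ 2) / ‖1 - conj b * x‖ ^ 2 *
      ((1 - ‖b‖ ^ 2) * (1 - ‖y‖ ^ 2) / ‖1 - conj b * y‖ ^ 2)) =
      (1 - ‖b‖ ^ 2) / (‖1 - conj b * x‖ * ‖1 - conj b * y‖) *
        √((1 - ‖x‖ ^ 2) * (1 - ‖y‖ ^ 2)) := by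
    have e : (1 - ‖b‖ ^ 2) * (1 - ‖x‖ ^ 2) / ‖1 - conj b * x‖ ^ 2 *
      ((1 - ‖b‖ ^ 2) * (1 - ‖y‖ ^ 2) / ‖1 - conj b * y‖ ^ 2) =
      ((1 - ‖b‖ ^ 2) / (‖1 - conj b * x‖ * ‖1 - conj b * y‖)) ^ 2 *
        ((1 - ‖x‖ ^ 2) * (1 - ‖y‖ ^ 2)) := by
      field_simp
    rw [e, Real.sqrt_mul (sq_nonneg _), Real.sqrt_sq (by positivity)]
  rw [hsub, hsq, norm_div, norm_div, norm_div, norm_div, norm_div, norm_mul, hBc] at key
  -- clear denominators
  generalize √((1 - ‖x‖ ^ 2) * (1 - ‖y‖ ^ 2)) = R at key ⊢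
  generalize ‖1 - conj b * x‖ = p at key hp ⊢
  generalize ‖1 - conj b * y‖ = q at key hq ⊢
  generalize ‖deriv f b‖ = D at key hDp ⊢
  generalize 1 - ‖b‖ ^ 2 = B at key hB ⊢
  generalize ‖x - y‖ = xy at key ⊢
  generalize ‖f x - f b‖ = u at key ⊢
  generalize ‖f y - f b‖ = w at key ⊢
  generalize ‖f x - f y‖ = t at key ⊢
  generalize ‖x - b‖ = X at key ⊢
  generalize ‖y - b‖ = Y at key ⊢
  have h3 := mul_le_mul_of_nonneg_left key (by positivity : 0 ≤ B * D ^ 2 * p ^ 2 * q ^ 2)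
  have e1 : B * D ^ 2 * p ^ 2 * q ^ 2 *
      (B * xy / (p * q) * (u / (B * D)) * (w / (B * D)) * (B / (p * q) * R)) =
      u * w * (B * xy * R) := by
    field_simp
  have e2 : B * D ^ 2 * p ^ 2 * q ^ 2 * (t / (B * D) * (X / p) * (Y / q)) =
      t * D * (X * Y * p * q) := by
    field_simp
  rw [e1, e2] at h3
  exact h3

end Pool.Agent.MultS.SG

end

section

/-!
# MP_b17785_an, block SG, item VBd: the bound on a circle
-/

set_option autoImplicit false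

open Complex Metric Set Filter Topology MeasureTheory
open scoped ENNReal ComplexConjugate

namespace Pool.Agent.MultS.SG

namespace VBdAux

theorem pp_nonneg (s : ℝ) : 0 ≤ pp s := Real.sqrt_nonneg _

theorem meas_pp (v : ℝ) : Measurable (fun ρ : ℝ => pp ((1 - ρ) / v)) := by
  unfold pp
  have h : Measurable (fun ρ : ℝ => (1 - ρ) / v) :=
    (measurable_const.sub measurable_id).div_const v
  exact (h.min (measurable_const.div h)).sqrt

/-- the weighted integrals -/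
theorem lint (h2 : Shell) {m : Measure ℝ} {g : ℝ → ℂ} {r M : ℝ} (hr : r < 1) (hM : 0 ≤ M)
    (hD : Dat m g r M) :
    (∀ v₀ : ℝ, 0 < v₀ →
      ∫⁻ ρ, ‖g ρ‖ₑ * ENNReal.ofReal (pp ((1 - ρ) / v₀)) ∂m ≤ ENNReal.ofReal (8 * M)) ∧
    ∫⁻ ρ, ‖g ρ‖ₑ * ENNReal.ofReal (1 - ρ) ∂m ≤ ENNReal.ofReal (8 * M) := by
  have hg : AEMeasurable (fun ρ => ‖g ρ‖ₑ) m := hD.meas.enorm
  obtain ⟨a1, a2⟩ := h2 (m.withDensity (fun ρ => ‖g ρ‖ₑ)) M hM (by
    intro v hv
    rw [withDensity_apply _ measurableSet_Icc]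
    exact hD.shell v hv)
  have key : ∀ F : ℝ → ℝ, Measurable F →
      ∫⁻ ρ, ‖g ρ‖ₑ * ENNReal.ofReal (F ρ) ∂m =
      ∫⁻ ρ in Ico (0 : ℝ) 1, ENNReal.ofReal (F ρ) ∂(m.withDensity (fun ρ => ‖g ρ‖ₑ)) := by
    intro F hF
    rw [setLIntegral_withDensity_eq_lintegral_mul₀' hg hF.ennreal_ofReal.aemeasurable
      measurableSet_Ico, ← lintegral_indicator measurableSet_Ico]
    refine lintegral_congr_ae ?_
    filter_upwards [hD.supp] with ρ hρ
    by_cases h : g ρ = 0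
    · simp [Set.indicator, h]
    · have h' := hρ h
      rw [Set.indicator_of_mem (show ρ ∈ Ico (0 : ℝ) 1 from ⟨h'.1, h'.2.trans_lt hr⟩)]
      rfl
  refine ⟨fun v₀ hv₀ => ?_, ?_⟩
  · rw [key _ (meas_pp v₀)]
    exact a1 v₀ hv₀
  · rw [key (fun ρ => 1 - ρ) (measurable_const.sub measurable_id)]
    exact a2

theorem integ (h2 : Shell) {m : Measure ℝ} {g : ℝ → ℂ} {r M : ℝ} (hr : r < 1) (hM : 0 ≤ M)
    (hD : Dat m g r M) : Integrable g m := by
  refine ⟨hD.meas, ?_⟩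
  have hr' : 0 < 1 - r := by linarith
  have h1 : ∫⁻ ρ, ‖g ρ‖ₑ ∂m ≤
      ∫⁻ ρ, ENNReal.ofReal (1 / (1 - r)) * (‖g ρ‖ₑ * ENNReal.ofReal (1 - ρ)) ∂m := by
    refine lintegral_mono_ae ?_
    filter_upwards [hD.supp] with ρ hρ
    by_cases h : g ρ = 0
    · simp [h]
    · obtain ⟨h0, h1⟩ := hρ h
      have h3 : (1 : ℝ≥0∞) ≤ ENNReal.ofReal (1 / (1 - r)) * ENNReal.ofReal (1 - ρ) := by
        rw [← ENNReal.ofReal_mul (by positivity), ← ENNReal.ofReal_one]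
        apply ENNReal.ofReal_le_ofReal
        rw [one_div, inv_mul_eq_div, le_div_iff₀ hr']
        linarith
      calc ‖g ρ‖ₑ = 1 * ‖g ρ‖ₑ := (one_mul _).symm
        _ ≤ (ENNReal.ofReal (1 / (1 - r)) * ENNReal.ofReal (1 - ρ)) * ‖g ρ‖ₑ := by gcongr
        _ = _ := by ring
  rw [lintegral_const_mul' _ _ ENNReal.ofReal_ne_top] at h1
  refine hasFiniteIntegral_iff_enorm.2 (h1.trans_lt ?_)
  exact ENNReal.mul_lt_top ENNReal.ofReal_lt_top
    (lt_of_le_of_lt (lint h2 hr hM hD).2 ENNReal.ofReal_lt_top)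

theorem tc_zero {f : ℂ → ℂ} (hf : Sc f) : tc f 0 = 0 := by
  unfold tc
  rw [iteratedDeriv_zero, hf.2.2.1, zero_div]

theorem tc_one {f : ℂ → ℂ} (hf : Sc f) : tc f 1 = 1 := by
  unfold tc
  rw [iteratedDeriv_one, hf.2.2.2]
  simp

theorem hasSum_succ (h3 : PS) {f : ℂ → ℂ} (hf : Sc f) {z : ℂ} (hz : ‖z‖ < 1) :
    Summable (fun n : ℕ => ‖tc f (n + 1) * z ^ (n + 1)‖) ∧
    HasSum (fun n : ℕ => tc f (n + 1) * z ^ (n + 1)) (f z) := by
  obtain ⟨e1, e2⟩ := h3.1 f hf.1 z (mem_ball_zero_iff.2 hz)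
  refine ⟨(summable_nat_add_iff 1).2 e1, ?_⟩
  refine (hasSum_nat_add_iff (f := fun n : ℕ => tc f n * z ^ n) 1).2 ?_
  have e3 : ∑ i ∈ Finset.range 1, tc f i * z ^ i = 0 := by
    simp [tc_zero hf]
  rw [e3, add_zero]
  exact e2

/-- the dilation of a function of the class `S` -/
theorem sc_dil {f : ℂ → ℂ} (hf : Sc f) {s : ℝ} (hs0 : 0 < s) (hs1 : s < 1) :
    Sc (fun t => f ((s : ℂ) * t) / (s : ℂ)) := by
  have hs : (s : ℂ) ≠ 0 := by exact_mod_cast hs0.ne'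
  have hmaps : ∀ t ∈ ball (0 : ℂ) 1, (s : ℂ) * t ∈ ball (0 : ℂ) 1 := by
    intro t ht
    rw [mem_ball_zero_iff] at ht ⊢
    rw [norm_mul, Complex.norm_real, Real.norm_eq_abs, abs_of_pos hs0]
    calc s * ‖t‖ ≤ 1 * ‖t‖ := mul_le_mul_of_nonneg_right hs1.le (norm_nonneg _)
      _ < 1 := by linarith
  refine ⟨?_, ?_, ?_, ?_⟩
  · refine DifferentiableOn.div_const (DifferentiableOn.comp hf.1 ?_ hmaps) _
    exact (differentiable_id.const_mul (s : ℂ)).differentiableOn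
  · intro t ht t' ht' h
    have h' : f ((s : ℂ) * t) / (s : ℂ) = f ((s : ℂ) * t') / (s : ℂ) := h
    rw [div_left_inj' hs] at h'
    exact mul_left_cancel₀ hs (hf.2.1 (hmaps t ht) (hmaps t' ht') h')
  · change f ((s : ℂ) * 0) / (s : ℂ) = 0
    rw [mul_zero, hf.2.2.1, zero_div]
  · have h1 : HasDerivAt f 1 0 := by
      have := (hf.1.differentiableAt (ball_mem_nhds (0 : ℂ) one_pos)).hasDerivAt
      rwa [hf.2.2.2] at this
    have h2 : HasDerivAt (fun t : ℂ => (s : ℂ) * t) ((s : ℂ) * 1) 0 :=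
      (hasDerivAt_id (0 : ℂ)).const_mul (s : ℂ)
    have h1' : HasDerivAt f 1 ((s : ℂ) * 0) := by rwa [mul_zero]
    have h3 := (h1'.comp (0 : ℂ) h2).div_const (s : ℂ)
    have h4 : (1 : ℂ) * ((s : ℂ) * 1) / (s : ℂ) = 1 := by
      field_simp
    rw [h4] at h3
    exact h3.deriv

/-- the bound for the kernel -/
theorem hbound (h1 : Pt) (h3 : PS) (h4 : Gol.GolS) {f : ℂ → ℂ} (hf : Sc f) {r : ℝ} (hr0 : 0 < r)
    (hr1 : r < 1) {z w : ℂ} (hz : ‖z‖ < 1) (hw : ‖w‖ = ‖z‖) (hz0 : 0 < ‖z‖) :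
    ∃ v₁ v₂ : ℝ, 0 < v₁ ∧ 0 < v₂ ∧ ∀ ρ : ℝ, 0 ≤ ρ → ρ ≤ r →
      ‖∑' n : ℕ, (ρ : ℂ) ^ n * (tc f (n + 1) * (z ^ (n + 1) - w ^ (n + 1)))‖ * (r * (1 - r)) ≤
        400000 * ‖f (r * z) - f (r * w)‖ *
          ((1 - ρ) + pp ((1 - ρ) / v₁) + pp ((1 - ρ) / v₂)) := by
  obtain ⟨s, hs⟩ : ∃ s : ℝ, s = ‖z‖ := ⟨_, rfl⟩
  have hs0 : 0 < s := by rw [hs]; exact hz0
  have hs1 : s < 1 := by rw [hs]; exact hz
  have hsC : (s : ℂ) ≠ 0 := by exact_mod_cast hs0.ne'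
  have hnorm : ∀ x : ℂ, ‖x‖ = s → ‖x / (s : ℂ)‖ = 1 := by
    intro x hx
    rw [norm_div, Complex.norm_real, Real.norm_eq_abs, abs_of_pos hs0, hx, div_self hs0.ne']
  obtain ⟨v₁, v₂, hv₁, hv₂, hP⟩ := h1 _ (sc_dil hf hs0 hs1) r (z / s) (w / s) hr0 hr1
    (hnorm z hs.symm) (hnorm w (by rw [hw, hs]))
  refine ⟨v₁, v₂, hv₁, hv₂, ?_⟩
  intro ρ hρ0 hρ
  have hE0 : 0 ≤ pp ((1 - ρ) / v₁) := pp_nonneg _
  have hE1 : 0 ≤ pp ((1 - ρ) / v₂) := pp_nonneg _
  have hdil : ∀ (t : ℝ) (x : ℂ), (s : ℂ) * ((t : ℂ) * (x / (s : ℂ))) = t * x := by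
    intro t x
    field_simp
  rcases hρ0.eq_or_lt with h0 | h0
  · subst h0
    have e1 : ∑' n : ℕ, ((0 : ℝ) : ℂ) ^ n * (tc f (n + 1) * (z ^ (n + 1) - w ^ (n + 1))) =
        z - w := by
      rw [tsum_eq_single 0]
      · simp [tc_one hf]
      · intro n hn
        simp [hn]
    rw [e1]
    have e2 := h4 f hf r hr0.le hr1 (r * z) (r * w) (by
      rw [norm_mul, Complex.norm_real, Real.norm_eq_abs, abs_of_pos hr0]
      nlinarith [norm_nonneg z]) (by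
      rw [norm_mul, Complex.norm_real, Real.norm_eq_abs, abs_of_pos hr0, hw]
      nlinarith [norm_nonneg z])
    rw [← mul_sub, norm_mul, Complex.norm_real, Real.norm_eq_abs, abs_of_pos hr0] at e2
    obtain ⟨D, hD⟩ : ∃ D, D = ‖f (r * z) - f (r * w)‖ := ⟨_, rfl⟩
    rw [← hD] at e2 ⊢
    have hD0 : 0 ≤ D := by rw [hD]; exact norm_nonneg _
    have h8 : (1 + r) ^ 3 ≤ 8 := by nlinarith [mul_nonneg hr0.le hr0.le, mul_pos hr0 hr0]
    have hp : 0 < (1 + r) ^ 3 := by positivity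
    rw [div_mul_eq_mul_div, div_le_iff₀ hp] at e2
    have e3 : ‖z - w‖ * (r * (1 - r)) ≤ 8 * D := by
      calc ‖z - w‖ * (r * (1 - r)) = (1 - r) * (r * ‖z - w‖) := by ring
        _ ≤ D * (1 + r) ^ 3 := e2
        _ ≤ D * 8 := mul_le_mul_of_nonneg_left h8 hD0
        _ = 8 * D := by ring
    refine e3.trans ?_
    have e4 : 400000 * D * 1 ≤ 400000 * D *
        ((1 - 0) + pp ((1 - 0) / v₁) + pp ((1 - 0) / v₂)) :=
      mul_le_mul_of_nonneg_left (by linarith) (by positivity)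
    linarith
  · have hρC : (ρ : ℂ) ≠ 0 := by exact_mod_cast h0.ne'
    have hρ1 : ρ < 1 := hρ.trans_lt hr1
    have hin : ∀ x : ℂ, ‖x‖ < 1 → ‖(ρ : ℂ) * x‖ < 1 := by
      intro x hx
      rw [norm_mul, Complex.norm_real, Real.norm_eq_abs, abs_of_pos h0]
      calc ρ * ‖x‖ ≤ 1 * ‖x‖ := mul_le_mul_of_nonneg_right hρ1.le (norm_nonneg _)
        _ < 1 := by linarith
    have e1 := ((hasSum_succ h3 hf (hin z hz)).2.sub
      (hasSum_succ h3 hf (hin w (by rw [hw]; exact hz))).2).tsum_eq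
    have e2 : ∀ n : ℕ, tc f (n + 1) * ((ρ : ℂ) * z) ^ (n + 1) -
        tc f (n + 1) * ((ρ : ℂ) * w) ^ (n + 1) =
        (ρ : ℂ) * ((ρ : ℂ) ^ n * (tc f (n + 1) * (z ^ (n + 1) - w ^ (n + 1)))) := by
      intro n
      rw [mul_pow, mul_pow, pow_succ (ρ : ℂ) n]
      ring
    rw [tsum_congr e2, tsum_mul_left] at e1
    have e3 : ρ * ‖∑' n : ℕ, (ρ : ℂ) ^ n * (tc f (n + 1) * (z ^ (n + 1) - w ^ (n + 1)))‖ =
        ‖f (ρ * z) - f (ρ * w)‖ := by
      rw [← e1, norm_mul, Complex.norm_real, Real.norm_eq_abs, abs_of_pos h0]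
    have e4 := hP ρ hρ0 hρ
    simp only [hdil] at e4
    rw [← sub_div, ← sub_div, norm_div, norm_div, Complex.norm_real, Real.norm_eq_abs,
      abs_of_pos hs0, ← e3] at e4
    have e5 := mul_le_mul_of_nonneg_left e4 (div_nonneg hs0.le h0.le)
    refine le_trans (le_of_eq ?_) (e5.trans (le_of_eq ?_))
    · field_simp
    · field_simp

end VBdAux

open VBdAux in
theorem prf_VBd (h1 : Pt) (h2 : Shell) (h3 : PS) (h4 : Gol.GolS) : VBd := by
  intro f hf m g r M hr0 hr1 hM hD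
  have hg : Integrable g m := integ h2 hr1 hM hD
  refine ⟨hg, ?_⟩
  intro z w hz hw
  have hmono : ∀ n : ℕ, ∀ᵐ ρ : ℝ ∂m, ‖(ρ : ℂ) ^ n * g ρ‖ ≤ ‖g ρ‖ := by
    intro n
    filter_upwards [hD.supp] with ρ hρ
    by_cases h : g ρ = 0
    · simp [h]
    · obtain ⟨h0, h1'⟩ := hρ h
      rw [norm_mul, norm_pow, Complex.norm_real, Real.norm_eq_abs, abs_of_nonneg h0]
      calc ρ ^ n * ‖g ρ‖ ≤ 1 * ‖g ρ‖ :=
            mul_le_mul_of_nonneg_right (pow_le_one₀ h0 (by linarith)) (norm_nonneg _)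
        _ = ‖g ρ‖ := one_mul _
  have hmom : ∀ n : ℕ, ‖mom m g n‖ ≤ ∫ ρ, ‖g ρ‖ ∂m := fun n =>
    norm_integral_le_of_norm_le hg.norm (hmono n)
  obtain ⟨I, hI⟩ : ∃ I, I = ∫ ρ, ‖g ρ‖ ∂m := ⟨_, rfl⟩
  rw [← hI] at hmom
  have hI0 : 0 ≤ I := by rw [hI]; exact integral_nonneg fun _ => norm_nonneg _
  have hsz := (hasSum_succ h3 hf hz).1
  have hsw := (hasSum_succ h3 hf (z := w) (by rw [hw]; exact hz)).1
  refine ⟨?_, ?_⟩
  · refine Summable.of_norm_bounded (hsz.mul_left I) ?_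
    intro n
    rw [mul_assoc, norm_mul]
    exact mul_le_mul_of_nonneg_right (hmom n) (norm_nonneg _)
  rcases (norm_nonneg z).eq_or_lt with hz0 | hz0
  · have e1 : z = 0 := norm_eq_zero.1 hz0.symm
    have e2 : w = 0 := norm_eq_zero.1 (by rw [hw]; exact hz0.symm)
    rw [e1, e2]
    simp
  obtain ⟨v₁, v₂, hv₁, hv₂, hB⟩ := hbound h1 h3 h4 hf hr0 hr1 hz hw hz0
  obtain ⟨c, hc⟩ : ∃ c : ℕ → ℂ, c = fun n => tc f (n + 1) * (z ^ (n + 1) - w ^ (n + 1)) :=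
    ⟨_, rfl⟩
  have hcs : Summable (fun n => ‖c n‖) := by
    refine Summable.of_nonneg_of_le (fun _ => norm_nonneg _) ?_ (hsz.add hsw)
    intro n
    rw [hc]
    change ‖tc f (n + 1) * (z ^ (n + 1) - w ^ (n + 1))‖ ≤ _
    rw [mul_sub]
    exact norm_sub_le _ _
  have hint : ∀ n : ℕ, Integrable (fun ρ : ℝ => (ρ : ℂ) ^ n * g ρ * c n) m := by
    intro n
    refine Integrable.mul_const ?_ (c n)
    refine Integrable.mono' hg.norm ?_ (hmono n)
    exact ((Complex.continuous_ofReal.pow n).aestronglyMeasurable).mul hD.meas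
  have hsum : Summable fun n : ℕ => ∫ ρ : ℝ, ‖(ρ : ℂ) ^ n * g ρ * c n‖ ∂m := by
    refine Summable.of_nonneg_of_le (fun n => integral_nonneg fun _ => norm_nonneg _) ?_
      (hcs.mul_left I)
    intro n
    rw [hI, ← integral_mul_const]
    refine integral_mono_ae (hint n).norm (hg.norm.mul_const _) ?_
    filter_upwards [hmono n] with ρ hρ
    rw [norm_mul]
    exact mul_le_mul_of_nonneg_right hρ (norm_nonneg _)
  have hS := (hasSum_integral_of_summable_integral_norm hint hsum).tsum_eq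
  have hL : ∑' n : ℕ, mom m g n * tc f (n + 1) * (z ^ (n + 1) - w ^ (n + 1)) =
      ∫ ρ : ℝ, ∑' n : ℕ, (ρ : ℂ) ^ n * g ρ * c n ∂m := by
    rw [← hS]
    refine tsum_congr fun n => ?_
    rw [integral_mul_const, hc, mul_assoc]
    rfl
  rw [hL]
  obtain ⟨D, hDf⟩ : ∃ D, D = ‖f (r * z) - f (r * w)‖ := ⟨_, rfl⟩
  have hD0 : 0 ≤ D := by rw [hDf]; exact norm_nonneg _
  rw [← hDf] at hB ⊢
  have hR0 : 0 ≤ r * (1 - r) := mul_nonneg hr0.le (by linarith)
  have hb : ∀ᵐ ρ : ℝ ∂m, ‖(∑' n : ℕ, (ρ : ℂ) ^ n * g ρ * c n) * ((r * (1 - r) : ℝ) : ℂ)‖ₑ ≤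
      ENNReal.ofReal (400000 * D) * (‖g ρ‖ₑ * ENNReal.ofReal (1 - ρ) +
        (‖g ρ‖ₑ * ENNReal.ofReal (pp ((1 - ρ) / v₁)) +
        ‖g ρ‖ₑ * ENNReal.ofReal (pp ((1 - ρ) / v₂)))) := by
    filter_upwards [hD.supp] with ρ hρ
    by_cases h : g ρ = 0
    · simp [h]
    · obtain ⟨h0, h1'⟩ := hρ h
      have e1 : ∑' n : ℕ, (ρ : ℂ) ^ n * g ρ * c n = (∑' n : ℕ, (ρ : ℂ) ^ n * c n) * g ρ := by
        rw [← tsum_mul_right]
        refine tsum_congr fun n => ?_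
        ring
      have e2 := hB ρ h0 h1'
      have e3 : ‖(∑' n : ℕ, (ρ : ℂ) ^ n * c n)‖ * (r * (1 - r)) ≤ 400000 * D *
          ((1 - ρ) + pp ((1 - ρ) / v₁) + pp ((1 - ρ) / v₂)) := by
        rw [hc]
        exact e2
      have e4 : ‖(∑' n : ℕ, (ρ : ℂ) ^ n * g ρ * c n) * ((r * (1 - r) : ℝ) : ℂ)‖ₑ =
          ENNReal.ofReal (‖(∑' n : ℕ, (ρ : ℂ) ^ n * c n)‖ * (r * (1 - r))) * ‖g ρ‖ₑ := by
        rw [e1, ← ofReal_norm, ← ofReal_norm,
          ← ENNReal.ofReal_mul (mul_nonneg (norm_nonneg _) hR0)]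
        congr 1
        rw [norm_mul, norm_mul, Complex.norm_real, Real.norm_eq_abs, abs_of_nonneg hR0]
        ring
      rw [e4]
      have h5 : 0 ≤ 1 - ρ := by linarith
      calc ENNReal.ofReal (‖(∑' n : ℕ, (ρ : ℂ) ^ n * c n)‖ * (r * (1 - r))) * ‖g ρ‖ₑ
          ≤ ENNReal.ofReal (400000 * D *
            ((1 - ρ) + pp ((1 - ρ) / v₁) + pp ((1 - ρ) / v₂))) * ‖g ρ‖ₑ := by
            gcongr
        _ = ENNReal.ofReal (400000 * D) * (ENNReal.ofReal (1 - ρ) +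
            ENNReal.ofReal (pp ((1 - ρ) / v₁)) + ENNReal.ofReal (pp ((1 - ρ) / v₂))) *
            ‖g ρ‖ₑ := by
            rw [ENNReal.ofReal_mul (by positivity), ENNReal.ofReal_add
              (add_nonneg h5 (pp_nonneg _)) (pp_nonneg _), ENNReal.ofReal_add h5 (pp_nonneg _)]
        _ = _ := by ring
  obtain ⟨l1, l2⟩ := lint h2 hr1 hM hD
  have hme : AEMeasurable (fun ρ => ‖g ρ‖ₑ) m := hD.meas.enorm
  have hq : Measurable (fun ρ : ℝ => 1 - ρ) := measurable_const.sub measurable_id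
  have hm1 : AEMeasurable (fun ρ : ℝ => ‖g ρ‖ₑ * ENNReal.ofReal (1 - ρ)) m :=
    hme.mul hq.ennreal_ofReal.aemeasurable
  have hm2 : AEMeasurable (fun ρ : ℝ => ‖g ρ‖ₑ * ENNReal.ofReal (pp ((1 - ρ) / v₁))) m :=
    hme.mul (meas_pp v₁).ennreal_ofReal.aemeasurable
  have hfin : ‖(∫ ρ : ℝ, ∑' n : ℕ, (ρ : ℂ) ^ n * g ρ * c n ∂m) * ((r * (1 - r) : ℝ) : ℂ)‖ₑ ≤
      ENNReal.ofReal (400000 * D * (24 * M)) := by
    rw [← integral_mul_const]
    refine (enorm_integral_le_lintegral_enorm _).trans ?_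
    refine (lintegral_mono_ae hb).trans ?_
    rw [lintegral_const_mul' _ _ ENNReal.ofReal_ne_top,
      lintegral_add_left' hm1, lintegral_add_left' hm2,
      ENNReal.ofReal_mul (p := 400000 * D) (q := 24 * M) (by positivity)]
    gcongr
    have e1 : ENNReal.ofReal (24 * M) = ENNReal.ofReal (8 * M) + (ENNReal.ofReal (8 * M) +
        ENNReal.ofReal (8 * M)) := by
      rw [← ENNReal.ofReal_add (by positivity) (by positivity),
        ← ENNReal.ofReal_add (by positivity) (by positivity)]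
      congr 1
      ring
    rw [e1]
    exact add_le_add l2 (add_le_add (l1 v₁ hv₁) (l1 v₂ hv₂))
  rw [← ofReal_norm, ENNReal.ofReal_le_ofReal_iff (by positivity), norm_mul,
    Complex.norm_real, Real.norm_eq_abs, abs_of_nonneg hR0] at hfin
  refine hfin.trans ?_
  have hMD : 0 ≤ M * D := mul_nonneg hM hD0
  nlinarith

end Pool.Agent.MultS.SG

end
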