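import Pool.Agent.Work.MP_b17785_an.SG.Stmts
import Pool.Agent.Work.MP_b17785_an.Bd.B01
import Pool.Agent.Work.MP_b17785_an.Bd.B02
import Pool.Agent.Work.MP_b17785_an.Bd.B03
import Pool.Agent.Work.MP_b17785_an.Gol.CrX

/-! Bundle of small proof modules (one section per former module). -/

section

/-!
# MP_b17785_an, block SG: item MaxP
-/

set_option autoImplicit false

open Complex Metric Set Filter Topology MeasureTheory
open scoped ENNReal ComplexConjugate

namespace Pool.Agent.MultS.SG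

namespace MaxPAux

theorem dslope_eq {f : ℂ → ℂ} {a u : ℂ} (h : u ≠ a) : dslope f a u = (f u - f a) / (u - a) := by
  rw [dslope_of_ne _ h, slope_def_field]

theorem exp_ne {t : ℝ} (h0 : 0 < t) (h1 : t < 1) : Complex.exp (t * I) ≠ 1 := by
  intro h
  rw [Complex.exp_eq_one_iff] at h
  obtain ⟨n, hn⟩ := h
  have h2 : (t : ℂ) = ((n * (2 * Real.pi) : ℝ) : ℂ) := by
    push_cast
    have : (t : ℂ) * I = (n * (2 * Real.pi)) * I := by rw [hn]; ring
    exact mul_right_cancel₀ I_ne_zero this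
  have h3 : t = n * (2 * Real.pi) := by exact_mod_cast h2
  have hpi := Real.pi_gt_three
  rcases lt_trichotomy n 0 with hn0 | hn0 | hn0
  · have : (n : ℝ) ≤ -1 := by exact_mod_cast (by omega : n ≤ -1)
    nlinarith
  · rw [hn0] at h3
    simp at h3
    linarith
  · have : (1 : ℝ) ≤ n := by exact_mod_cast (by omega : 1 ≤ n)
    nlinarith

theorem step {A V : ℂ → ℂ} {θ : ℝ} (hA : DifferentiableOn ℂ A (ball 0 1))
    (hV : DifferentiableOn ℂ V (ball 0 1)) (hi : InjOn A (ball 0 1)) {a : ℂ}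
    (ha : a ∈ ball (0 : ℂ) 1) {s : ℝ} (hs0 : 0 < s) (hs1 : s < 1)
    (H : ∀ u : ℂ, ‖u‖ = s → ‖V u - V a‖ ≤ θ * ‖A u - A a‖) :
    ∀ u : ℂ, ‖u‖ ≤ s → ‖V u - V a‖ ≤ θ * ‖A u - A a‖ := by
  have hnhds : ball (0 : ℂ) 1 ∈ 𝓝 a := isOpen_ball.mem_nhds ha
  have hdA : DifferentiableOn ℂ (dslope A a) (ball 0 1) :=
    (Complex.differentiableOn_dslope hnhds).2 hA
  have hdV : DifferentiableOn ℂ (dslope V a) (ball 0 1) :=
    (Complex.differentiableOn_dslope hnhds).2 hV
  have hne : ∀ u ∈ ball (0 : ℂ) 1, dslope A a u ≠ 0 := by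
    intro u hu
    rcases eq_or_ne u a with rfl | h
    · rw [dslope_same]
      exact prfDerNe _ _ isOpen_ball hA hi _ hu
    · rw [dslope_eq h]
      refine div_ne_zero (sub_ne_zero.2 ?_) (sub_ne_zero.2 h)
      intro h'
      exact h (hi hu ha h')
  have hq : DifferentiableOn ℂ (fun u => dslope V a u / dslope A a u) (ball 0 1) :=
    hdV.div hdA hne
  have hsub : ∀ u : ℂ, ‖u‖ ≤ s → u ∈ ball (0 : ℂ) 1 := by
    intro u hu
    rw [mem_ball_zero_iff]
    linarith
  have hqs : ∀ u : ℂ, ‖u‖ = s → u ≠ a → ‖dslope V a u / dslope A a u‖ ≤ θ := by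
    intro u hu hua
    have h1 := H u hu
    have h2 : A u - A a ≠ 0 := by
      refine sub_ne_zero.2 ?_
      intro h'
      exact hua (hi (hsub u hu.le) ha h')
    have h3 : u - a ≠ 0 := sub_ne_zero.2 hua
    rw [dslope_eq hua, dslope_eq hua]
    have h4 : (V u - V a) / (u - a) / ((A u - A a) / (u - a)) = (V u - V a) / (A u - A a) := by
      field_simp
    rw [h4, norm_div, div_le_iff₀ (norm_pos_iff.2 h2)]
    exact h1
  have hqs' : ∀ u : ℂ, ‖u‖ = s → ‖dslope V a u / dslope A a u‖ ≤ θ := by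
    intro u hu
    rcases eq_or_ne u a with h | h
    · subst h
      have hc : ContinuousAt (fun v => dslope V u v / dslope A u v) u :=
        (hq.differentiableAt (isOpen_ball.mem_nhds ha)).continuousAt
      have hg : Continuous (fun t : ℝ => u * Complex.exp (t * I)) := by fun_prop
      have hg0 : u * Complex.exp (((0 : ℝ) : ℂ) * I) = u := by simp
      have ht : Tendsto (fun t : ℝ => u * Complex.exp (t * I)) (𝓝[>] 0) (𝓝 u) := by
        have := (hg.tendsto 0).mono_left (nhdsWithin_le_nhds (s := Ioi (0 : ℝ)))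
        simpa only [hg0] using this
      have ht2 : Tendsto (fun t : ℝ => ‖dslope V u (u * Complex.exp (t * I)) /
          dslope A u (u * Complex.exp (t * I))‖) (𝓝[>] 0)
          (𝓝 ‖dslope V u u / dslope A u u‖) := (hc.tendsto.comp ht).norm
      refine le_of_tendsto ht2 ?_
      have hev : ∀ᶠ t : ℝ in 𝓝[>] 0, t ∈ Ioo (0 : ℝ) 1 :=
        Ioo_mem_nhdsGT zero_lt_one
      filter_upwards [hev] with t htt
      apply hqs
      · rw [norm_mul, Complex.norm_exp_ofReal_mul_I, mul_one, hu]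
      · intro h'
        have hu0 : u ≠ 0 := by
          intro h0
          rw [h0, norm_zero] at hu
          linarith
        have : Complex.exp (t * I) = 1 := by
          apply mul_left_cancel₀ hu0
          rw [h', mul_one]
        exact exp_ne htt.1 htt.2 this
    · exact hqs u hu h
  intro u hu
  rcases eq_or_ne u a with h | h
  · subst h
    simp
  · have hcl : closure (ball (0 : ℂ) s) = closedBall 0 s := closure_ball 0 hs0.ne'
    have hmax : ‖dslope V a u / dslope A a u‖ ≤ θ := by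
      refine Complex.norm_le_of_forall_mem_frontier_norm_le
        (f := fun v => dslope V a v / dslope A a v) (U := ball (0 : ℂ) s) isBounded_ball ?_ ?_ ?_
      · apply DifferentiableOn.diffContOnCl
        rw [hcl]
        exact hq.mono (fun v hv => hsub v (mem_closedBall_zero_iff.1 hv))
      · intro v hv
        rw [frontier_ball 0 hs0.ne'] at hv
        exact hqs' v (mem_sphere_zero_iff_norm.1 hv)
      · rw [hcl]
        exact mem_closedBall_zero_iff.2 hu
    have h2 : A u - A a ≠ 0 := by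
      refine sub_ne_zero.2 ?_
      intro h'
      exact h (hi (hsub u hu) ha h')
    have h3 : u - a ≠ 0 := sub_ne_zero.2 h
    rw [dslope_eq h, dslope_eq h] at hmax
    have h4 : (V u - V a) / (u - a) / ((A u - A a) / (u - a)) = (V u - V a) / (A u - A a) := by
      field_simp
    rw [h4, norm_div, div_le_iff₀ (norm_pos_iff.2 h2)] at hmax
    exact hmax

end MaxPAux

theorem prf_MaxP : MaxP := by
  intro A V θ _ hA hV hi H z hz w hw
  rw [mem_ball_zero_iff] at hz hw
  obtain ⟨s, hs, hs1⟩ := exists_between (max_lt hz hw)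
  have hzs : ‖z‖ < s := lt_of_le_of_lt (le_max_left _ _) hs
  have hws : ‖w‖ < s := lt_of_le_of_lt (le_max_right _ _) hs
  have hs0 : 0 < s := lt_of_le_of_lt (norm_nonneg _) hzs
  -- step 1
  have h1 : ∀ a : ℂ, ‖a‖ = s → ∀ u : ℂ, ‖u‖ ≤ s → ‖V u - V a‖ ≤ θ * ‖A u - A a‖ := by
    intro a ha
    refine MaxPAux.step hA hV hi (mem_ball_zero_iff.2 (by linarith)) hs0 hs1 ?_
    intro u hu
    exact H u a (by linarith) (by rw [ha, hu])
  -- step 2
  have h2 : ∀ u : ℂ, ‖u‖ ≤ s → ‖V u - V z‖ ≤ θ * ‖A u - A z‖ := by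
    refine MaxPAux.step hA hV hi (mem_ball_zero_iff.2 hz) hs0 hs1 ?_
    intro u hu
    rw [norm_sub_rev (V u), norm_sub_rev (A u)]
    exact h1 u hu z hzs.le
  rw [norm_sub_rev (V z), norm_sub_rev (A z)]
  exact h2 w hws.le

end Pool.Agent.MultS.SG

end

section

set_option autoImplicit false

open Complex Metric Set Filter Topology MeasureTheory
open scoped ENNReal ComplexConjugate

namespace Pool.Agent.MultS.SG

/-- [PS] Power series. -/
theorem prf_PS : PS := by
  refine ⟨fun f hf z hz => ?_, fun c G h => ?_⟩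
  · have h := Pool.Agent.MultS.hasSum_tc hf hz
    exact ⟨summable_norm_iff.mpr h.summable, h⟩
  · have hd := (Pool.Agent.MultS.fps_of_hasSum h).differentiableOn
    rw [← ENNReal.ofReal_one, Metric.eball_ofReal] at hd
    exact ⟨hd, fun n => Pool.Agent.MultS.tc_of_hasSum h n⟩

end Pool.Agent.MultS.SG

end

section

/-!
# MP_b17785_an, block SG: Goluzin's inequality for three points

The energy inequality of `Gol.prfCore` (`Bd/B03.lean`), tested with an arbitrary function `K`
instead of one kernel function, and then with the difference of two kernel functions.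
-/

set_option autoImplicit false

open Complex Metric Set Filter Topology MeasureTheory
open scoped ENNReal ComplexConjugate

namespace Pool.Agent.MultS.SG

namespace Tri0Aux

open Gol Gol.Core'

/-- pointwise inequality -/
theorem pointK (A H G : ℂ) :
    ‖A‖ ^ 2 + (2 * (conj A * H) + 2 * (conj G * H) - (conj G * G)).re ≤ ‖A + H‖ ^ 2 := by
  have h := point A H G 1
  have e : (2 * (conj A * H) + 2 * (conj (1 : ℂ) * (conj G * H)) -
      ((‖(1 : ℂ)‖ ^ 2 : ℝ) : ℂ) * (conj G * G)) =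
      2 * (conj A * H) + 2 * (conj G * H) - (conj G * G) := by
    simp
  rw [e] at h
  exact h

/-- the family of inequalities -/
theorem ineqK (hL : LowA) (hU : Upp) (f : ℂ → ℂ) (P : ℝ) (hN : Nice f P) (x : ℂ) (hx0 : 0 < ‖x‖)
    (hx1 : ‖x‖ < 1) (φ : ℂ → ℂ) (hφ : DifferentiableOn ℂ φ (ball 0 P)) (K : ℂ → ℂ) (hKc : ContinuousOn K (closedBall 0 1))
    (hrel : ∀ z ∈ ball (0 : ℂ) P, z ≠ 0 → 1 / f z - 1 / f x = (1 / z - 1 / x) * Complex.exp (φ z))
    (s δ R : ℝ) (hs0 : 0 < s) (hs1 : s < ‖x‖)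
    (hc1 : 1 + 1 / ‖x‖ < 1 / s - 1 / ‖x‖) (hc2 : s / (‖x‖ * (‖x‖ - s)) < 1 / ‖x‖ - 1)
    (hδ : 0 < δ) (hR : δ < R)
    (hb : ∀ z ∈ Ds x s, δ < ‖(1 / z - 1 / x) * Complex.exp (φ z)‖ ∧
        ‖(1 / z - 1 / x) * Complex.exp (φ z)‖ < R) :
    2 * Real.pi * Real.log ((1 / s - 1 / ‖x‖) / (s / (‖x‖ * (‖x‖ - s)))) +
      Real.pi * Real.log (1 - ‖x‖ ^ 2) +
      (∫ z in Ds x s, (2 * (conj (AA x z) * deriv φ z) + 2 * (conj (K z) * deriv φ z) -
      (conj (K z) * K z))).re ≤ 2 * Real.pi * Real.log (R / δ) := by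
  obtain ⟨hP, hf, hinj, hf0, -⟩ := hN
  have hsub : Ds x s ⊆ ball 0 P := fun z hz => ball_subset_ball hP.le (Ds_sub x s hz)
  have hz0 : ∀ z ∈ Ds x s, z ≠ 0 := by
    intro z hz h
    have := (mem_Ds hz).2.1
    rw [h, norm_zero] at this
    linarith
  have hzx : ∀ z ∈ Ds x s, z - x ≠ 0 := by
    intro z hz h
    have := (mem_Ds hz).2.2
    rw [h, norm_zero] at this
    linarith
  have hH : DifferentiableOn ℂ (deriv φ) (ball 0 P) := hφ.deriv isOpen_ball
  have hcl : closedBall (0:ℂ) 1 ⊆ ball 0 P := closedBall_subset_ball hP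
  have hHc : ContinuousOn (deriv φ) (closedBall (0:ℂ) 1) := hH.continuousOn.mono hcl
  have hmD := (isOpen_Ds x s).measurableSet
  -- bounded pieces
  have hxne : x ≠ 0 := norm_pos_iff.1 hx0
  have hAc : ContinuousOn (AA x) (Ds x s) := by
    unfold AA
    apply ContinuousOn.sub
    · exact ContinuousOn.div continuousOn_const (by fun_prop) hzx
    · exact ContinuousOn.div continuousOn_const (by fun_prop) hz0
  have hAb : ∀ z ∈ Ds x s, ‖AA x z‖ ≤ 2 / s := by
    intro z hz
    obtain ⟨-, h2, h3⟩ := mem_Ds hz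
    unfold AA
    calc ‖1 / (z - x) - 1 / z‖ ≤ ‖1 / (z - x)‖ + ‖1 / z‖ := norm_sub_le _ _
      _ = 1 / ‖z - x‖ + 1 / ‖z‖ := by simp
      _ ≤ 1 / s + 1 / s := by gcongr
      _ = 2 / s := by ring
  obtain ⟨M, hM⟩ := (isCompact_closedBall (0:ℂ) 1).exists_bound_of_continuousOn hHc
  obtain ⟨M', hM'⟩ := (isCompact_closedBall (0:ℂ) 1).exists_bound_of_continuousOn hKc
  have hDcl : Ds x s ⊆ closedBall 0 1 := fun z hz => ball_subset_closedBall (Ds_sub x s hz)
  have hvol : volume (Ds x s) < ⊤ := lt_of_le_of_lt (measure_mono (Ds_sub x s)) measure_ball_lt_top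
  have hfin : IsFiniteMeasure (volume.restrict (Ds x s)) := ⟨by simpa using hvol⟩
  have hHc' : ContinuousOn (deriv φ) (Ds x s) := hHc.mono hDcl
  have hGc' : ContinuousOn K (Ds x s) := hKc.mono hDcl
  have hbdd : ∀ (u : ℂ → ℝ), ContinuousOn u (Ds x s) → (∃ C, ∀ z ∈ Ds x s, ‖u z‖ ≤ C) →
      IntegrableOn u (Ds x s) := by
    intro u hu ⟨C, hC⟩
    refine Integrable.mono' (integrable_const C) (hu.aestronglyMeasurable hmD) ?_
    rw [ae_restrict_iff' hmD]
    exact ae_of_all _ hC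
  have hbddC : ∀ (u : ℂ → ℂ), ContinuousOn u (Ds x s) → (∃ C, ∀ z ∈ Ds x s, ‖u z‖ ≤ C) →
      IntegrableOn u (Ds x s) := by
    intro u hu ⟨C, hC⟩
    refine Integrable.mono' (integrable_const C) (hu.aestronglyMeasurable hmD) ?_
    rw [ae_restrict_iff' hmD]
    exact ae_of_all _ hC
  have hi1 : IntegrableOn (fun z => ‖AA x z‖ ^ 2) (Ds x s) := by
    apply hbdd _ (hAc.norm.pow 2)
    refine ⟨(2 / s) ^ 2, fun z hz => ?_⟩
    show ‖‖AA x z‖ ^ 2‖ ≤ _
    rw [Real.norm_of_nonneg (by positivity)]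
    exact pow_le_pow_left₀ (norm_nonneg _) (hAb z hz) 2
  have hi2 : IntegrableOn (fun z => ‖AA x z + deriv φ z‖ ^ 2) (Ds x s) := by
    apply hbdd _ ((hAc.add hHc').norm.pow 2)
    refine ⟨(2 / s + M) ^ 2, fun z hz => ?_⟩
    show ‖‖AA x z + deriv φ z‖ ^ 2‖ ≤ _
    rw [Real.norm_of_nonneg (by positivity)]
    apply pow_le_pow_left₀ (norm_nonneg _)
    exact (norm_add_le _ _).trans (add_le_add (hAb z hz) (hM z (hDcl hz)))
  have hcA : ContinuousOn (fun z => conj (AA x z)) (Ds x s) :=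
    Complex.continuous_conj.comp_continuousOn hAc
  have hcG : ContinuousOn (fun z => conj (K z)) (Ds x s) :=
    Complex.continuous_conj.comp_continuousOn hGc'
  have hM0 : ∀ z ∈ Ds x s, ‖deriv φ z‖ ≤ M := fun z hz => hM z (hDcl hz)
  have hM0' : ∀ z ∈ Ds x s, ‖K z‖ ≤ M' := fun z hz => hM' z (hDcl hz)
  set g : ℂ → ℂ := fun z => 2 * (conj (AA x z) * deriv φ z) +
      2 * (conj (K z) * deriv φ z) -
      (conj (K z) * K z) with hg
  have hi3 : IntegrableOn g (Ds x s) := by
    apply Integrable.sub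
    · apply Integrable.add
      · apply Integrable.const_mul
        apply hbddC _ (hcA.mul hHc')
        refine ⟨2 / s * M, fun z hz => ?_⟩
        show ‖conj (AA x z) * deriv φ z‖ ≤ _
        rw [norm_mul, Complex.norm_conj]
        exact mul_le_mul (hAb z hz) (hM0 z hz) (norm_nonneg _) (by positivity)
      · apply Integrable.const_mul
        apply hbddC _ (hcG.mul hHc')
        refine ⟨M' * M, fun z hz => ?_⟩
        show ‖conj (K z) * deriv φ z‖ ≤ _
        rw [norm_mul, Complex.norm_conj]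
        exact mul_le_mul (hM0' z hz) (hM0 z hz) (norm_nonneg _) ((norm_nonneg _).trans (hM0' z hz))
    · apply hbddC _ (hcG.mul hGc')
      refine ⟨M' * M', fun z hz => ?_⟩
      show ‖conj (K z) * K z‖ ≤ _
      rw [norm_mul, Complex.norm_conj]
      exact mul_le_mul (hM0' z hz) (hM0' z hz) (norm_nonneg _)
        ((norm_nonneg _).trans (hM0' z hz))
  -- lower bound
  have hlow := hL x s hx0 hx1 hs0 hs1 hc1 hc2
  rw [← ofReal_integral_eq_lintegral_ofReal hi1 (ae_of_all _ fun z => sq_nonneg _)] at hlow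
  have hlow' : 2 * Real.pi * Real.log ((1 / s - 1 / ‖x‖) / (s / (‖x‖ * (‖x‖ - s)))) +
      Real.pi * Real.log (1 - ‖x‖ ^ 2) ≤ ∫ z in Ds x s, ‖AA x z‖ ^ 2 :=
    (ENNReal.ofReal_le_ofReal_iff (integral_nonneg fun z => by positivity)).1 hlow
  -- upper bound
  set m : ℂ → ℂ := fun z => (1 / z - 1 / x) * Complex.exp (φ z) with hm
  have hmder : ∀ z ∈ Ds x s, HasDerivAt m
      (-(1 / z ^ 2) * Complex.exp (φ z) + (1 / z - 1 / x) * (Complex.exp (φ z) * deriv φ z)) z := by
    intro z hz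
    have h1 : HasDerivAt (fun z : ℂ => 1 / z - 1 / x) (-(1 / z ^ 2)) z := by
      have := (hasDerivAt_inv (hz0 z hz)).sub_const (1 / x)
      simpa [one_div] using this
    have h2 : HasDerivAt φ (deriv φ z) z :=
      (hφ.differentiableAt (isOpen_ball.mem_nhds (hsub hz))).hasDerivAt
    exact h1.mul h2.cexp
  have hquot : ∀ z ∈ Ds x s, deriv m z / m z = AA x z + deriv φ z := by
    intro z hz
    rw [(hmder z hz).deriv, hm]
    have e0 := Complex.exp_ne_zero (φ z)
    have e1 := hz0 z hz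
    have e2 := hzx z hz
    have e3 : 1 / z - 1 / x ≠ 0 := by
      rw [div_sub_div _ _ e1 hxne]
      apply div_ne_zero _ (mul_ne_zero e1 hxne)
      intro h
      apply e2
      linear_combination -h
    have e4 : x - z ≠ 0 := by
      intro h; apply e2; linear_combination -h
    unfold AA
    rw [div_eq_iff (mul_ne_zero e3 e0)]
    field_simp
    ring
  have hmdiff : DifferentiableOn ℂ m (Ds x s) := fun z hz =>
    (hmder z hz).differentiableAt.differentiableWithinAt
  have hminj : InjOn m (Ds x s) := by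
    intro z hz w hw h
    simp only [hm] at h
    rw [← hrel z (hsub hz) (hz0 z hz), ← hrel w (hsub hw) (hz0 w hw)] at h
    have h1 : 1 / f z = 1 / f w := by linear_combination h
    have h2 : f z = f w := by
      have := congrArg (fun t => t⁻¹) h1
      simpa using this
    exact hinj (hsub hz) (hsub hw) h2
  have hup := hU m (Ds x s) δ R (isOpen_Ds x s) hmdiff hminj hδ hR hb
  have hup1 : ∫⁻ z in Ds x s, ENNReal.ofReal (‖deriv m z / m z‖ ^ 2) =
      ∫⁻ z in Ds x s, ENNReal.ofReal (‖AA x z + deriv φ z‖ ^ 2) := by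
    apply setLIntegral_congr_fun hmD
    intro z hz
    simp only []
    rw [hquot z hz]
  rw [hup1, ← ofReal_integral_eq_lintegral_ofReal hi2 (ae_of_all _ fun z => sq_nonneg _)] at hup
  have hlogpos : 0 ≤ 2 * Real.pi * Real.log (R / δ) := by
    have : 0 < Real.log (R / δ) := Real.log_pos (by rw [one_lt_div hδ]; exact hR)
    have := Real.pi_pos
    positivity
  have hup' : ∫ z in Ds x s, ‖AA x z + deriv φ z‖ ^ 2 ≤ 2 * Real.pi * Real.log (R / δ) :=
    (ENNReal.ofReal_le_ofReal_iff hlogpos).1 hup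
  -- combine
  have hre : (∫ z in Ds x s, g z).re = ∫ z in Ds x s, (g z).re := by
    have := integral_re hi3
    simpa using this.symm
  have hi3r : IntegrableOn (fun z => (g z).re) (Ds x s) := hi3.re
  have hcomb : (∫ z in Ds x s, ‖AA x z‖ ^ 2) + (∫ z in Ds x s, (g z).re) ≤
      ∫ z in Ds x s, ‖AA x z + deriv φ z‖ ^ 2 := by
    rw [← integral_add hi1 hi3r]
    apply integral_mono (hi1.add hi3r) hi2
    intro z
    exact pointK (AA x z) (deriv φ z) (K z)
  rw [hre]
  linarith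

/-- the energy inequality tested with `K` -/
theorem coreK (hI : InvR) (hX : CrX) (hL : LowA) (hU : Upp) (hB : Bds)
    (hD : LimD) (f : ℂ → ℂ) (P : ℝ) (hN : Nice f P) (x : ℂ) (hx0 : 0 < ‖x‖) (hx1 : ‖x‖ < 1)
    (φ : ℂ → ℂ) (hφ : DifferentiableOn ℂ φ (ball 0 P)) (hφ0 : φ 0 = 0)
    (hrel : ∀ z ∈ ball (0 : ℂ) P, z ≠ 0 →
      1 / f z - 1 / f x = (1 / z - 1 / x) * Complex.exp (φ z))
    (K : ℂ → ℂ) (hKc : ContinuousOn K (closedBall 0 1)) :
    Real.pi * Real.log (1 - ‖x‖ ^ 2) +
      2 * (∫ z in ball (0 : ℂ) 1, conj (K z) * deriv φ z).re -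
      (∫ z in ball (0 : ℂ) 1, conj (K z) * K z).re ≤ 0 := by
  have hN' := hN
  obtain ⟨hP, hf, hinj, hf0, -⟩ := hN'
  have hxne : x ≠ 0 := norm_pos_iff.1 hx0
  have hH : DifferentiableOn ℂ (deriv φ) (ball 0 P) := hφ.deriv isOpen_ball
  have hcl : closedBall (0:ℂ) 1 ⊆ ball 0 P := closedBall_subset_ball hP
  have hHc : ContinuousOn (deriv φ) (closedBall (0:ℂ) 1) := hH.continuousOn.mono hcl
  have hGc := hKc
  have hcGc : ContinuousOn (fun z => conj (K z)) (closedBall (0:ℂ) 1) :=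
    Complex.continuous_conj.comp_continuousOn hGc
  set g : ℂ → ℂ := fun z => 2 * (conj (AA x z) * deriv φ z) +
      2 * (conj (K z) * deriv φ z) -
      (conj (K z) * K z) with hg
  have iX : IntegrableOn (fun z => conj (1 / (z - x)) * deriv φ z) (ball (0:ℂ) 1) :=
    integ_mul _ _ (integ_inv hI x) hHc
  have i0 : IntegrableOn (fun z => conj (1 / (z - 0)) * deriv φ z) (ball (0:ℂ) 1) :=
    integ_mul _ _ (integ_inv hI 0) hHc
  have iA : IntegrableOn (fun z => conj (AA x z) * deriv φ z) (ball (0:ℂ) 1) := by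
    refine (iX.sub i0).congr (ae_of_all _ fun z => ?_)
    simp only [Pi.sub_apply, AA, map_sub, sub_zero]
    ring
  have iG : IntegrableOn (fun z => conj (K z) * deriv φ z) (ball (0:ℂ) 1) :=
    integ_cont _ (hcGc.mul hHc)
  have iGG : IntegrableOn (fun z => conj (K z) * K z) (ball (0:ℂ) 1) :=
    integ_cont _ (hcGc.mul hGc)
  have ig : IntegrableOn g (ball (0:ℂ) 1) :=
    ((iA.const_mul 2).add (iG.const_mul 2)).sub iGG
  have vA : ∫ z in ball (0:ℂ) 1, conj (AA x z) * deriv φ z = -(Real.pi : ℂ) * φ x := by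
    have e1 : ∫ z in ball (0:ℂ) 1, conj (AA x z) * deriv φ z =
        (∫ z in ball (0:ℂ) 1, conj (1 / (z - x)) * deriv φ z) -
        ∫ z in ball (0:ℂ) 1, conj (1 / (z - 0)) * deriv φ z := by
      rw [← integral_sub iX i0]
      apply integral_congr_ae
      refine ae_of_all _ fun z => ?_
      simp only [AA, map_sub, sub_zero]
      ring
    rw [e1, hX φ P hP hφ x hx1, hX φ P hP hφ 0 (by simp), hφ0]
    ring
  set I1 : ℂ := ∫ z in ball (0 : ℂ) 1, conj (K z) * deriv φ z with hI1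
  set I2 : ℂ := ∫ z in ball (0 : ℂ) 1, conj (K z) * K z with hI2
  have vg : ∫ z in ball (0:ℂ) 1, g z = -2 * (Real.pi : ℂ) * φ x + 2 * I1 - I2 := by
    have jA : IntegrableOn (fun z => 2 * (conj (AA x z) * deriv φ z)) (ball (0:ℂ) 1) :=
      iA.const_mul 2
    have jG : IntegrableOn (fun z => 2 * (conj (K z) * deriv φ z))
        (ball (0:ℂ) 1) := iG.const_mul 2
    have jAG : IntegrableOn (fun z => 2 * (conj (AA x z) * deriv φ z) +
      2 * (conj (K z) * deriv φ z)) (ball (0:ℂ) 1) := jA.add jG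
    have e1 : ∫ z in ball (0:ℂ) 1, g z = (∫ z in ball (0:ℂ) 1, (2 * (conj (AA x z) * deriv φ z) +
      2 * (conj (K z) * deriv φ z))) -
      ∫ z in ball (0:ℂ) 1, (conj (K z) * K z) :=
      integral_sub jAG iGG
    have e2 : (∫ z in ball (0:ℂ) 1, (2 * (conj (AA x z) * deriv φ z) +
      2 * (conj (K z) * deriv φ z))) =
      (∫ z in ball (0:ℂ) 1, 2 * (conj (AA x z) * deriv φ z)) +
      ∫ z in ball (0:ℂ) 1, 2 * (conj (K z) * deriv φ z) := integral_add jA jG
    rw [e1, e2, integral_const_mul, integral_const_mul, vA]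
    ring
  have hlim := hD x g ig
  have hlimre : Tendsto (fun s : ℝ => (∫ z in Ds x s, g z).re) (𝓝[>] 0)
      (𝓝 (∫ z in ball (0 : ℂ) 1, g z).re) := (Complex.continuous_re.tendsto _).comp hlim
  have hpi := Real.pi_pos
  -- the inequality for each η
  have hη : ∀ η : ℝ, 0 < η → η < 1 →
      Real.pi * Real.log (1 - ‖x‖ ^ 2) + (∫ z in ball (0 : ℂ) 1, g z).re ≤
        2 * Real.pi * (Real.log ((1 + η) / (1 - η)) - (φ x).re) := by
    intro η hη0 hη1
    have hev1 : ∀ᶠ s in 𝓝[>] (0:ℝ), 0 < s := self_mem_nhdsWithin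
    have t0 : Tendsto (fun s : ℝ => s) (𝓝[>] 0) (𝓝 0) := nhdsWithin_le_nhds
    have hev2 : ∀ᶠ s in 𝓝[>] (0:ℝ), s < ‖x‖ := t0.eventually_lt_const hx0
    have hev3 : ∀ᶠ s in 𝓝[>] (0:ℝ), s < 1 / (1 + 2 / ‖x‖) :=
      t0.eventually_lt_const (by positivity)
    have hev4 : ∀ᶠ s in 𝓝[>] (0:ℝ), s / (‖x‖ * (‖x‖ - s)) < 1 / ‖x‖ - 1 := by
      have t1 : Tendsto (fun s : ℝ => s / (‖x‖ * (‖x‖ - s))) (𝓝[>] 0)
          (𝓝 (0 / (‖x‖ * (‖x‖ - 0)))) := by
        apply Tendsto.div t0
        · exact (tendsto_const_nhds.sub t0).const_mul _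
        · rw [sub_zero]; positivity
      apply t1.eventually_lt_const
      rw [zero_div, sub_pos, one_lt_div hx0]
      exact hx1
    have hev5 : ∀ᶠ s in 𝓝[>] (0:ℝ), s < 1 / (2 * (Real.exp (φ x).re / ‖x‖ ^ 2 + 1)) :=
      t0.eventually_lt_const (by positivity)
    have hev6 := hB φ P hP hφ hφ0 x hx0 hx1 η hη0 hη1
    have hev : ∀ᶠ s in 𝓝[>] (0:ℝ), Real.pi * Real.log (1 - ‖x‖ ^ 2) + (∫ z in Ds x s, g z).re ≤
        2 * Real.pi * (Real.log ((1 + η) / (1 - η)) - (φ x).re -
          2 * Real.log (1 - s / ‖x‖)) := by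
      filter_upwards [hev1, hev2, hev3, hev4, hev5, hev6] with s h1 h2 h3 h4 h5 h6
      have hs1 : s < 1 := h2.trans hx1
      set δ : ℝ := (1 - η) * s * Real.exp (φ x).re / ‖x‖ ^ 2 with hδ
      have hη' : 0 < 1 - η := by linarith
      have hδ0 : 0 < δ := by positivity
      set E : ℝ := Real.exp (φ x).re / ‖x‖ ^ 2 with hE
      have hE0 : 0 < E := by positivity
      have hδE : δ = (1 - η) * s * E := by rw [hδ, hE]; ring
      have hδR : δ < (1 + η) / s := by
        rw [lt_div_iff₀ h1, hδE]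
        have hsE : s * E < 1 := by
          have : s * (2 * (E + 1)) < 1 := by
            rwa [lt_div_iff₀ (by positivity)] at h5
          nlinarith
        have : (1 - η) * s * E * s = (1 - η) * (s * E) * s := by ring
        rw [this]
        have h8 : (1 - η) * (s * E) < 1 := by nlinarith [mul_pos h1 hE0]
        nlinarith [mul_pos hη' (mul_pos h1 hE0)]
      have hc1 : 1 + 1 / ‖x‖ < 1 / s - 1 / ‖x‖ := by
        have : 1 + 2 / ‖x‖ < 1 / s := by
          rw [lt_div_iff₀ (by positivity)] at h3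
          rw [lt_div_iff₀ h1]; linarith
        have e : 2 / ‖x‖ = 1 / ‖x‖ + 1 / ‖x‖ := by ring
        linarith
      have key := ineqK hL hU f P hN x hx0 hx1 φ hφ K hKc hrel s δ ((1 + η) / s) h1 h2 hc1 h4
        hδ0 hδR h6
      have hxs : 0 < ‖x‖ - s := by linarith
      have hxs' : 0 < 1 - s / ‖x‖ := by
        rw [sub_pos, div_lt_one hx0]; exact h2
      have hq1 : (1 + η) / s / δ = (1 + η) / (1 - η) * (‖x‖ ^ 2 / s ^ 2) *
          Real.exp (-(φ x).re) := by
        rw [hδ, Real.exp_neg]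
        field_simp
      have hq2 : (1 / s - 1 / ‖x‖) / (s / (‖x‖ * (‖x‖ - s))) =
          (‖x‖ ^ 2 / s ^ 2) * (1 - s / ‖x‖) ^ 2 := by
        field_simp
      have hlog1 : Real.log ((1 + η) / s / δ) = Real.log ((1 + η) / (1 - η)) +
          Real.log (‖x‖ ^ 2 / s ^ 2) - (φ x).re := by
        rw [hq1, Real.log_mul (by positivity) (by positivity), Real.log_exp,
          Real.log_mul (by positivity) (by positivity)]
        ring
      have hlog2 : Real.log ((1 / s - 1 / ‖x‖) / (s / (‖x‖ * (‖x‖ - s)))) =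
          Real.log (‖x‖ ^ 2 / s ^ 2) + 2 * Real.log (1 - s / ‖x‖) := by
        rw [hq2, Real.log_mul (by positivity) (by positivity), Real.log_pow]
        push_cast; ring
      rw [hlog1, hlog2] at key
      nlinarith
    have hR : Tendsto (fun s : ℝ => 2 * Real.pi * (Real.log ((1 + η) / (1 - η)) - (φ x).re -
          2 * Real.log (1 - s / ‖x‖))) (𝓝[>] 0)
        (𝓝 (2 * Real.pi * (Real.log ((1 + η) / (1 - η)) - (φ x).re -
          2 * Real.log (1 - 0 / ‖x‖)))) := by
      apply Tendsto.const_mul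
      apply Tendsto.const_sub
      apply Tendsto.const_mul
      apply Tendsto.log
      · exact (t0.div_const _).const_sub 1
      · simp
    have hL' := hlimre.const_add (Real.pi * Real.log (1 - ‖x‖ ^ 2))
    have := le_of_tendsto_of_tendsto hL' hR hev
    simpa using this
  -- η → 0
  have hfin : Real.pi * Real.log (1 - ‖x‖ ^ 2) + (∫ z in ball (0 : ℂ) 1, g z).re ≤
        2 * Real.pi * (0 - (φ x).re) := by
    have t0 : Tendsto (fun η : ℝ => η) (𝓝[>] 0) (𝓝 0) := nhdsWithin_le_nhds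
    have t1 : Tendsto (fun η : ℝ => 2 * Real.pi * (Real.log ((1 + η) / (1 - η)) - (φ x).re))
        (𝓝[>] 0) (𝓝 (2 * Real.pi * (Real.log ((1 + 0) / (1 - 0)) - (φ x).re))) := by
      apply Tendsto.const_mul
      apply Tendsto.sub_const
      apply Tendsto.log
      · apply Tendsto.div (t0.const_add 1) (t0.const_sub 1)
        norm_num
      · norm_num
    have t2 := ge_of_tendsto t1 (b := Real.pi * Real.log (1 - ‖x‖ ^ 2) +
      (∫ z in ball (0 : ℂ) 1, g z).re) (by
        filter_upwards [self_mem_nhdsWithin, t0.eventually_lt_const one_pos] with η h1 h2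
        exact hη η h1 h2)
    simpa using t2
  rw [vg] at hfin
  have hre : (-2 * (Real.pi : ℂ) * φ x + 2 * I1 - I2).re =
      -2 * Real.pi * (φ x).re + 2 * I1.re - I2.re := by
    rw [Complex.sub_re, Complex.add_re]
    have e1 : (-2 * (Real.pi : ℂ) * φ x).re = -2 * Real.pi * (φ x).re := by
      have : -2 * (Real.pi : ℂ) * φ x = ((-2 * Real.pi : ℝ) : ℂ) * φ x := by push_cast; ring
      rw [this, Complex.re_ofReal_mul]
    have e2 : (2 * I1).re = 2 * I1.re := by
      have : (2 : ℂ) = ((2 : ℝ) : ℂ) := by norm_num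
      rw [this, Complex.re_ofReal_mul]
    rw [e1, e2]
  rw [hre] at hfin
  linarith

/-- the inner product of two kernels -/
theorem kern (hY : CrY) (u v : ℂ) (hu : ‖u‖ < 1) (hv : ‖v‖ < 1) :
    (∫ z in ball (0 : ℂ) 1, conj (GG u z) * GG v z).re =
      -(Real.pi * Real.log ‖1 - conj v * u‖) := by
  rcases eq_or_ne v 0 with rfl | hv0
  · simp [GG]
  obtain ⟨h1, h2, h3⟩ := log_diff v (norm_pos_iff.2 hv0) hv
  have h4 := hY _ _ h1 h2 u hu
  have h5 : ∫ z in ball (0 : ℂ) 1, conj (GG u z) * GG v z =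
      ∫ z in ball (0 : ℂ) 1, conj (GG u z) *
        deriv (fun z : ℂ => -Complex.log (1 - conj v * z)) z := by
    apply setIntegral_congr_fun measurableSet_ball
    intro z hz
    have : z ∈ ball (0 : ℂ) (1 / ‖v‖) := ball_subset_ball h1.le hz
    simp only []
    rw [(h3 z this).deriv]
  rw [h5, h4]
  simp only [mul_zero, sub_zero, Complex.log_one, neg_zero]
  rw [Complex.re_ofReal_mul, Complex.neg_re, Complex.log_re]
  ring

end Tri0Aux

open Gol Gol.Core' Tri0Aux in
theorem prf_Tri0 : Tri0 := by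
  intro f P hN x hx0 hx1 φ hφ hφ0 hrel y z hy hz
  obtain ⟨hP, -⟩ := id hN
  have hKc : ContinuousOn (fun t => GG z t - GG y t) (closedBall (0 : ℂ) 1) :=
    (GG_cont z hz).sub (GG_cont y hy)
  have hY := prfCrY
  have h := coreK prfInvR (prfCrX prfInvR) (prfLowA prfAnnE prfDiscE) (prfUpp prfAnnE) prfBds
    prfLimD f P hN x hx0 hx1 φ hφ hφ0 hrel _ hKc
  have hcl : closedBall (0:ℂ) 1 ⊆ ball 0 P := closedBall_subset_ball hP
  have hHc : ContinuousOn (deriv φ) (closedBall (0:ℂ) 1) :=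
    (hφ.deriv isOpen_ball).continuousOn.mono hcl
  have hcG : ∀ u : ℂ, ‖u‖ < 1 → ContinuousOn (fun t => conj (GG u t)) (closedBall (0:ℂ) 1) :=
    fun u hu => Complex.continuous_conj.comp_continuousOn (GG_cont u hu)
  have i1 : ∀ u : ℂ, ‖u‖ < 1 → IntegrableOn (fun t => conj (GG u t) * deriv φ t)
      (ball (0 : ℂ) 1) := fun u hu => integ_cont _ ((hcG u hu).mul hHc)
  have i2 : ∀ u v : ℂ, ‖u‖ < 1 → ‖v‖ < 1 → IntegrableOn (fun t => conj (GG u t) * GG v t)
      (ball (0 : ℂ) 1) := fun u v hu hv => integ_cont _ ((hcG u hu).mul (GG_cont v hv))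
  have e1 : ∫ t in ball (0 : ℂ) 1, conj (GG z t - GG y t) * deriv φ t =
      (Real.pi : ℂ) * φ z - (Real.pi : ℂ) * φ y := by
    have e2 : (fun t => conj (GG z t - GG y t) * deriv φ t) =
        fun t => conj (GG z t) * deriv φ t - conj (GG y t) * deriv φ t := by
      funext t
      rw [map_sub]
      ring
    rw [e2, integral_sub (i1 z hz) (i1 y hy), hY φ P hP hφ z hz, hY φ P hP hφ y hy, hφ0,
      sub_zero, sub_zero]
  have e3 : (∫ t in ball (0 : ℂ) 1, conj (GG z t - GG y t) * (GG z t - GG y t)).re =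
      -(Real.pi * Real.log (1 - ‖z‖ ^ 2)) - (Real.pi * Real.log (1 - ‖y‖ ^ 2)) +
        2 * (Real.pi * Real.log ‖1 - conj y * z‖) := by
    have e4 : (fun t => conj (GG z t - GG y t) * (GG z t - GG y t)) =
        fun t => (conj (GG z t) * GG z t - conj (GG z t) * GG y t) -
          (conj (GG y t) * GG z t - conj (GG y t) * GG y t) := by
      funext t
      rw [map_sub]
      ring
    have nn : ∀ u : ℂ, ‖u‖ < 1 → ‖1 - conj u * u‖ = 1 - ‖u‖ ^ 2 := by
      intro u hu
      have h6 : (1 : ℂ) - conj u * u = ((1 - ‖u‖ ^ 2 : ℝ) : ℂ) := by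
        rw [mul_comm, Complex.mul_conj, Complex.normSq_eq_norm_sq]
        push_cast; ring
      rw [h6, Complex.norm_real, Real.norm_of_nonneg]
      nlinarith [norm_nonneg u]
    have sym : ‖1 - conj z * y‖ = ‖1 - conj y * z‖ := by
      rw [← Complex.norm_conj]
      congr 1
      simp
      ring
    have j1 : IntegrableOn (fun t => conj (GG z t) * GG z t - conj (GG z t) * GG y t)
        (ball (0 : ℂ) 1) := (i2 z z hz hz).sub (i2 z y hz hy)
    have j2 : IntegrableOn (fun t => conj (GG y t) * GG z t - conj (GG y t) * GG y t)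
        (ball (0 : ℂ) 1) := (i2 y z hy hz).sub (i2 y y hy hy)
    rw [e4, integral_sub j1 j2,
      integral_sub (i2 z z hz hz) (i2 z y hz hy), integral_sub (i2 y z hy hz) (i2 y y hy hy),
      Complex.sub_re, Complex.sub_re, Complex.sub_re, kern hY z z hz hz, kern hY z y hz hy,
      kern hY y z hy hz, kern hY y y hy hy, nn z hz, nn y hy, sym]
    ring
  rw [e1, e3, Complex.sub_re, Complex.re_ofReal_mul, Complex.re_ofReal_mul] at h
  have hpi := Real.pi_pos
  nlinarith

end Pool.Agent.MultS.SG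

end
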