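import Pool.Agent.Work.MP_b17785_an.SG.Stmts
import Pool.Agent.Work.MP_b17785_an.Bd.B04
import Pool.Agent.Work.MP_b17785_an.LB.NbX
import Pool.Agent.Work.MP_b17785_an.Gol

/-! Bundle of small proof modules (one section per former module). -/

section

set_option autoImplicit false

/-!
# MP_b17785_an, block SG: the Koebe transform
-/

open Complex Metric Set Filter Topology MeasureTheory
open scoped ENNReal ComplexConjugate

namespace Pool.Agent.MultS.SG

open Pool.Agent.RMT in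
theorem prf_KT : KT := by
  intro f hf b hb
  have hb1 : ‖b‖ < 1 := by simpa using hb
  refine ⟨prfDerNe _ f isOpen_ball hf.1 hf.2.1 b hb, K4.kt f b, K4.sc_kt hf hb, ?_⟩
  intro x hx
  have hx1 : ‖x‖ < 1 := by simpa using hx
  refine ⟨mob_mapsTo hb1 hx, ?_⟩
  have h1 : mob (-b) ((x - b) / (1 - conj b * x)) = x := mob_neg_mob hb1 hx1
  have h2 : (1 - (‖b‖ : ℂ) ^ 2) = 1 - (starRingEnd ℂ) b * b := by
    rw [Complex.conj_mul']
  rw [h2]
  unfold K4.kt
  rw [h1]

end Pool.Agent.MultS.SG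

end

section

/-!
# Semigroups from the Lipschitz norm (block SG)
-/

set_option autoImplicit false

open Complex Metric Set Filter Topology MeasureTheory
open scoped ENNReal ComplexConjugate

namespace Pool.Agent.MultS.SG

namespace LipGAux

theorem lit_one : Lit Sc (fun _ => (1 : ℂ)) := by
  have h := lit_rot (x := (1 : ℂ)) (by simp)
  simpa using h

theorem exp_bd {x : ℝ} (hx0 : 0 ≤ x) (hx1 : x ≤ 1) :
    x / 16 ≤ (1 - Real.exp (-x)) / (1 + Real.exp (-x)) ^ 3 := by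
  have h1 : Real.exp (-x) ≤ 1 - x / 2 := by
    have h2 : 1 + x ≤ Real.exp x := by linarith [Real.add_one_le_exp x]
    have h3 : Real.exp (-x) * Real.exp x = 1 := by
      rw [← Real.exp_add]; simp
    have h4 : 0 < Real.exp (-x) := Real.exp_pos _
    have h5 : Real.exp (-x) * (1 + x) ≤ 1 := by
      exact (mul_le_mul_of_nonneg_left h2 h4.le).trans h3.le
    nlinarith [mul_nonneg hx0 (sub_nonneg.2 hx1), mul_nonneg hx0 h4.le]
  have h0 : 0 < Real.exp (-x) := Real.exp_pos _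
  have h6 : (1 + Real.exp (-x)) ^ 3 ≤ 8 := by
    have h7 : 1 + Real.exp (-x) ≤ 2 := by linarith
    calc (1 + Real.exp (-x)) ^ 3 ≤ 2 ^ 3 := pow_le_pow_left₀ (by linarith) h7 3
      _ = 8 := by norm_num
  rw [le_div_iff₀ (by positivity)]
  calc x / 16 * (1 + Real.exp (-x)) ^ 3 ≤ x / 16 * 8 :=
        mul_le_mul_of_nonneg_left h6 (by linarith)
    _ ≤ 1 - Real.exp (-x) := by linarith

theorem lim_exp (c : ℂ) :
    Tendsto (fun N : ℕ => (N : ℂ) * (Complex.exp (c * ((N : ℂ))⁻¹) - 1)) atTop (𝓝 c) := by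
  have h1 : HasDerivAt (fun x : ℂ => Complex.exp (c * x)) c 0 := by
    have h2 : HasDerivAt (fun x : ℂ => c * x) c 0 := by
      simpa using (hasDerivAt_id (0 : ℂ)).const_mul c
    have h3 := h2.cexp
    simpa using h3
  have h4 := h1.tendsto_slope_zero
  have h5 : Tendsto (fun N : ℕ => ((N : ℂ))⁻¹) atTop (𝓝[≠] 0) := by
    rw [tendsto_nhdsWithin_iff]
    refine ⟨?_, ?_⟩
    · have h6 : Tendsto (fun N : ℕ => ((N : ℝ))⁻¹) atTop (𝓝 0) := tendsto_inv_atTop_nhds_zero_nat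
      have h7 : Tendsto (fun N : ℕ => (((N : ℝ)⁻¹ : ℝ) : ℂ)) atTop (𝓝 ((0 : ℝ) : ℂ)) :=
        (Complex.continuous_ofReal.tendsto 0).comp h6
      simpa using h7
    · filter_upwards [eventually_gt_atTop 0] with N hN
      have : (N : ℂ) ≠ 0 := by exact_mod_cast hN.ne'
      exact inv_ne_zero this
  have h8 := h4.comp h5
  refine h8.congr fun N => ?_
  simp

end LipGAux

open LipGAux in
theorem prf_LipG (h3 : Gen') : LipG := by
  intro a eta ha he1 hX t ht
  refine h3 (fun n => (a : ℂ) * ((n - 1 : ℕ) : ℂ) + eta n) ?_ t ht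
  intro t ht
  refine ⟨fun N n => ((Real.exp (-(a * (t / N))) : ℝ) : ℂ) ^ (n - 1) * 1 +
    (-((t / N : ℝ) : ℂ) * eta n), ?_, ?_⟩
  · have hev : ∀ᶠ N : ℕ in atTop, 0 < N ∧ a * t ≤ N :=
      (eventually_gt_atTop 0).and (by
        obtain ⟨M, hM⟩ := exists_nat_ge (a * t)
        filter_upwards [eventually_ge_atTop M] with N hN
        exact hM.trans (by exact_mod_cast hN))
    filter_upwards [hev] with N hN
    obtain ⟨hN0, hN1⟩ := hN
    have hN0' : (0 : ℝ) < N := by exact_mod_cast hN0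
    set h : ℝ := t / N with hh
    have hh0 : 0 < h := div_pos ht hN0'
    have hah0 : 0 < a * h := mul_pos ha hh0
    have hah1 : a * h ≤ 1 := by
      rw [hh, ← mul_div_assoc, div_le_one hN0']
      exact hN1
    refine LB.nbhdX gol (lam := fun _ => (1 : ℂ)) lit_one (Real.exp_pos _).le
      (Real.exp_lt_one_iff.2 (by linarith)) (eta := fun n => -((h : ℝ) : ℂ) * eta n)
      (by simp [he1]) ?_
    intro f hf z hz
    obtain ⟨hs, hb⟩ := hX f hf z hz
    have e : (fun n : ℕ => ((n : ℂ) + 2) * (-((h : ℝ) : ℂ) * eta (n + 2)) * tc f (n + 2) *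
        z ^ (n + 1)) = fun n : ℕ => -((h : ℝ) : ℂ) *
          (((n : ℂ) + 2) * eta (n + 2) * tc f (n + 2) * z ^ (n + 1)) := by
      funext n
      ring
    show Summable (fun n : ℕ => ((n : ℂ) + 2) * (-((h : ℝ) : ℂ) * eta (n + 2)) * tc f (n + 2) *
        z ^ (n + 1)) ∧ ‖∑' n : ℕ, ((n : ℂ) + 2) * (-((h : ℝ) : ℂ) * eta (n + 2)) * tc f (n + 2) *
        z ^ (n + 1)‖ ≤ _
    rw [e]
    refine ⟨hs.mul_left _, ?_⟩
    rw [tsum_mul_left, norm_mul, norm_neg, Complex.norm_real, Real.norm_of_nonneg hh0.le]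
    refine le_trans ?_ (exp_bd hah0.le hah1)
    calc h * _ ≤ h * (a / 16) := mul_le_mul_of_nonneg_left hb hh0.le
      _ = a * h / 16 := by ring
  · intro n hn
    have h1 := lim_exp (-((a : ℂ) * t * ((n - 1 : ℕ) : ℂ)))
    have h2 : Tendsto (fun N : ℕ => (N : ℂ) * (Complex.exp
        (-((a : ℂ) * t * ((n - 1 : ℕ) : ℂ)) * ((N : ℂ))⁻¹) - 1) - t * eta n) atTop
        (𝓝 (-((a : ℂ) * t * ((n - 1 : ℕ) : ℂ)) - t * eta n)) := h1.sub_const _
    have e : -((t : ℂ) * ((a : ℂ) * ((n - 1 : ℕ) : ℂ) + eta n)) =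
        -((a : ℂ) * t * ((n - 1 : ℕ) : ℂ)) - t * eta n := by ring
    rw [e]
    refine h2.congr' ?_
    filter_upwards [eventually_gt_atTop 0] with N hN
    have hN' : (N : ℂ) ≠ 0 := by exact_mod_cast hN.ne'
    have e2 : ((Real.exp (-(a * (t / N))) : ℝ) : ℂ) ^ (n - 1) =
        Complex.exp (-((a : ℂ) * t * ((n - 1 : ℕ) : ℂ)) * ((N : ℂ))⁻¹) := by
      rw [Complex.ofReal_exp, ← Complex.exp_nat_mul]
      congr 1
      push_cast
      field_simp
    rw [e2]
    push_cast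
    field_simp
    ring

end Pool.Agent.MultS.SG

end
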